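import Mathlib

set_option autoImplicit false

namespace Pool.Agent.Work.MP_7b186b_nt.CU

open MeasureTheory intervalIntegral

/-- the power mean inequality for integrals -/
private theorem pow_mean (f : ℝ → ℝ) (hf : Continuous f) (hf0 : ∀ x, 0 ≤ f x) (z x : ℝ)
    (hzx : z ≤ x) (m : ℕ) :
    (∫ y in z..x, f y) ^ (m + 1) ≤ (x - z) ^ m * ∫ y in z..x, f y ^ (m + 1) := by
  rcases eq_or_lt_of_le hzx with h | h
  · rw [h, intervalIntegral.integral_same, intervalIntegral.integral_same]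
    simp
  have hpos : 0 < x - z := by linarith
  have hfi : IntegrableOn f (Set.Ioc z x) := (hf.intervalIntegrable z x).1
  have hgi : IntegrableOn ((fun t : ℝ => t ^ (m + 1)) ∘ f) (Set.Ioc z x) :=
    ((hf.pow (m + 1)).intervalIntegrable z x).1
  have h1 := (convexOn_pow (𝕜 := ℝ) (m + 1)).map_set_average_le (μ := volume)
    (t := Set.Ioc z x) (f := f) ((continuous_pow (m + 1)).continuousOn) isClosed_Ici
    (by simp [h]) (by simp)
    (Filter.Eventually.of_forall (fun y => hf0 y)) hfi hgi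
  rw [setAverage_eq, setAverage_eq] at h1
  have h2 : volume.real (Set.Ioc z x) = x - z := by
    rw [Real.volume_real_Ioc_of_le hzx]
  rw [h2, smul_eq_mul, smul_eq_mul] at h1
  rw [intervalIntegral.integral_of_le hzx, intervalIntegral.integral_of_le hzx]
  have h3 : ((x - z)⁻¹ * ∫ y in Set.Ioc z x, f y) ^ (m + 1) =
      ((x - z) ^ (m + 1))⁻¹ * (∫ y in Set.Ioc z x, f y) ^ (m + 1) := by
    rw [mul_pow, inv_pow]
  rw [h3] at h1
  have h4 := mul_le_mul_of_nonneg_left h1 (by positivity : (0 : ℝ) ≤ (x - z) ^ (m + 1))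
  have h5 : (x - z) ^ (m + 1) * (((x - z) ^ (m + 1))⁻¹ * (∫ y in Set.Ioc z x, f y) ^ (m + 1)) =
      (∫ y in Set.Ioc z x, f y) ^ (m + 1) := by
    rw [← mul_assoc, mul_inv_cancel₀ (by positivity), one_mul]
  have h6 : (x - z) ^ (m + 1) * ((x - z)⁻¹ * ∫ y in Set.Ioc z x, f y ^ (m + 1)) =
      (x - z) ^ m * ∫ y in Set.Ioc z x, f y ^ (m + 1) := by
    rw [pow_succ, mul_assoc, ← mul_assoc (x - z) _ _, mul_inv_cancel₀ hpos.ne', one_mul]
  rw [h5, h6] at h4
  exact h4

/-- one-sided elementary Wirtinger inequality -/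
private theorem wirt_right (a a' : ℝ → ℂ) (ha : ∀ x, HasDerivAt a (a' x) x) (hc : Continuous a')
    (z l : ℝ) (hl : 0 ≤ l) (hz : a z = 0) (m : ℕ) :
    ∫ x in z..(z + l), ‖a x‖ ^ (m + 1) ≤
      l ^ (m + 1) / (m + 1) * ∫ x in z..(z + l), ‖a' x‖ ^ (m + 1) := by
  have hac : Continuous a := continuous_iff_continuousAt.mpr (fun x => (ha x).continuousAt)
  set I : ℝ := ∫ x in z..(z + l), ‖a' x‖ ^ (m + 1) with hI
  have hI0 : 0 ≤ I := intervalIntegral.integral_nonneg (by linarith) (fun x _ => by positivity)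
  have hpt : ∀ x ∈ Set.Icc z (z + l), ‖a x‖ ^ (m + 1) ≤ (x - z) ^ m * I := by
    intro x hx
    have h1 : a x = ∫ y in z..x, a' y := by
      rw [intervalIntegral.integral_eq_sub_of_hasDerivAt (fun y _ => ha y)
        (hc.intervalIntegrable _ _), hz, sub_zero]
    have h2 : ‖a x‖ ≤ ∫ y in z..x, ‖a' y‖ := by
      rw [h1]
      exact intervalIntegral.norm_integral_le_integral_norm hx.1
    have h3 := pow_mean (fun y => ‖a' y‖) hc.norm (fun y => norm_nonneg _) z x hx.1 m
    have h4 : ∫ y in z..x, ‖a' y‖ ^ (m + 1) ≤ I := by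
      rw [hI]
      refine intervalIntegral.integral_mono_interval le_rfl hx.1 hx.2 ?_
        ((hc.norm.pow (m + 1)).intervalIntegrable _ _)
      exact Filter.Eventually.of_forall (fun y => by positivity)
    have h5 : 0 ≤ (x - z) ^ m := pow_nonneg (by linarith [hx.1]) m
    calc ‖a x‖ ^ (m + 1) ≤ (∫ y in z..x, ‖a' y‖) ^ (m + 1) :=
          pow_le_pow_left₀ (norm_nonneg _) h2 (m + 1)
      _ ≤ (x - z) ^ m * ∫ y in z..x, ‖a' y‖ ^ (m + 1) := h3
      _ ≤ (x - z) ^ m * I := mul_le_mul_of_nonneg_left h4 h5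
  have h1 : ∫ x in z..(z + l), ‖a x‖ ^ (m + 1) ≤ ∫ x in z..(z + l), (x - z) ^ m * I :=
    intervalIntegral.integral_mono_on (by linarith)
      ((hac.norm.pow (m + 1)).intervalIntegrable _ _)
      ((((continuous_id.sub continuous_const).pow m).mul continuous_const).intervalIntegrable _ _)
      hpt
  refine h1.trans (le_of_eq ?_)
  rw [intervalIntegral.integral_mul_const]
  have h2 : ∫ x in z..(z + l), (x - z) ^ m = l ^ (m + 1) / (m + 1) := by
    rw [intervalIntegral.integral_comp_sub_right (fun x => x ^ m) z, sub_self,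
      add_sub_cancel_left, integral_pow]
    simp
  rw [h2]

/-- two-sided elementary Wirtinger inequality around a zero -/
theorem wirt (a a' : ℝ → ℂ) (ha : ∀ x, HasDerivAt a (a' x) x) (hc : Continuous a')
    (z l : ℝ) (hl : 0 ≤ l) (hz : a z = 0) (m : ℕ) :
    ∫ x in (z - l)..(z + l), ‖a x‖ ^ (m + 1) ≤
      l ^ (m + 1) / (m + 1) * ∫ x in (z - l)..(z + l), ‖a' x‖ ^ (m + 1) := by
  have hac : Continuous a := continuous_iff_continuousAt.mpr (fun x => (ha x).continuousAt)
  have hr := wirt_right a a' ha hc z l hl hz m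
  have hleft := wirt_right (fun x => a (-x)) (fun x => -a' (-x)) (fun x => ?_) ?_ (-z) l hl ?_ m
  · have h1 : ∫ x in (-z)..(-z + l), ‖a (-x)‖ ^ (m + 1) =
        ∫ x in (z - l)..z, ‖a x‖ ^ (m + 1) := by
      rw [intervalIntegral.integral_comp_neg (fun x => ‖a x‖ ^ (m + 1))]
      congr 1
      · ring
      · ring
    have h2 : ∫ x in (-z)..(-z + l), ‖-a' (-x)‖ ^ (m + 1) =
        ∫ x in (z - l)..z, ‖a' x‖ ^ (m + 1) := by
      simp_rw [norm_neg]
      rw [intervalIntegral.integral_comp_neg (fun x => ‖a' x‖ ^ (m + 1))]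
      congr 1
      · ring
      · ring
    rw [h1, h2] at hleft
    have h3 : ∫ x in (z - l)..(z + l), ‖a x‖ ^ (m + 1) =
        (∫ x in (z - l)..z, ‖a x‖ ^ (m + 1)) + ∫ x in z..(z + l), ‖a x‖ ^ (m + 1) :=
      (intervalIntegral.integral_add_adjacent_intervals
        ((hac.norm.pow (m + 1)).intervalIntegrable _ _)
        ((hac.norm.pow (m + 1)).intervalIntegrable _ _)).symm
    have h4 : ∫ x in (z - l)..(z + l), ‖a' x‖ ^ (m + 1) =
        (∫ x in (z - l)..z, ‖a' x‖ ^ (m + 1)) + ∫ x in z..(z + l), ‖a' x‖ ^ (m + 1) :=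
      (intervalIntegral.integral_add_adjacent_intervals
        ((hc.norm.pow (m + 1)).intervalIntegrable _ _)
        ((hc.norm.pow (m + 1)).intervalIntegrable _ _)).symm
    rw [h3, h4, mul_add]
    linarith
  · have h1 := (ha (-x)).scomp x (hasDerivAt_neg x)
    simp only [neg_smul, one_smul] at h1
    exact h1
  · exact (hc.comp continuous_neg).neg
  · rw [neg_neg]
    exact hz

end Pool.Agent.Work.MP_7b186b_nt.CU
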