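import Mathlib

set_option autoImplicit false

/-!
Random unitary matrices as a model for the zeros of the zeta function: eigenangles in turns,
Weyl's integration formula, weights `|G|^2` with `G` a symmetric polynomial in the eigenvalues.
-/

namespace Pool.Agent.Work.MP_7b186b_nt.CU

open Finset MeasureTheory

/-- the eigenvalue `e^(2 π i θ_i)` -/
noncomputable def zt {N : ℕ} (θ : Fin N → ℝ) (i : Fin N) : ℂ :=
  Complex.exp (2 * Real.pi * θ i * Complex.I)

/-- the Vandermonde product `∏_{i < j} (z_j - z_i)` -/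
noncomputable def vd {N : ℕ} (θ : Fin N → ℝ) : ℂ :=
  ∏ i : Fin N, ∏ j ∈ Ioi i, (zt θ j - zt θ i)

/-- `∫ F(θ) ∏_{i < j} |z_i - z_j|^2 dθ` over the cube `[0, 1]^N`: up to the factor `N!` the mean
of `F` over the eigenangles of a Haar distributed unitary `N × N` matrix -/
noncomputable def cue (N : ℕ) (F : (Fin N → ℝ) → ℝ) : ℝ :=
  ∫ θ in Set.Icc (0 : Fin N → ℝ) 1, F θ * ‖vd θ‖ ^ 2

/-- the number of eigenangles in the arc `[a, a + L)` modulo `1` -/
noncomputable def cnt {N : ℕ} (a L : ℝ) (θ : Fin N → ℝ) : ℝ :=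
  ∑ i, if Int.fract (θ i - a) < L then 1 else 0

/-- the value of a polynomial at the eigenvalues -/
noncomputable def ev {N : ℕ} (G : MvPolynomial (Fin N) ℂ) (θ : Fin N → ℝ) : ℂ :=
  MvPolynomial.eval (zt θ) G

/-- sum of the squares of the coefficients -/
noncomputable def nrm {N : ℕ} (H : MvPolynomial (Fin N) ℂ) : ℝ :=
  ∑ α ∈ H.support, ‖H.coeff α‖ ^ 2

/-- the coefficient of `γ` in `p_j^* H`: `∑_i H_{γ + j e_i}` -/
noncomputable def dn {N : ℕ} (H : MvPolynomial (Fin N) ℂ) (j : ℕ) (γ : Fin N →₀ ℕ) : ℂ :=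
  ∑ i, H.coeff (γ + Finsupp.single i j)

/-- the Fourier coefficient `∫_{[a, a+L)} e^(-2 π i m θ) dθ` -/
noncomputable def ih (a L : ℝ) (m : ℤ) : ℂ :=
  ∫ θ in a..(a + L), Complex.exp (-(2 * Real.pi * m * θ * Complex.I))

/-- the Vandermonde polynomial -/
noncomputable def vp (N : ℕ) : MvPolynomial (Fin N) ℂ :=
  ∏ i : Fin N, ∏ j ∈ Ioi i, (MvPolynomial.X j - MvPolynomial.X i)

/-- antisymmetric polynomials -/
def Anti {N : ℕ} (H : MvPolynomial (Fin N) ℂ) : Prop :=
  ∀ i j : Fin N, i ≠ j → MvPolynomial.rename (Equiv.swap i j) H = -H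

end Pool.Agent.Work.MP_7b186b_nt.CU
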