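import Mathlib
import Pool.Agent.Work.MP_7b186b_nt.CU.Defs

set_option autoImplicit false

namespace Pool.Agent.Work.MP_7b186b_nt.CU

open Finset MeasureTheory

/-- the point `e^(2 π i t)` -/
noncomputable def e1 (t : ℝ) : ℂ := Complex.exp (2 * Real.pi * t * Complex.I)

/-- the symmetric polynomial `∏_i p(X_i)` -/
noncomputable def gp {N : ℕ} (p : Polynomial ℂ) : MvPolynomial (Fin N) ℂ :=
  ∏ i : Fin N, Polynomial.aeval (MvPolynomial.X i) p

/-- the homogeneous component of degree `d` multiplied by `φ d`, for all `d ≤ K` -/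
noncomputable def tw {N : ℕ} (K : ℕ) (φ : ℕ → ℝ) (G : MvPolynomial (Fin N) ℂ) :
    MvPolynomial (Fin N) ℂ :=
  ∑ d ∈ range (K + 1), MvPolynomial.C ((φ d : ℝ) : ℂ) * MvPolynomial.homogeneousComponent d G

/-- polynomial with `k` zeros on the unit circle, at spacing `h` turns, symmetric about `1` -/
noncomputable def pz (k : ℕ) (h : ℝ) : Polynomial ℂ :=
  ∏ l ∈ range k, (Polynomial.X - Polynomial.C (e1 (((l : ℝ) - ((k : ℝ) - 1) / 2) * h)))

theorem zt_eq {N : ℕ} (θ : Fin N → ℝ) (i : Fin N) : zt θ i = e1 (θ i) := rfl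

end Pool.Agent.Work.MP_7b186b_nt.CU
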