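import Mathlib
import Pool.Agent.Work.MP_7b186b_nt.CU.Defs2

set_option autoImplicit false

namespace Pool.Agent.Work.MP_7b186b_nt.CU

open Finset MeasureTheory

theorem zt_cont {N : ℕ} (i : Fin N) : Continuous (fun θ : Fin N → ℝ => zt θ i) := by
  unfold zt
  fun_prop

theorem vd_cont {N : ℕ} : Continuous (fun θ : Fin N → ℝ => vd θ) := by
  unfold vd
  refine continuous_finsetProd _ (fun i _ => continuous_finsetProd _ (fun j _ => ?_))
  exact (zt_cont j).sub (zt_cont i)

theorem ev_cont {N : ℕ} (G : MvPolynomial (Fin N) ℂ) :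
    Continuous (fun θ : Fin N → ℝ => ev G θ) := by
  unfold ev
  have h1 : Continuous (fun z : Fin N → ℂ => MvPolynomial.eval z G) :=
    MvPolynomial.continuous_eval G
  exact h1.comp (continuous_pi (fun i => zt_cont i))

theorem cnt_meas {N : ℕ} (a L : ℝ) : Measurable (fun θ : Fin N → ℝ => cnt a L θ) := by
  unfold cnt
  refine Finset.measurable_sum _ (fun i _ => ?_)
  refine Measurable.ite ?_ measurable_const measurable_const
  have h1 : Measurable (fun θ : Fin N → ℝ => θ i - a) := by fun_prop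
  exact measurableSet_lt (measurable_fract.comp h1) measurable_const

theorem cnt_nonneg {N : ℕ} (a L : ℝ) (θ : Fin N → ℝ) : 0 ≤ cnt a L θ := by
  unfold cnt
  refine Finset.sum_nonneg (fun i _ => ?_)
  split_ifs
  · exact zero_le_one
  · exact le_rfl

theorem cnt_le {N : ℕ} (a L : ℝ) (θ : Fin N → ℝ) : cnt a L θ ≤ N := by
  unfold cnt
  calc ∑ i : Fin N, (if Int.fract (θ i - a) < L then (1 : ℝ) else 0) ≤ ∑ _i : Fin N, (1 : ℝ) := by
        refine Finset.sum_le_sum (fun i _ => ?_)
        split_ifs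
        · exact le_rfl
        · exact zero_le_one
    _ = N := by simp

theorem int_cont {N : ℕ} (f : (Fin N → ℝ) → ℝ) (hf : Continuous f) :
    IntegrableOn f (Set.Icc (0 : Fin N → ℝ) 1) :=
  hf.continuousOn.integrableOn_compact isCompact_Icc

theorem int_cnt {N : ℕ} (f : (Fin N → ℝ) → ℝ) (hf : Continuous f) (a L : ℝ) :
    IntegrableOn (fun θ => f θ * cnt a L θ) (Set.Icc (0 : Fin N → ℝ) 1) := by
  refine Integrable.mul_bdd (c := (N : ℝ)) (int_cont f hf) (cnt_meas a L).aestronglyMeasurable ?_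
  refine Filter.Eventually.of_forall (fun θ => ?_)
  rw [Real.norm_eq_abs, abs_of_nonneg (cnt_nonneg a L θ)]
  exact cnt_le a L θ

/-- splitting the mean of `cnt - N L` -/
theorem cue_sub {N : ℕ} (G : MvPolynomial (Fin N) ℂ) (a L c : ℝ) :
    cue N (fun θ => ‖ev G θ‖ ^ 2 * (cnt a L θ - c)) =
      cue N (fun θ => ‖ev G θ‖ ^ 2 * cnt a L θ) - c * cue N (fun θ => ‖ev G θ‖ ^ 2) := by
  unfold cue
  have hc : Continuous (fun θ : Fin N → ℝ => ‖ev G θ‖ ^ 2 * ‖vd θ‖ ^ 2) :=
    ((ev_cont G).norm.pow 2).mul (vd_cont.norm.pow 2)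
  rw [← integral_const_mul, ← integral_sub]
  · refine integral_congr_ae (Filter.Eventually.of_forall (fun θ => ?_))
    simp only
    ring
  · have h := int_cnt _ hc a L
    refine h.congr (Filter.Eventually.of_forall (fun θ => ?_))
    simp only
    ring
  · exact (int_cont _ hc).const_mul c

theorem cue_nonneg {N : ℕ} (G : MvPolynomial (Fin N) ℂ) :
    0 ≤ cue N (fun θ => ‖ev G θ‖ ^ 2) := by
  unfold cue
  exact integral_nonneg (fun θ => by positivity)

theorem cue_cnt_nonneg {N : ℕ} (G : MvPolynomial (Fin N) ℂ) (a L : ℝ) :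
    0 ≤ cue N (fun θ => ‖ev G θ‖ ^ 2 * cnt a L θ) := by
  unfold cue
  refine integral_nonneg (fun θ => ?_)
  have := cnt_nonneg a L θ
  simp only [Pi.zero_apply]
  positivity

/-- comparison of arcs -/
theorem cue_cnt_mono {N : ℕ} (G : MvPolynomial (Fin N) ℂ) (a L a' L' : ℝ)
    (h : ∀ t : ℝ, Int.fract (t - a) < L → Int.fract (t - a') < L') :
    cue N (fun θ => ‖ev G θ‖ ^ 2 * cnt a L θ) ≤ cue N (fun θ => ‖ev G θ‖ ^ 2 * cnt a' L' θ) := by
  unfold cue
  have hc : Continuous (fun θ : Fin N → ℝ => ‖ev G θ‖ ^ 2 * ‖vd θ‖ ^ 2) :=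
    ((ev_cont G).norm.pow 2).mul (vd_cont.norm.pow 2)
  refine integral_mono ?_ ?_ (fun θ => ?_)
  · have h := int_cnt _ hc a L
    refine h.congr (Filter.Eventually.of_forall (fun θ => ?_))
    simp only
    ring
  · have h := int_cnt _ hc a' L'
    refine h.congr (Filter.Eventually.of_forall (fun θ => ?_))
    simp only
    ring
  · simp only
    have h1 : cnt a L θ ≤ cnt a' L' θ := by
      unfold cnt
      refine Finset.sum_le_sum (fun i _ => ?_)
      split_ifs with h2 h3 h3
      · exact le_rfl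
      · exact absurd (h _ h2) h3
      · exact zero_le_one
      · exact le_rfl
    gcongr

end Pool.Agent.Work.MP_7b186b_nt.CU
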