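import Mathlib
import Pool.Agent.Work.MP_7b186b_nt.CU.Defs2

set_option autoImplicit false

namespace Pool.Agent.Work.MP_7b186b_nt.CU

open Finset MeasureTheory

/-
PROOF. tw_sym: rename commutes with homogeneousComponent (MvPolynomial.rename_homogeneousComponent) and with C. tw_deg: only d < b
contribute; the total degree of a homogeneous component of degree d is at most d (IsHomogeneous.totalDegree_le). tw_one:
sum_homogeneousComponent. ev_rot: monomials z^α with |α| = d: zt (θ + s) i = e1 s * zt θ i, so eval of the component of degree d at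
the rotated point is e1 (d s) times the value at θ (IsHomogeneous.eval₂ or coefficientwise); sum over d <= K (G = sum of its
components, totalDegree G <= K). tw_avg: ev of tw is sum_d φ(d) ev(component d); insert hφ, exchange sums, ev_rot.
-/

theorem tw_sym {N : ℕ} (K : ℕ) (φ : ℕ → ℝ) (G : MvPolynomial (Fin N) ℂ) (hG : G.IsSymmetric) :
    (tw K φ G).IsSymmetric := by
  intro e
  unfold tw
  rw [map_sum]
  refine Finset.sum_congr rfl (fun d _ => ?_)
  rw [map_mul, MvPolynomial.rename_C, MvPolynomial.rename_homogeneousComponent, hG e]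

theorem tw_deg {N : ℕ} (K b : ℕ) (hb : 1 ≤ b) (φ : ℕ → ℝ) (hφ : ∀ d, b ≤ d → φ d = 0)
    (G : MvPolynomial (Fin N) ℂ) : (tw K φ G).totalDegree < b := by
  have h1 : (tw K φ G).totalDegree ≤ b - 1 := by
    unfold tw
    refine MvPolynomial.totalDegree_finsetSum_le (fun d _ => ?_)
    by_cases hd : b ≤ d
    · rw [hφ d hd]
      simp
    · refine (MvPolynomial.totalDegree_mul _ _).trans ?_
      rw [MvPolynomial.totalDegree_C, zero_add]
      have := (MvPolynomial.homogeneousComponent_isHomogeneous d G).totalDegree_le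
      omega
  omega

private theorem sum_comp {N : ℕ} (K : ℕ) (G : MvPolynomial (Fin N) ℂ) (hK : G.totalDegree ≤ K) :
    ∑ d ∈ range (K + 1), MvPolynomial.homogeneousComponent d G = G := by
  have h1 := MvPolynomial.sum_homogeneousComponent G
  rw [← Finset.sum_subset (Finset.range_subset_range.mpr (Nat.succ_le_succ hK))] at *
  · exact h1
  · intro d _ hd
    rw [mem_range] at hd
    exact MvPolynomial.homogeneousComponent_eq_zero d G (by omega)

theorem tw_one {N : ℕ} (K : ℕ) (G : MvPolynomial (Fin N) ℂ) (hK : G.totalDegree ≤ K) :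
    tw K (fun _ => 1) G = G := by
  unfold tw
  simp only [Complex.ofReal_one, map_one, one_mul]
  exact sum_comp K G hK

private theorem e1_nat (n : ℕ) (s : ℝ) : e1 (n * s) = e1 s ^ n := by
  unfold e1
  rw [← Complex.exp_nat_mul]
  congr 1
  push_cast
  ring

private theorem hom_rot {N : ℕ} (n : ℕ) (F : MvPolynomial (Fin N) ℂ) (hF : F.IsHomogeneous n)
    (θ : Fin N → ℝ) (s : ℝ) : ev F (fun i => θ i + s) = e1 (n * s) * ev F θ := by
  unfold ev
  rw [MvPolynomial.eval_eq', MvPolynomial.eval_eq', Finset.mul_sum]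
  refine Finset.sum_congr rfl (fun α hα => ?_)
  have h1 : ∀ i : Fin N, zt (fun i => θ i + s) i = e1 s * zt θ i := by
    intro i
    unfold zt e1
    rw [← Complex.exp_add]
    congr 1
    push_cast
    ring
  simp_rw [h1, mul_pow]
  rw [Finset.prod_mul_distrib, Finset.prod_pow_eq_pow_sum]
  have h2 : ∑ i, α i = n := by
    have h3 : (Finsupp.weight (fun _ => 1 : Fin N → ℕ)) α = n :=
      hF (MvPolynomial.mem_support_iff.mp hα)
    rw [← Finsupp.degree_eq_weight_one, Finsupp.degree_eq_sum] at h3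
    exact h3
  rw [h2, e1_nat]
  ring

/-- rotating all the eigenvalues -/
theorem ev_rot {N : ℕ} (K : ℕ) (G : MvPolynomial (Fin N) ℂ) (hK : G.totalDegree ≤ K)
    (θ : Fin N → ℝ) (s : ℝ) : ev G (fun i => θ i + s) =
      ∑ d ∈ range (K + 1), e1 (d * s) * ev (MvPolynomial.homogeneousComponent d G) θ := by
  have h1 : ev G (fun i => θ i + s) =
      ∑ d ∈ range (K + 1), ev (MvPolynomial.homogeneousComponent d G) (fun i => θ i + s) := by
    conv_lhs => rw [← sum_comp K G hK]
    unfold ev
    rw [map_sum]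
  rw [h1]
  refine Finset.sum_congr rfl (fun d _ => ?_)
  exact hom_rot d _ (MvPolynomial.homogeneousComponent_isHomogeneous d G) θ s

/-- the twist as an average of rotations -/
theorem tw_avg {N : ℕ} (K : ℕ) (φ : ℕ → ℝ) (G : MvPolynomial (Fin N) ℂ) (hK : G.totalDegree ≤ K)
    (M : ℕ) (s c : ℕ → ℝ)
    (hφ : ∀ d : ℕ, d ≤ K → ∑ r ∈ range M, (c r : ℂ) * e1 (d * s r) = ((φ d : ℝ) : ℂ))
    (θ : Fin N → ℝ) :
    ev (tw K φ G) θ = ∑ r ∈ range M, (c r : ℂ) * ev G (fun i => θ i + s r) := by
  simp_rw [ev_rot K G hK θ, Finset.mul_sum]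
  rw [Finset.sum_comm]
  have h1 : ev (tw K φ G) θ = ∑ d ∈ range (K + 1),
      ((φ d : ℝ) : ℂ) * ev (MvPolynomial.homogeneousComponent d G) θ := by
    unfold ev tw
    rw [map_sum]
    refine Finset.sum_congr rfl (fun d _ => ?_)
    rw [map_mul, MvPolynomial.eval_C]
  rw [h1]
  refine Finset.sum_congr rfl (fun d hd => ?_)
  rw [mem_range] at hd
  rw [← hφ d (by omega), Finset.sum_mul]
  refine Finset.sum_congr rfl (fun r _ => ?_)
  ring

end Pool.Agent.Work.MP_7b186b_nt.CU
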