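import Mathlib
import Pool.Agent.Work.MP_7b186b_nt.CU.HA
import Pool.Agent.Work.MP_7b186b_nt.CU.Int
import Pool.Agent.Work.MP_7b186b_nt.CU.TwA

set_option autoImplicit false

namespace Pool.Agent.Work.MP_7b186b_nt.CU

open Finset MeasureTheory

/-- the integral over a period against the indicator of an arc -/
private theorem arc_per (g : ℝ → ℝ) (_hg : Continuous g) (hp : Function.Periodic g 1) (b L : ℝ)
    (hL0 : 0 ≤ L) (hL1 : L ≤ 1) :
    ∫ s in (0 : ℝ)..1, g s * (if Int.fract (s - b) < L then (1 : ℝ) else 0) =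
      ∫ s in b..(b + L), g s := by
  set f : ℝ → ℝ := fun s => g s * (if Int.fract (s - b) < L then (1 : ℝ) else 0) with hf
  have hper : Function.Periodic f 1 := by
    intro s
    rw [hf]
    simp only
    have h1 : Int.fract (s + 1 - b) = Int.fract (s - b) := by
      have : s + 1 - b = (s - b) + 1 := by ring
      rw [this, Int.fract_add_one]
    rw [hp s, h1]
  have h1 : ∫ s in (0 : ℝ)..1, f s = ∫ s in b..(b + 1), f s := by
    have := hper.intervalIntegral_add_eq 0 b
    rw [zero_add] at this
    exact this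
  have h2 : ∫ s in b..(b + 1), f s = ∫ s in b..(b + 1),
      Set.indicator (Set.Iio (b + L)) g s := by
    rw [intervalIntegral.integral_of_le (by linarith), intervalIntegral.integral_of_le (by linarith),
      ← integral_Ico_eq_integral_Ioc, ← integral_Ico_eq_integral_Ioc]
    refine setIntegral_congr_fun measurableSet_Ico (fun s hs => ?_)
    have h3 : Int.fract (s - b) = s - b :=
      Int.fract_eq_self.mpr ⟨by linarith [hs.1], by linarith [hs.2]⟩
    rw [hf]
    simp only [h3, Set.indicator, Set.mem_Iio]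
    by_cases h4 : s - b < L
    · rw [if_pos h4, if_pos (by linarith), mul_one]
    · rw [if_neg h4, if_neg (fun h => h4 (by linarith)), mul_zero]
  rw [h1, h2, intervalIntegral.integral_of_le (by linarith),
    setIntegral_indicator measurableSet_Iio]
  have h5 : ∫ s in Set.Ioc b (b + 1) ∩ Set.Iio (b + L), g s = ∫ s in Set.Ioo b (b + L), g s := by
    congr 2
    ext s
    simp only [Set.mem_inter_iff, Set.mem_Ioc, Set.mem_Iio, Set.mem_Ioo]
    constructor
    · rintro ⟨⟨h6, _⟩, h7⟩
      exact ⟨h6, h7⟩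
    · rintro ⟨h6, h7⟩
      exact ⟨⟨h6, by linarith⟩, h7⟩
  rw [h5, intervalIntegral.integral_of_le (by linarith), integral_Ioc_eq_integral_Ioo]

/-- the twisted path of rotations and its derivative -/
theorem path_deriv {N : ℕ} (K : ℕ) (F : MvPolynomial (Fin N) ℂ) (hK : F.totalDegree ≤ K)
    (c : ℝ) (θ : Fin N → ℝ) (s : ℝ) :
    HasDerivAt (fun s => e1 (-(c * s)) * ev F (fun i => θ i + s))
      (2 * Real.pi * Complex.I * (e1 (-(c * s)) *
        ev (tw K (fun d => (d : ℝ) - c) F) (fun i => θ i + s))) s := by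
  have hKt : (tw K (fun d => (d : ℝ) - c) F).totalDegree ≤ K := by
    unfold tw
    refine MvPolynomial.totalDegree_finsetSum_le (fun d hd => ?_)
    refine (MvPolynomial.totalDegree_mul _ _).trans ?_
    rw [MvPolynomial.totalDegree_C, zero_add]
    have h1 := (MvPolynomial.homogeneousComponent_isHomogeneous d F).totalDegree_le
    rw [mem_range] at hd
    omega
  have hexp : (fun s => e1 (-(c * s)) * ev F (fun i => θ i + s)) =
      fun s : ℝ => ∑ d ∈ range (K + 1), Complex.exp ((2 * Real.pi * ((d : ℝ) - c) * Complex.I) * s) *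
        ev (MvPolynomial.homogeneousComponent d F) θ := by
    funext s
    rw [ev_rot K F hK θ s, Finset.mul_sum]
    refine Finset.sum_congr rfl (fun d _ => ?_)
    rw [← mul_assoc]
    congr 1
    unfold e1
    rw [← Complex.exp_add]
    congr 1
    push_cast
    ring
  have hcomp : ∀ d ∈ range (K + 1), MvPolynomial.homogeneousComponent d
      (tw K (fun d => (d : ℝ) - c) F) =
      MvPolynomial.C (((d : ℝ) - c : ℝ) : ℂ) * MvPolynomial.homogeneousComponent d F := by
    intro d hd
    unfold tw
    rw [map_sum, Finset.sum_eq_single d]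
    · rw [MvPolynomial.homogeneousComponent_C_mul,
        MvPolynomial.homogeneousComponent_of_mem
          (MvPolynomial.homogeneousComponent_isHomogeneous d F), if_pos rfl]
    · intro d' _ hne
      rw [MvPolynomial.homogeneousComponent_C_mul,
        MvPolynomial.homogeneousComponent_of_mem
          (MvPolynomial.homogeneousComponent_isHomogeneous d' F), if_neg hne.symm, mul_zero]
    · intro h
      exact absurd hd h
  have hval : 2 * Real.pi * Complex.I * (e1 (-(c * s)) *
        ev (tw K (fun d => (d : ℝ) - c) F) (fun i => θ i + s)) =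
      ∑ d ∈ range (K + 1), (Complex.exp ((2 * Real.pi * ((d : ℝ) - c) * Complex.I) * s) *
        ((2 * Real.pi * ((d : ℝ) - c) * Complex.I) * 1)) *
        ev (MvPolynomial.homogeneousComponent d F) θ := by
    rw [ev_rot K _ hKt θ s, Finset.mul_sum, Finset.mul_sum]
    refine Finset.sum_congr rfl (fun d hd => ?_)
    rw [hcomp d hd]
    have h1 : ev (MvPolynomial.C (((d : ℝ) - c : ℝ) : ℂ) *
        MvPolynomial.homogeneousComponent d F) θ =
        (((d : ℝ) - c : ℝ) : ℂ) * ev (MvPolynomial.homogeneousComponent d F) θ := by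
      unfold ev
      rw [map_mul, MvPolynomial.eval_C]
    rw [h1]
    have h2 : e1 (-(c * s)) * e1 (d * s) =
        Complex.exp ((2 * Real.pi * ((d : ℝ) - c) * Complex.I) * s) := by
      unfold e1
      rw [← Complex.exp_add]
      congr 1
      push_cast
      ring
    rw [← h2]
    push_cast
    ring
  rw [hexp, hval]
  refine HasDerivAt.fun_sum (fun d _ => ?_)
  refine HasDerivAt.mul_const ?_ _
  have h1 : HasDerivAt (fun s : ℝ => (2 * Real.pi * ((d : ℝ) - c) * Complex.I) * (s : ℂ))
      ((2 * Real.pi * ((d : ℝ) - c) * Complex.I) * 1) s :=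
    (Complex.ofRealCLM.hasDerivAt (x := s)).const_mul _
  exact h1.cexp

/-- the rotation average of the local Wirtinger inequality -/
theorem orbit_wirt {N : ℕ} (F : MvPolynomial (Fin N) ℂ) (c l : ℝ) (hl0 : 0 ≤ l) (hl1 : 2 * l ≤ 1)
    (k : ℕ) (hk : 1 ≤ k)
    (hz : ∀ θ : Fin N → ℝ, (∃ i, θ i = 0) → ev F θ = 0) (θ : Fin N → ℝ) :
    ∫ s in (0 : ℝ)..1, ‖ev F (fun i => θ i + s)‖ ^ (2 * k) * cnt (-l - s) (2 * l) θ ≤
      (2 * Real.pi * l) ^ (2 * k) / (2 * k) * ∫ s in (0 : ℝ)..1,
        ‖ev (tw F.totalDegree (fun d => (d : ℝ) - c) F) (fun i => θ i + s)‖ ^ (2 * k) *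
          cnt (-l - s) (2 * l) θ := by
  set F' := tw F.totalDegree (fun d => (d : ℝ) - c) F with hF'
  have e1n : ∀ t : ℝ, ‖e1 t‖ = 1 := by
    intro t
    unfold e1
    have h1 : 2 * (Real.pi : ℂ) * t * Complex.I = ((2 * Real.pi * t : ℝ) : ℂ) * Complex.I := by
      push_cast
      ring
    rw [h1, Complex.norm_exp_ofReal_mul_I]
  have e1c : Continuous e1 := by
    unfold e1
    fun_prop
  have hcont : ∀ G : MvPolynomial (Fin N) ℂ, Continuous (fun s : ℝ => ev G (fun i => θ i + s)) :=
    fun G => (ev_cont G).comp (continuous_pi (fun i => continuous_const.add continuous_id))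
  have hper : ∀ G : MvPolynomial (Fin N) ℂ,
      Function.Periodic (fun s : ℝ => ‖ev G (fun i => θ i + s)‖ ^ (2 * k)) 1 := by
    intro G s
    have h1 : ev G (fun i => θ i + (s + 1)) = ev G (fun i => θ i + s) := by
      unfold ev
      congr 1
      have h2 : zt (fun i => θ i + (s + 1)) = zt (fun i => θ i + s) := by
        funext i
        unfold zt
        have h3 : 2 * (Real.pi : ℂ) * ((θ i + (s + 1) : ℝ) : ℂ) * Complex.I =
            2 * Real.pi * ((θ i + s : ℝ) : ℂ) * Complex.I + 2 * Real.pi * Complex.I := by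
          push_cast
          ring
        rw [h3, Complex.exp_add, Complex.exp_two_pi_mul_I, mul_one]
      rw [h2]
    simp only [h1]
  -- the counting function in terms of s
  have hcnt : ∀ s, cnt (-l - s) (2 * l) θ =
      ∑ i, (if Int.fract (s - (-θ i - l)) < 2 * l then (1 : ℝ) else 0) := by
    intro s
    unfold cnt
    refine Finset.sum_congr rfl (fun i _ => ?_)
    have h1 : θ i - (-l - s) = s - (-θ i - l) := by ring
    rw [h1]
  have hsplit : ∀ G : MvPolynomial (Fin N) ℂ, ∫ s in (0 : ℝ)..1,
      ‖ev G (fun i => θ i + s)‖ ^ (2 * k) * cnt (-l - s) (2 * l) θ =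
      ∑ i, ∫ s in (-θ i - l)..(-θ i + l), ‖ev G (fun i => θ i + s)‖ ^ (2 * k) := by
    intro G
    have h1 : ∀ i, ∫ s in (-θ i - l)..(-θ i + l), ‖ev G (fun i => θ i + s)‖ ^ (2 * k) =
        ∫ s in (0 : ℝ)..1, ‖ev G (fun i => θ i + s)‖ ^ (2 * k) *
          (if Int.fract (s - (-θ i - l)) < 2 * l then (1 : ℝ) else 0) := by
      intro i
      have h2 := arc_per (fun s => ‖ev G (fun i => θ i + s)‖ ^ (2 * k))
        ((hcont G).norm.pow (2 * k)) (hper G) (-θ i - l) (2 * l) (by linarith) hl1
      have h3 : -θ i - l + 2 * l = -θ i + l := by ring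
      rw [h3] at h2
      exact h2.symm
    simp_rw [h1]
    rw [← intervalIntegral.integral_finsetSum]
    · refine intervalIntegral.integral_congr (fun s _ => ?_)
      rw [hcnt, Finset.mul_sum]
    · intro i _
      have hc : Continuous (fun s : ℝ => ‖ev G (fun i => θ i + s)‖ ^ (2 * k)) :=
        (hcont G).norm.pow (2 * k)
      have hi : IntervalIntegrable (fun s : ℝ => ‖ev G (fun i => θ i + s)‖ ^ (2 * k))
          volume 0 1 :=
        hc.intervalIntegrable _ _
      rw [intervalIntegrable_iff] at hi ⊢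
      refine Integrable.mul_bdd (c := 1) hi ?_ ?_
      · have h3 : Measurable (fun s : ℝ => s - (-θ i - l)) := by fun_prop
        exact (Measurable.ite (measurableSet_lt (measurable_fract.comp h3) measurable_const)
          measurable_const measurable_const).aestronglyMeasurable
      · refine Filter.Eventually.of_forall (fun θ => ?_)
        split_ifs <;> simp
  rw [hsplit F, hsplit F', Finset.mul_sum]
  refine Finset.sum_le_sum (fun i _ => ?_)
  have hw := wirt (fun s => e1 (-(c * s)) * ev F (fun i => θ i + s))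
    (fun s => 2 * Real.pi * Complex.I * (e1 (-(c * s)) * ev F' (fun i => θ i + s)))
    (fun s => path_deriv F.totalDegree F le_rfl c θ s) ?_ (-θ i) l hl0 ?_ (2 * k - 1)
  · have hk2 : 2 * k - 1 + 1 = 2 * k := by omega
    have hk3 : ((2 * k - 1 : ℕ) : ℝ) + 1 = 2 * k := by
      have : ((2 * k - 1 + 1 : ℕ) : ℝ) = ((2 * k : ℕ) : ℝ) := by rw [hk2]
      push_cast at this
      exact this
    rw [hk2, hk3] at hw
    have hn1 : ∀ s, ‖e1 (-(c * s)) * ev F (fun i => θ i + s)‖ = ‖ev F (fun i => θ i + s)‖ := by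
      intro s
      rw [norm_mul, e1n, one_mul]
    have hn2 : ∀ s, ‖2 * Real.pi * Complex.I * (e1 (-(c * s)) * ev F' (fun i => θ i + s))‖ =
        2 * Real.pi * ‖ev F' (fun i => θ i + s)‖ := by
      intro s
      rw [norm_mul, norm_mul, norm_mul, norm_mul, e1n, one_mul, Complex.norm_I, mul_one,
        Complex.norm_real, Complex.norm_ofNat, Real.norm_eq_abs, abs_of_pos Real.pi_pos]
    simp_rw [hn1, hn2, mul_pow (2 * Real.pi)] at hw
    rw [intervalIntegral.integral_const_mul] at hw
    calc _ ≤ _ := hw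
      _ = _ := by ring
  · exact continuous_const.mul ((e1c.comp (by fun_prop)).mul (hcont F'))
  · rw [hz (fun j => θ j + -θ i) ⟨i, by ring⟩, mul_zero]

end Pool.Agent.Work.MP_7b186b_nt.CU
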