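import Mathlib
import Pool.Agent.Work.MP_7b186b_nt.CU.Defs

set_option autoImplicit false

namespace Pool.Agent.Work.MP_7b186b_nt.CU

open Finset MeasureTheory

/-
PROOF. Both are finite sums: |H(z)|^2 = sum_{a,b} c_a conj c_b prod_i e^(2 pi i (a_i - b_i) theta_i); the integral over the cube
is a product of one variable integrals (MeasureTheory.integral_fintype_prod or volume_pi, Set.pi_univ_Icc), each
int_0^1 e^(2 pi i m t) dt = [m = 0]; in pars_arc the i-th factor is int_0^1 e^(2 pi i (a_i - b_i) t) [fract(t - a) < L] dt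
= int_a^(a+L) e^(2 pi i (a_i-b_i) t) dt (periodicity) = ih a L (b_i - a_i). Group by b_i - a_i = m: m = 0 gives L nrm H,
m = j >= 1 gives b = g + j e_i, a = g, and m = -j the complex conjugate (ih a L (-j) = conj (ih a L j)).
-/

private theorem cubeM (N : ℕ) : (volume : Measure (Fin N → ℝ)).restrict (Set.Icc 0 1) =
    Measure.pi (fun _ : Fin N => (volume : Measure ℝ).restrict (Set.Icc 0 1)) := by
  have h : Set.Icc (0 : Fin N → ℝ) 1 = Set.univ.pi (fun _ : Fin N => Set.Icc (0 : ℝ) 1) := by
    rw [← Set.pi_univ_Icc]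
    rfl
  rw [h, volume_pi, Measure.restrict_pi_pi]

private noncomputable def ex (m : ℤ) (t : ℝ) : ℂ := Complex.exp (-(2 * Real.pi * m * t * Complex.I))

private theorem ex_cont (m : ℤ) : Continuous (ex m) := by
  unfold ex
  fun_prop

private theorem ex_pow {N : ℕ} (θ : Fin N → ℝ) (i : Fin N) (m n : ℕ) :
    zt θ i ^ m * (starRingEnd ℂ) (zt θ i ^ n) = ex ((n : ℤ) - m) (θ i) := by
  unfold zt ex
  rw [map_pow, ← Complex.exp_conj, ← Complex.exp_nat_mul, ← Complex.exp_nat_mul, ← Complex.exp_add]
  congr 1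
  simp only [map_mul, Complex.conj_I, Complex.conj_ofReal, map_ofNat]
  push_cast
  ring

private theorem ex_conj (m : ℤ) (t : ℝ) : (starRingEnd ℂ) (ex m t) = ex (-m) t := by
  unfold ex
  rw [← Complex.exp_conj]
  congr 1
  simp only [map_neg, map_mul, Complex.conj_I, Complex.conj_ofReal, map_ofNat, map_intCast]
  push_cast
  ring

private theorem ex_per (m : ℤ) (t : ℝ) : ex m (t + 1) = ex m t := by
  unfold ex
  have : -(2 * Real.pi * m * ((t + 1 : ℝ) : ℂ) * Complex.I) =
      -(2 * Real.pi * m * t * Complex.I) + ((-m : ℤ) : ℂ) * (2 * Real.pi * Complex.I) := by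
    push_cast
    ring
  rw [this, Complex.exp_add, Complex.exp_int_mul_two_pi_mul_I, mul_one]

private theorem ex_int (m : ℤ) : ∫ t in Set.Icc (0 : ℝ) 1, ex m t = if m = 0 then 1 else 0 := by
  rw [integral_Icc_eq_integral_Ioc, ← intervalIntegral.integral_of_le zero_le_one]
  unfold ex
  split_ifs with h
  · subst h
    simp
  · have hc : (-(2 * Real.pi * m * Complex.I) : ℂ) ≠ 0 := by
      have h1 : (m : ℂ) ≠ 0 := Int.cast_ne_zero.2 h
      have h2 : (Real.pi : ℂ) ≠ 0 := Complex.ofReal_ne_zero.2 Real.pi_ne_zero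
      have h3 := Complex.I_ne_zero
      exact neg_ne_zero.2 (mul_ne_zero (mul_ne_zero (mul_ne_zero two_ne_zero h2) h1) h3)
    have h1 : ∀ t : ℝ, Complex.exp (-(2 * Real.pi * m * t * Complex.I)) =
        Complex.exp ((-(2 * Real.pi * m * Complex.I)) * t) := by
      intro t
      congr 1
      ring
    simp_rw [h1]
    rw [integral_exp_mul_complex hc]
    have h4 : (-(2 * Real.pi * m * Complex.I)) * ((1 : ℝ) : ℂ) = ((-m : ℤ) : ℂ) * (2 * Real.pi * Complex.I) := by
      push_cast
      ring
    rw [h4, Complex.exp_int_mul_two_pi_mul_I]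
    simp

private theorem gen {N : ℕ} (H : MvPolynomial (Fin N) ℂ) (w : Fin N → ℝ → ℂ)
    (hw : ∀ (b : Fin N) (m : ℤ), Integrable (fun t => ex m t * w b t)
      (volume.restrict (Set.Icc (0 : ℝ) 1))) :
    ∫ θ in Set.Icc (0 : Fin N → ℝ) 1, ((‖ev H θ‖ ^ 2 : ℝ) : ℂ) * ∏ b, w b (θ b) =
      ∑ α ∈ H.support, ∑ β ∈ H.support, (H.coeff α * (starRingEnd ℂ) (H.coeff β)) *
        ∏ b, ∫ t in Set.Icc (0 : ℝ) 1, ex ((β b : ℤ) - α b) t * w b t := by
  rw [cubeM]
  have h1 : ∀ θ : Fin N → ℝ, ((‖ev H θ‖ ^ 2 : ℝ) : ℂ) * ∏ b, w b (θ b) =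
      ∑ α ∈ H.support, ∑ β ∈ H.support, (H.coeff α * (starRingEnd ℂ) (H.coeff β)) *
        ∏ b, (ex ((β b : ℤ) - α b) (θ b) * w b (θ b)) := by
    intro θ
    rw [Complex.ofReal_pow, ← Complex.mul_conj', ev, MvPolynomial.eval_eq', map_sum,
      Finset.sum_mul_sum, Finset.sum_mul]
    refine Finset.sum_congr rfl fun σ _ => ?_
    rw [Finset.sum_mul]
    refine Finset.sum_congr rfl fun τ _ => ?_
    simp_rw [← ex_pow]
    rw [Finset.prod_mul_distrib, Finset.prod_mul_distrib, map_mul, map_prod]
    ring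
  simp_rw [h1]
  have hi : ∀ α β : Fin N →₀ ℕ, Integrable (fun θ : Fin N → ℝ =>
      (H.coeff α * (starRingEnd ℂ) (H.coeff β)) *
        ∏ b, (ex ((β b : ℤ) - α b) (θ b) * w b (θ b)))
      (Measure.pi (fun _ : Fin N => (volume : Measure ℝ).restrict (Set.Icc 0 1))) := by
    intro α β
    refine Integrable.const_mul ?_ _
    exact Integrable.fintype_prod (f := fun b t => ex ((β b : ℤ) - α b) t * w b t)
      fun b => hw b _
  rw [integral_finsetSum _ fun σ _ => integrable_finsetSum _ fun τ _ => hi σ τ]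
  refine Finset.sum_congr rfl fun σ _ => ?_
  rw [integral_finsetSum _ fun τ _ => hi σ τ]
  refine Finset.sum_congr rfl fun τ _ => ?_
  rw [integral_const_mul, integral_fintype_prod_eq_prod
    (f := fun b t => ex ((τ b : ℤ) - σ b) t * w b t)]

/-- Parseval -/
theorem pars {N : ℕ} (H : MvPolynomial (Fin N) ℂ) :
    ∫ θ in Set.Icc (0 : Fin N → ℝ) 1, ‖ev H θ‖ ^ 2 = nrm H := by
  classical
  have key := gen H (fun _ _ => 1) (by
    intro b m
    simp only [mul_one]
    exact (ex_cont m).continuousOn.integrableOn_Icc)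
  simp only [mul_one, Finset.prod_const_one, ex_int] at key
  apply Complex.ofReal_injective
  rw [← integral_complex_ofReal, key, nrm]
  push_cast
  refine Finset.sum_congr rfl fun α hα => ?_
  rw [Finset.sum_eq_single α]
  · simp only [sub_self, if_true, Finset.prod_const_one, mul_one]
    rw [Complex.mul_conj']
  · intro β _ hβ
    have : ∃ b, β b ≠ α b := by
      by_contra hcon
      push Not at hcon
      exact hβ (Finsupp.ext hcon)
    obtain ⟨b, hb⟩ := this
    rw [Finset.prod_eq_zero (Finset.mem_univ b), mul_zero]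
    rw [if_neg]
    intro h
    apply hb
    omega
  · intro h
    exact absurd hα h

private theorem arc_int (m : ℤ) (a L : ℝ) (hL0 : 0 ≤ L) (hL1 : L ≤ 1) :
    ∫ t in Set.Icc (0 : ℝ) 1, ex m t * (if Int.fract (t - a) < L then (1 : ℂ) else 0) = ih a L m := by
  rw [integral_Icc_eq_integral_Ioc, ← intervalIntegral.integral_of_le zero_le_one]
  have hper : Function.Periodic (fun t => ex m t * (if Int.fract (t - a) < L then (1 : ℂ) else 0)) 1 := by
    intro t
    simp only
    rw [ex_per, add_sub_right_comm, Int.fract_add_one]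
  have h1 := hper.intervalIntegral_add_eq 0 a
  rw [zero_add] at h1
  rw [h1, ih, intervalIntegral.integral_of_le (by linarith), intervalIntegral.integral_of_le (by linarith),
    ← integral_Ico_eq_integral_Ioc, ← integral_Ico_eq_integral_Ioc]
  have h2 : Set.Ico a (a + L) ⊆ Set.Ico a (a + 1) := Set.Ico_subset_Ico_right (by linarith)
  have h3 : ∫ t in Set.Ico a (a + 1), ex m t * (if Int.fract (t - a) < L then (1 : ℂ) else 0) =
      ∫ t in Set.Ico a (a + 1), (Set.Ico a (a + L)).indicator (ex m) t := by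
    refine setIntegral_congr_fun measurableSet_Ico fun t ht => ?_
    have h4 : Int.fract (t - a) = t - a := Int.fract_eq_self.2 ⟨by linarith [ht.1], by linarith [ht.2]⟩
    rw [h4]
    by_cases h5 : t - a < L
    · rw [if_pos h5, mul_one, Set.indicator_of_mem]
      exact ⟨ht.1, by linarith⟩
    · rw [if_neg h5, mul_zero, Set.indicator_of_notMem]
      intro h6
      exact h5 (by linarith [h6.2])
  rw [h3, setIntegral_indicator measurableSet_Ico, Set.inter_eq_right.2 h2]
  rfl

private theorem ih_conj (m : ℤ) (a L : ℝ) (hL0 : 0 ≤ L) : ih a L (-m) = (starRingEnd ℂ) (ih a L m) := by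
  rw [ih, ih, intervalIntegral.integral_of_le (by linarith), intervalIntegral.integral_of_le (by linarith),
    ← integral_conj]
  refine integral_congr_ae (Filter.Eventually.of_forall fun t => ?_)
  exact (ex_conj m t).symm

private theorem ih_zero (a L : ℝ) : ih a L 0 = L := by
  rw [ih]
  simp

/-- Parseval with the indicator of an arc in the variable `i` -/
theorem pars_arc {N : ℕ} (H : MvPolynomial (Fin N) ℂ) (i : Fin N) (a L : ℝ) (hL0 : 0 ≤ L)
    (hL1 : L ≤ 1) (J : ℕ) (hJ : H.totalDegree ≤ J) :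
    ∫ θ in Set.Icc (0 : Fin N → ℝ) 1,
      ‖ev H θ‖ ^ 2 * (if Int.fract (θ i - a) < L then (1 : ℝ) else 0) =
      L * nrm H + 2 * (∑ j ∈ Icc 1 J, ih a L j * ∑ γ ∈ H.support,
        H.coeff γ * (starRingEnd ℂ) (H.coeff (γ + Finsupp.single i j))).re := by
  classical
  obtain ⟨w, hwd⟩ : ∃ w : Fin N → ℝ → ℂ, w = fun b t => if b = i then
    (if Int.fract (t - a) < L then (1 : ℂ) else 0) else 1 := ⟨_, rfl⟩
  have hwi : ∀ t, w i t = if Int.fract (t - a) < L then (1 : ℂ) else 0 := by
    intro t
    rw [hwd]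
    simp
  have hwb : ∀ b t, b ≠ i → w b t = 1 := by
    intro b t hb
    rw [hwd]
    simp [hb]
  have hmeas : MeasurableSet {t : ℝ | Int.fract (t - a) < L} :=
    measurableSet_lt ((measurable_id.sub_const a).fract) measurable_const
  have hw : ∀ (b : Fin N) (m : ℤ), Integrable (fun t => ex m t * w b t)
      (volume.restrict (Set.Icc (0 : ℝ) 1)) := by
    intro b m
    have hc : Integrable (ex m) (volume.restrict (Set.Icc (0 : ℝ) 1)) :=
      (ex_cont m).continuousOn.integrableOn_Icc
    by_cases hb : b = i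
    · subst hb
      have : (fun t => ex m t * w b t) = {t : ℝ | Int.fract (t - a) < L}.indicator (ex m) := by
        funext t
        rw [hwi]
        by_cases ht : Int.fract (t - a) < L
        · rw [if_pos ht, mul_one, Set.indicator_of_mem]
          exact ht
        · rw [if_neg ht, mul_zero, Set.indicator_of_notMem]
          exact ht
      rw [this]
      exact hc.indicator hmeas
    · simp_rw [hwb b _ hb, mul_one]
      exact hc
  have key := gen H w hw
  have hI : ∀ (b : Fin N) (m : ℤ), ∫ t in Set.Icc (0 : ℝ) 1, ex m t * w b t =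
      if b = i then ih a L m else if m = 0 then 1 else 0 := by
    intro b m
    by_cases hb : b = i
    · subst hb
      rw [if_pos rfl]
      simp_rw [hwi]
      exact arc_int m a L hL0 hL1
    · rw [if_neg hb]
      simp_rw [hwb b _ hb, mul_one]
      exact ex_int m
  simp_rw [hI] at key
  -- the terms
  obtain ⟨T, hT⟩ : ∃ T : (Fin N →₀ ℕ) → (Fin N →₀ ℕ) → ℂ, ∀ α β, T α β =
      (H.coeff α * (starRingEnd ℂ) (H.coeff β)) *
        ∏ b, if b = i then ih a L ((β b : ℤ) - α b) else if (β b : ℤ) - α b = 0 then 1 else 0 :=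
    ⟨_, fun _ _ => rfl⟩
  have hTa : ∀ α β, (∀ b, b ≠ i → β b = α b) → T α β =
      H.coeff α * (starRingEnd ℂ) (H.coeff β) * ih a L ((β i : ℤ) - α i) := by
    intro α β h
    rw [hT, Finset.prod_eq_single i]
    · rw [if_pos rfl]
    · intro b _ hb
      rw [if_neg hb, if_pos]
      rw [h b hb, sub_self]
    · intro h
      exact absurd (Finset.mem_univ i) h
  have hTn : ∀ α β, ¬ (∀ b, b ≠ i → β b = α b) → T α β = 0 := by
    intro α β h
    push Not at h
    obtain ⟨b, hb, hne⟩ := h
    rw [hT, Finset.prod_eq_zero (Finset.mem_univ b), mul_zero]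
    rw [if_neg hb, if_neg]
    intro h
    apply hne
    omega
  have hconj : ∀ α β, T β α = (starRingEnd ℂ) (T α β) := by
    intro α β
    by_cases h : ∀ b, b ≠ i → β b = α b
    · rw [hTa α β h, hTa β α (fun b hb => (h b hb).symm), map_mul, map_mul, Complex.conj_conj,
        ← ih_conj _ _ _ hL0, neg_sub]
      ring
    · rw [hTn α β h, hTn β α (fun h' => h fun b hb => (h' b hb).symm), map_zero]
  have hup : ∀ α ∈ H.support, ∑ β ∈ H.support.filter (fun β => α i < β i), T α β =
      ∑ j ∈ Icc 1 J, H.coeff α * (starRingEnd ℂ) (H.coeff (α + Finsupp.single i j)) * ih a L j := by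
    intro α hα
    rw [← Finset.sum_filter_add_sum_filter_not (H.support.filter (fun β => α i < β i))
      (fun β => ∀ b, b ≠ i → β b = α b)]
    rw [Finset.sum_eq_zero (s := ((H.support.filter (fun β => α i < β i)).filter
      (fun β => ¬ ∀ b, b ≠ i → β b = α b))) (fun β hβ => hTn α β (Finset.mem_filter.1 hβ).2), add_zero]
    have hrec : ∀ β : Fin N →₀ ℕ, α i < β i → (∀ b, b ≠ i → β b = α b) →
        β = α + Finsupp.single i (β i - α i) := by
      intro β h1 h2
      ext b
      by_cases hb : b = i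
      · subst hb
        rw [Finsupp.add_apply, Finsupp.single_eq_same]
        omega
      · rw [Finsupp.add_apply, Finsupp.single_eq_of_ne hb, add_zero, h2 b hb]
    refine Finset.sum_of_injOn (fun β => β i - α i) ?_ ?_ ?_ ?_
    · intro β hβ β' hβ' h
      simp only [Finset.coe_filter, Finset.mem_filter, Set.mem_ofPred_eq] at hβ hβ' h
      rw [hrec β hβ.1.2 hβ.2, hrec β' hβ'.1.2 hβ'.2, h]
    · intro β hβ
      simp only [Finset.coe_filter, Finset.mem_filter, Set.mem_ofPred_eq] at hβ
      simp only [Finset.coe_Icc, Set.mem_Icc]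
      refine ⟨by omega, ?_⟩
      have h1 : β i ≤ H.totalDegree := by
        have h2 := MvPolynomial.le_totalDegree hβ.1.1
        refine le_trans ?_ h2
        rw [Finsupp.sum_fintype _ _ (fun _ => rfl)]
        exact Finset.single_le_sum (f := fun b => β b) (fun _ _ => Nat.zero_le _) (Finset.mem_univ i)
      omega
    · intro j hj hne
      have : H.coeff (α + Finsupp.single i j) = 0 := by
        by_contra hc
        apply hne
        refine ⟨α + Finsupp.single i j, ?_, ?_⟩
        · simp only [Finset.coe_filter, Finset.mem_filter, Set.mem_ofPred_eq]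
          refine ⟨⟨MvPolynomial.mem_support_iff.2 hc, ?_⟩, ?_⟩
          · rw [Finsupp.add_apply, Finsupp.single_eq_same]
            have := (Finset.mem_Icc.1 hj).1
            omega
          · intro b hb
            rw [Finsupp.add_apply, Finsupp.single_eq_of_ne hb, add_zero]
        · simp only
          rw [Finsupp.add_apply, Finsupp.single_eq_same]
          omega
      rw [this, map_zero, mul_zero, zero_mul]
    · intro β hβ
      simp only [Finset.mem_filter] at hβ
      rw [← hrec β hβ.1.2 hβ.2, hTa α β hβ.2, Nat.cast_sub hβ.1.2.le]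
  have hdiag : ∀ α ∈ H.support, ∑ β ∈ H.support.filter (fun β => ¬ α i < β i ∧ ¬ β i < α i), T α β =
      L * ((‖H.coeff α‖ ^ 2 : ℝ) : ℂ) := by
    intro α hα
    rw [Finset.sum_eq_single α]
    · rw [hTa α α fun _ _ => rfl, sub_self, ih_zero, Complex.mul_conj', Complex.ofReal_pow]
      ring
    · intro β hβ hne
      apply hTn
      intro h
      apply hne
      ext b
      by_cases hb : b = i
      · subst hb
        have := (Finset.mem_filter.1 hβ).2
        omega
      · exact h b hb
    · intro h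
      exfalso
      apply h
      simp only [Finset.mem_filter, lt_self_iff_false, not_false_eq_true, and_self, and_true]
      exact hα
  have hsplit : ∀ α ∈ H.support, ∑ β ∈ H.support, T α β =
      ∑ β ∈ H.support.filter (fun β => α i < β i), T α β +
      (∑ β ∈ H.support.filter (fun β => β i < α i), T α β +
      ∑ β ∈ H.support.filter (fun β => ¬ α i < β i ∧ ¬ β i < α i), T α β) := by
    intro α hα
    rw [← Finset.sum_filter_add_sum_filter_not H.support (fun β => α i < β i)]
    congr 1
    rw [← Finset.sum_filter_add_sum_filter_not (H.support.filter fun β => ¬ α i < β i)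
      (fun β => β i < α i), Finset.filter_filter, Finset.filter_filter]
    congr 1
    refine Finset.sum_congr ?_ fun _ _ => rfl
    ext β
    simp only [Finset.mem_filter]
    constructor
    · rintro ⟨h1, h2, h3⟩
      exact ⟨h1, h3⟩
    · rintro ⟨h1, h3⟩
      exact ⟨h1, by omega, h3⟩
  obtain ⟨S, hS⟩ : ∃ S : ℂ, S = ∑ j ∈ Icc 1 J, ih a L j * ∑ γ ∈ H.support,
        H.coeff γ * (starRingEnd ℂ) (H.coeff (γ + Finsupp.single i j)) := ⟨_, rfl⟩
  have hS1 : ∑ α ∈ H.support, ∑ β ∈ H.support.filter (fun β => α i < β i), T α β = S := by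
    rw [Finset.sum_congr rfl hup, Finset.sum_comm, hS]
    refine Finset.sum_congr rfl fun j _ => ?_
    rw [Finset.mul_sum]
    refine Finset.sum_congr rfl fun γ _ => ?_
    ring
  have hS2 : ∑ α ∈ H.support, ∑ β ∈ H.support.filter (fun β => β i < α i), T α β =
      (starRingEnd ℂ) S := by
    rw [← hS1, map_sum]
    simp_rw [map_sum, Finset.sum_filter]
    rw [Finset.sum_comm]
    refine Finset.sum_congr rfl fun α _ => Finset.sum_congr rfl fun β _ => ?_
    rw [hconj α β]
  have hS3 : ∑ α ∈ H.support, ∑ β ∈ H.support.filter (fun β => ¬ α i < β i ∧ ¬ β i < α i), T α β =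
      L * ((nrm H : ℝ) : ℂ) := by
    rw [Finset.sum_congr rfl hdiag, nrm, Complex.ofReal_sum, Finset.mul_sum]
  have htot : ∑ α ∈ H.support, ∑ β ∈ H.support, T α β = S + ((starRingEnd ℂ) S + L * ((nrm H : ℝ) : ℂ)) := by
    rw [Finset.sum_congr rfl hsplit, Finset.sum_add_distrib, Finset.sum_add_distrib, hS1, hS2, hS3]
  simp_rw [← hT] at key
  rw [htot] at key
  rw [← hS]
  apply Complex.ofReal_injective
  rw [← integral_complex_ofReal]
  have h9 : S + ((starRingEnd ℂ) S + L * ((nrm H : ℝ) : ℂ)) = ((L * nrm H + 2 * S.re : ℝ) : ℂ) := by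
    rw [← add_assoc, Complex.add_conj]
    push_cast
    ring
  rw [← h9, ← key]
  refine integral_congr_ae (Filter.Eventually.of_forall fun θ => ?_)
  simp only
  rw [Complex.ofReal_mul]
  congr 1
  rw [Finset.prod_eq_single i]
  · rw [hwi]
    split_ifs
    · rw [Complex.ofReal_one]
    · rw [Complex.ofReal_zero]
  · intro b _ hb
    exact hwb b _ hb
  · intro h
    exact absurd (Finset.mem_univ i) h

end Pool.Agent.Work.MP_7b186b_nt.CU
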