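import Mathlib
import Pool.Agent.Work.MP_7b186b_nt.CU.Defs

set_option autoImplicit false

namespace Pool.Agent.Work.MP_7b186b_nt.CU

open Finset

/-
PROOF. vp N is the determinant of the Vandermonde matrix of the variables (Matrix.det_vandermonde); renaming by a swap
exchanges two rows, so the determinant changes sign (Matrix.det_permute); rename is an algebra homomorphism. The degree of vp
is at most the number of factors, N(N-1)/2 (MvPolynomial.totalDegree_finset_prod_le). eval is multiplicative.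
-/

private theorem vp_det (N : ℕ) : vp N =
    (Matrix.vandermonde (fun i : Fin N => (MvPolynomial.X i : MvPolynomial (Fin N) ℂ))).det := by
  rw [Matrix.det_vandermonde]
  rfl

private theorem vp_swap {N : ℕ} (i j : Fin N) (hij : i ≠ j) :
    MvPolynomial.rename (Equiv.swap i j) (vp N) = -vp N := by
  rw [vp_det]
  have h1 : MvPolynomial.rename (Equiv.swap i j)
      (Matrix.vandermonde (fun i : Fin N => (MvPolynomial.X i : MvPolynomial (Fin N) ℂ))).det =
      ((Matrix.vandermonde (fun i : Fin N => (MvPolynomial.X i : MvPolynomial (Fin N) ℂ))).submatrix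
        (Equiv.swap i j) id).det := by
    rw [AlgHom.map_det]
    congr 1
    ext x y
    simp [Matrix.vandermonde_apply, AlgHom.mapMatrix_apply]
  rw [h1, Matrix.det_permute, Equiv.Perm.sign_swap hij]
  simp

theorem anti_mul {N : ℕ} (G : MvPolynomial (Fin N) ℂ) (hG : G.IsSymmetric) : Anti (G * vp N) := by
  intro i j hij
  rw [map_mul, hG (Equiv.swap i j), vp_swap i j hij, mul_neg]

theorem deg_mul {N : ℕ} (G : MvPolynomial (Fin N) ℂ) :
    ((G * vp N).totalDegree : ℝ) ≤ (G.totalDegree : ℝ) + (N : ℝ) * (N - 1) / 2 := by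
  have h1 : (G * vp N).totalDegree ≤ G.totalDegree + (vp N).totalDegree :=
    MvPolynomial.totalDegree_mul _ _
  have h2 : (vp N).totalDegree ≤ ∑ i : Fin N, (Ioi i).card := by
    unfold vp
    refine (MvPolynomial.totalDegree_finsetProd _ _).trans (Finset.sum_le_sum (fun i _ => ?_))
    refine (MvPolynomial.totalDegree_finsetProd _ _).trans ?_
    rw [Finset.card_eq_sum_ones]
    refine Finset.sum_le_sum (fun j _ => ?_)
    refine (MvPolynomial.totalDegree_sub _ _).trans ?_
    rw [MvPolynomial.totalDegree_X, MvPolynomial.totalDegree_X, max_self]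
  have h3 : ((∑ i : Fin N, (Ioi i).card : ℕ) : ℝ) = (N : ℝ) * (N - 1) / 2 := by
    have h4 : ∀ i : Fin N, (Ioi i).card = N - 1 - i := fun i => Fin.card_Ioi i
    simp_rw [h4]
    rw [Fin.sum_univ_eq_sum_range (fun x => N - 1 - x) N, Finset.sum_range_reflect (fun x => x) N]
    have h5 := Finset.sum_range_id_mul_two N
    have h6 : ((∑ i ∈ range N, i : ℕ) : ℝ) * 2 = (N : ℝ) * ((N - 1 : ℕ) : ℝ) := by
      exact_mod_cast h5
    rcases Nat.eq_zero_or_pos N with h0 | h0
    · subst h0
      simp
    · rw [Nat.cast_sub h0] at h6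
      push_cast at h6 ⊢
      linarith
  have h7 : ((G * vp N).totalDegree : ℝ) ≤ G.totalDegree + ((vp N).totalDegree : ℝ) := by
    exact_mod_cast h1
  have h8 : ((vp N).totalDegree : ℝ) ≤ ((∑ i : Fin N, (Ioi i).card : ℕ) : ℝ) := by
    exact_mod_cast h2
  linarith

theorem ev_mul {N : ℕ} (G : MvPolynomial (Fin N) ℂ) (θ : Fin N → ℝ) :
    ‖ev (G * vp N) θ‖ ^ 2 = ‖ev G θ‖ ^ 2 * ‖vd θ‖ ^ 2 := by
  unfold ev
  rw [map_mul, norm_mul, mul_pow]
  congr 3
  unfold vp vd
  simp [map_prod]

end Pool.Agent.Work.MP_7b186b_nt.CU
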