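import Mathlib
import Pool.Agent.Work.MP_7b186b_nt.CU.Defs2
import Pool.Agent.Work.MP_7b186b_nt.CU.Int
import Pool.Agent.Work.MP_7b186b_nt.CU.VanD
import Pool.Agent.Work.MP_7b186b_nt.CU.Pars
import Pool.Agent.Work.MP_7b186b_nt.CU.TwA

set_option autoImplicit false

namespace Pool.Agent.Work.MP_7b186b_nt.CU

open Finset MeasureTheory

/-
PROOF. Both sides can be computed by ev_mul and pars_arc (sum over i). Let H = G vp with coefficients c_γ, and H' the polynomial with
coefficients e1(|γ| s) c_γ; |ev H' θ| = |ev H (θ + s)|, and |vd| is invariant under rotation, so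
|ev G (θ+s)|^2 |vd θ|^2 = |ev H' θ|^2. pars_arc for H': the j-th term is ih a L j * e1(-j s) * c_γ conj(c_(γ + j e_i)), and
ih a L j * e1(-j s) = ih (a+s) L j (substitution); nrm H' = nrm H. (Alternatively: the Lebesgue integral over the cube of a function which
is 1-periodic in each variable is invariant under translation, and cnt a L (θ - s) = cnt (a + s) L θ.)
-/

private theorem e1_nat (n : ℕ) (s : ℝ) : e1 (n * s) = e1 s ^ n := by
  unfold e1
  rw [← Complex.exp_nat_mul]
  congr 1
  push_cast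
  ring

private theorem e1_ne (s : ℝ) : e1 s ≠ 0 := by
  unfold e1
  exact Complex.exp_ne_zero _

private theorem e1_norm (t : ℝ) : ‖e1 t‖ = 1 := by
  unfold e1
  have h1 : 2 * (Real.pi : ℂ) * t * Complex.I = ((2 * Real.pi * t : ℝ) : ℂ) * Complex.I := by
    push_cast
    ring
  rw [h1, Complex.norm_exp_ofReal_mul_I]

/-- the rotated polynomial -/
private noncomputable def rt {N : ℕ} (s : ℝ) (H : MvPolynomial (Fin N) ℂ) :
    MvPolynomial (Fin N) ℂ :=
  ∑ α ∈ H.support, MvPolynomial.monomial α (e1 s ^ (∑ i, α i) * H.coeff α)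

private theorem rt_coeff {N : ℕ} (s : ℝ) (H : MvPolynomial (Fin N) ℂ) (β : Fin N →₀ ℕ) :
    (rt s H).coeff β = e1 s ^ (∑ i, β i) * H.coeff β := by
  classical
  unfold rt
  rw [MvPolynomial.coeff_sum]
  simp_rw [MvPolynomial.coeff_monomial]
  rw [Finset.sum_ite_eq' H.support β (fun α => e1 s ^ (∑ i, α i) * H.coeff α)]
  split_ifs with h
  · rfl
  · rw [MvPolynomial.notMem_support_iff.mp h, mul_zero]

private theorem rt_support {N : ℕ} (s : ℝ) (H : MvPolynomial (Fin N) ℂ) :
    (rt s H).support = H.support := by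
  ext β
  rw [MvPolynomial.mem_support_iff, MvPolynomial.mem_support_iff, rt_coeff]
  constructor
  · intro h
    exact right_ne_zero_of_mul h
  · intro h
    exact mul_ne_zero (pow_ne_zero _ (e1_ne s)) h

private theorem rt_ev {N : ℕ} (s : ℝ) (H : MvPolynomial (Fin N) ℂ) (θ : Fin N → ℝ) :
    ev (rt s H) θ = ev H (fun i => θ i + s) := by
  unfold ev
  rw [MvPolynomial.eval_eq', MvPolynomial.eval_eq', rt_support]
  refine Finset.sum_congr rfl (fun α _ => ?_)
  have h1 : ∀ i : Fin N, zt (fun i => θ i + s) i = e1 s * zt θ i := by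
    intro i
    unfold zt e1
    rw [← Complex.exp_add]
    congr 1
    push_cast
    ring
  simp_rw [h1, mul_pow]
  rw [Finset.prod_mul_distrib, Finset.prod_pow_eq_pow_sum, rt_coeff]
  ring

private theorem vd_rot {N : ℕ} (s : ℝ) (θ : Fin N → ℝ) : ‖vd (fun i => θ i + s)‖ = ‖vd θ‖ := by
  have h1 : ∀ i : Fin N, zt (fun i => θ i + s) i = e1 s * zt θ i := by
    intro i
    unfold zt e1
    rw [← Complex.exp_add]
    congr 1
    push_cast
    ring
  unfold vd
  rw [norm_prod, norm_prod]
  refine Finset.prod_congr rfl (fun i _ => ?_)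
  rw [norm_prod, norm_prod]
  refine Finset.prod_congr rfl (fun j _ => ?_)
  rw [h1, h1, ← mul_sub, norm_mul, e1_norm, one_mul]

private theorem ih_rot (a L s : ℝ) (j : ℕ) : ih (a + s) L j * e1 (j * s) = ih a L j := by
  unfold ih
  have h1 : ∫ θ in (a + s)..(a + s + L), Complex.exp (-(2 * Real.pi * ((j : ℤ) : ℂ) * θ * Complex.I)) =
      ∫ θ in a..(a + L), Complex.exp (-(2 * Real.pi * ((j : ℤ) : ℂ) * ((θ + s : ℝ) : ℂ) *
        Complex.I)) := by
    rw [intervalIntegral.integral_comp_add_right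
      (fun θ : ℝ => Complex.exp (-(2 * Real.pi * ((j : ℤ) : ℂ) * (θ : ℂ) * Complex.I))) s]
    congr 1
    ring
  rw [h1, ← intervalIntegral.integral_mul_const]
  refine intervalIntegral.integral_congr (fun θ _ => ?_)
  unfold e1
  rw [← Complex.exp_add]
  congr 1
  push_cast
  ring

/-- the count as a sum over the variables -/
private theorem cue_cnt_eq {N : ℕ} (f : (Fin N → ℝ) → ℝ) (H : MvPolynomial (Fin N) ℂ)
    (hf : ∀ θ, f θ * ‖vd θ‖ ^ 2 = ‖ev H θ‖ ^ 2) (a L : ℝ) :
    cue N (fun θ => f θ * cnt a L θ) =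
      ∑ i, ∫ θ in Set.Icc (0 : Fin N → ℝ) 1, ‖ev H θ‖ ^ 2 *
        (if Int.fract (θ i - a) < L then (1 : ℝ) else 0) := by
  rw [← integral_finsetSum]
  · unfold cue
    refine integral_congr_ae (Filter.Eventually.of_forall (fun θ => ?_))
    simp only
    rw [← Finset.mul_sum, ← hf θ]
    unfold cnt
    ring
  · intro i _
    have hc : Continuous (fun θ : Fin N → ℝ => ‖ev H θ‖ ^ 2) := (ev_cont _).norm.pow 2
    refine Integrable.mul_bdd (c := 1) (int_cont _ hc) ?_ ?_
    · have h3 : Measurable (fun θ : Fin N → ℝ => θ i - a) := by fun_prop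
      exact (Measurable.ite (measurableSet_lt (measurable_fract.comp h3) measurable_const)
        measurable_const measurable_const).aestronglyMeasurable
    · refine Filter.Eventually.of_forall (fun θ => ?_)
      split_ifs <;> simp

/-- rotation invariance -/
theorem tr_inv {N : ℕ} (G : MvPolynomial (Fin N) ℂ) (a L s : ℝ) (hL0 : 0 ≤ L) (hL1 : L ≤ 1) :
    cue N (fun θ => ‖ev G (fun i => θ i + s)‖ ^ 2 * cnt a L θ) =
      cue N (fun θ => ‖ev G θ‖ ^ 2 * cnt (a + s) L θ) := by
  set H := G * vp N with hH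
  rw [cue_cnt_eq (fun θ => ‖ev G (fun i => θ i + s)‖ ^ 2) (rt s H) (fun θ => ?_) a L,
    cue_cnt_eq (fun θ => ‖ev G θ‖ ^ 2) H (fun θ => (ev_mul G θ).symm) (a + s) L]
  swap
  · rw [rt_ev, hH, ev_mul, vd_rot]
  refine Finset.sum_congr rfl (fun i _ => ?_)
  set J := H.totalDegree with hJ
  have hJ' : (rt s H).totalDegree ≤ J := by
    unfold MvPolynomial.totalDegree
    rw [rt_support]
    rfl
  rw [pars_arc H i (a + s) L hL0 hL1 J le_rfl, pars_arc (rt s H) i a L hL0 hL1 J hJ']
  have hn : nrm (rt s H) = nrm H := by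
    unfold nrm
    rw [rt_support]
    refine Finset.sum_congr rfl (fun α _ => ?_)
    rw [rt_coeff, norm_mul, norm_pow, e1_norm, one_pow, one_mul]
  rw [hn, rt_support]
  congr 3
  refine Finset.sum_congr rfl (fun j _ => ?_)
  rw [← ih_rot a L s j, mul_assoc]
  congr 1
  rw [Finset.mul_sum]
  refine Finset.sum_congr rfl (fun γ _ => ?_)
  rw [rt_coeff, rt_coeff, map_mul, map_pow]
  have h1 : ∑ i', (γ + Finsupp.single i j) i' = ∑ i', γ i' + j := by
    simp only [Finsupp.add_apply, Finset.sum_add_distrib]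
    congr 1
    rw [Finset.sum_eq_single i]
    · simp
    · intro b _ hb
      exact Finsupp.single_eq_of_ne hb
    · intro h
      exact absurd (Finset.mem_univ i) h
  have h2 : e1 s * (starRingEnd ℂ) (e1 s) = 1 := by
    rw [Complex.mul_conj, Complex.normSq_eq_norm_sq, e1_norm]
    simp
  rw [h1, e1_nat]
  have h3 : e1 s ^ j * (e1 s ^ (∑ i', γ i') * (starRingEnd ℂ) (e1 s) ^ (∑ i', γ i' + j)) = 1 := by
    rw [← mul_assoc, ← pow_add, add_comm j, ← mul_pow, h2, one_pow]
  linear_combination (H.coeff γ * (starRingEnd ℂ) (H.coeff (γ + Finsupp.single i j))) * h3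

end Pool.Agent.Work.MP_7b186b_nt.CU
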