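import Mathlib
import Pool.Agent.Work.MP_7b186b_nt.CU.Defs2
import Pool.Agent.Work.MP_7b186b_nt.CU.VanD
import Pool.Agent.Work.MP_7b186b_nt.CU.Pars

set_option autoImplicit false

namespace Pool.Agent.Work.MP_7b186b_nt.CU

open Finset MeasureTheory

/-
PROOF. For every F: cue(|ev F|^2) = nrm (F vp) (ev_mul and pars). vp is homogeneous of degree D = N(N-1)/2 (product of N(N-1)/2
homogeneous linear factors; IsHomogeneous.prod), so H_d = homogeneousComponent d G * vp is homogeneous of degree d + D and the H_d have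
pairwise disjoint supports; (tw K φ G) vp = sum φ(d) H_d, and nrm of a combination of polynomials with disjoint supports is
sum φ(d)^2 nrm H_d. (nrm H is the sum of |coeff|^2 over any finite set containing the support.)
-/

private theorem cue_nrm {N : ℕ} (F : MvPolynomial (Fin N) ℂ) :
    cue N (fun θ => ‖ev F θ‖ ^ 2) = nrm (F * vp N) := by
  rw [← pars]
  unfold cue
  refine integral_congr_ae (Filter.Eventually.of_forall (fun θ => ?_))
  simp only
  rw [ev_mul]

private theorem vp_hom (N : ℕ) : ∃ D : ℕ, (vp N).IsHomogeneous D := by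
  refine ⟨∑ i : Fin N, ∑ j ∈ Ioi i, 1, ?_⟩
  unfold vp
  refine MvPolynomial.IsHomogeneous.prod _ _ _ (fun i _ => ?_)
  refine MvPolynomial.IsHomogeneous.prod _ _ _ (fun j _ => ?_)
  exact (MvPolynomial.isHomogeneous_X ℂ j).sub (MvPolynomial.isHomogeneous_X ℂ i)

private theorem nrm_superset {N : ℕ} (H : MvPolynomial (Fin N) ℂ) (T : Finset (Fin N →₀ ℕ))
    (hT : H.support ⊆ T) : nrm H = ∑ α ∈ T, ‖H.coeff α‖ ^ 2 := by
  unfold nrm
  refine Finset.sum_subset hT (fun α _ hα => ?_)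
  rw [MvPolynomial.notMem_support_iff.mp hα]
  simp

private theorem sq_sum_single (s : Finset ℕ) (x : ℕ → ℂ)
    (hx : ∀ d ∈ s, ∀ d' ∈ s, d ≠ d' → x d ≠ 0 → x d' = 0) :
    ‖∑ d ∈ s, x d‖ ^ 2 = ∑ d ∈ s, ‖x d‖ ^ 2 := by
  by_cases h : ∃ d ∈ s, x d ≠ 0
  · obtain ⟨d, hd, hne⟩ := h
    rw [Finset.sum_eq_single d (fun d' hd' hne' => hx d hd d' hd' hne'.symm hne)
      (fun h => absurd hd h)]
    rw [Finset.sum_eq_single d (fun d' hd' hne' => by
      rw [hx d hd d' hd' hne'.symm hne]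
      simp) (fun h => absurd hd h)]
  · push Not at h
    rw [Finset.sum_eq_zero h]
    rw [Finset.sum_eq_zero (fun d hd => by
      rw [h d hd]
      simp)]
    simp

/-- components of different degrees are orthogonal -/
theorem tw_mass {N : ℕ} (K : ℕ) (φ : ℕ → ℝ) (G : MvPolynomial (Fin N) ℂ) :
    cue N (fun θ => ‖ev (tw K φ G) θ‖ ^ 2) = ∑ d ∈ range (K + 1), φ d ^ 2 *
      cue N (fun θ => ‖ev (MvPolynomial.homogeneousComponent d G) θ‖ ^ 2) := by
  classical
  simp_rw [cue_nrm]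
  obtain ⟨D, hD⟩ := vp_hom N
  set H : ℕ → MvPolynomial (Fin N) ℂ :=
    fun d => MvPolynomial.homogeneousComponent d G * vp N with hH
  have hHh : ∀ d, (H d).IsHomogeneous (d + D) := fun d =>
    (MvPolynomial.homogeneousComponent_isHomogeneous d G).mul hD
  have hexp : tw K φ G * vp N = ∑ d ∈ range (K + 1), MvPolynomial.C ((φ d : ℝ) : ℂ) * H d := by
    unfold tw
    rw [Finset.sum_mul]
    refine Finset.sum_congr rfl (fun d _ => ?_)
    rw [hH, mul_assoc]
  set T : Finset (Fin N →₀ ℕ) := (tw K φ G * vp N).support ∪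
    (range (K + 1)).biUnion (fun d => (H d).support) with hT
  have h1 : nrm (tw K φ G * vp N) = ∑ α ∈ T, ‖(tw K φ G * vp N).coeff α‖ ^ 2 :=
    nrm_superset _ _ Finset.subset_union_left
  have h2 : ∀ d ∈ range (K + 1), nrm (H d) = ∑ α ∈ T, ‖(H d).coeff α‖ ^ 2 := by
    intro d hd
    refine nrm_superset _ _ (fun α hα => ?_)
    rw [hT, Finset.mem_union, Finset.mem_biUnion]
    exact Or.inr ⟨d, hd, hα⟩
  have h3 : ∑ d ∈ range (K + 1), φ d ^ 2 * nrm (H d) =
      ∑ d ∈ range (K + 1), ∑ α ∈ T, ‖((φ d : ℝ) : ℂ) * (H d).coeff α‖ ^ 2 := by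
    refine Finset.sum_congr rfl (fun d hd => ?_)
    rw [h2 d hd, Finset.mul_sum]
    refine Finset.sum_congr rfl (fun α _ => ?_)
    rw [norm_mul, mul_pow, Complex.norm_real, Real.norm_eq_abs, sq_abs]
  rw [h1, h3, Finset.sum_comm]
  refine Finset.sum_congr rfl (fun α _ => ?_)
  rw [hexp, MvPolynomial.coeff_sum]
  simp_rw [MvPolynomial.coeff_C_mul]
  refine sq_sum_single _ _ (fun d _ d' _ hne hd => ?_)
  have h4 : (H d).coeff α ≠ 0 := right_ne_zero_of_mul hd
  have h5 := hHh d h4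
  by_contra h6
  have h7 := hHh d' (right_ne_zero_of_mul h6)
  apply hne
  rw [h5] at h7
  omega

end Pool.Agent.Work.MP_7b186b_nt.CU
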