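import Mathlib
import Pool.Agent.Work.MP_7b186b_nt.CU.Defs

set_option autoImplicit false

namespace Pool.Agent.Work.MP_7b186b_nt.CU

open Finset

/-
PROOF. Write c_a for the coefficients. Expanding the square, the left side is
sum_{i,i'} sum_{j>=1} sum_g c_{g + j e_i} conj c_{g + j e_i'} (real part).
Diagonal i = i': for fixed a the pairs (g, j) with g + j e_i = a, j >= 1 are j = 1..a_i, so this part is sum_a |a| |c_a|^2
(j <= J loses nothing when J >= totalDegree; S contains all g with some nonzero term).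
Unordered pair {i,i'}, i <> i': the terms (i,i') and (i',i) together run over all ordered pairs (a,b), a <> b, which agree off
{i,i'} and have a_i + a_i' = b_i + b_i' (g = componentwise minimum, j = |a_i - b_i|), of c_a conj c_b. In a class of exponents
agreeing off {i,i'} with fixed sum a_i + a_i' the sum of the c_a is 0 (swap i i' maps the class to itself and c to -c), so the
pairs a <> b give -sum |c_a|^2. There are N(N-1)/2 unordered pairs. Total: sum_a (|a| - N(N-1)/2) |c_a|^2.
-/

private theorem swap_coeff {N : ℕ} (H : MvPolynomial (Fin N) ℂ) (hH : Anti H) (i i' : Fin N)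
    (hi : i ≠ i') (α : Fin N →₀ ℕ) :
    H.coeff (α.mapDomain (Equiv.swap i i')) = -H.coeff α := by
  have h1 := hH i i' hi
  have h2 := MvPolynomial.coeff_rename_mapDomain (R := ℂ) (Equiv.swap i i')
    (Equiv.swap i i').injective H α
  rw [h1] at h2
  rw [MvPolynomial.coeff_neg] at h2
  rw [← h2, neg_neg]

private theorem class_sum {N : ℕ} (H : MvPolynomial (Fin N) ℂ) (hH : Anti H) (i i' : Fin N)
    (hi : i ≠ i') (g : Fin N →₀ ℕ) (hg : g i = 0) (hg' : g i' = 0) (s : ℕ) :
    ∑ m ∈ range (s + 1), H.coeff (g + Finsupp.single i m + Finsupp.single i' (s - m)) = 0 := by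
  have key : ∀ m ∈ range (s + 1),
      H.coeff (g + Finsupp.single i (s - m) + Finsupp.single i' (s - (s - m))) =
      -H.coeff (g + Finsupp.single i m + Finsupp.single i' (s - m)) := by
    intro m hm
    have hm' : m ≤ s := Nat.lt_succ_iff.mp (mem_range.mp hm)
    rw [← swap_coeff H hH i i' hi]
    congr 1
    rw [Finsupp.mapDomain_add, Finsupp.mapDomain_add, Finsupp.mapDomain_single,
      Finsupp.mapDomain_single, Equiv.swap_apply_left, Equiv.swap_apply_right]
    have hgm : g.mapDomain (Equiv.swap i i') = g := by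
      ext x
      have h := Finsupp.mapDomain_apply (Equiv.swap i i').injective g (Equiv.swap i i' x)
      rw [Equiv.swap_apply_self] at h
      rw [h]
      by_cases hx : x = i
      · rw [hx, Equiv.swap_apply_left, hg, hg']
      · by_cases hx' : x = i'
        · rw [hx', Equiv.swap_apply_right, hg, hg']
        · rw [Equiv.swap_apply_of_ne_of_ne hx hx']
    rw [hgm, Nat.sub_sub_self hm']
    abel
  have h1 := Finset.sum_range_reflect
    (fun m => H.coeff (g + Finsupp.single i m + Finsupp.single i' (s - m))) (s + 1)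
  have h2 : ∑ m ∈ range (s + 1),
      H.coeff (g + Finsupp.single i (s + 1 - 1 - m) + Finsupp.single i' (s - (s + 1 - 1 - m))) =
      -∑ m ∈ range (s + 1), H.coeff (g + Finsupp.single i m + Finsupp.single i' (s - m)) := by
    rw [← Finset.sum_neg_distrib]
    apply Finset.sum_congr rfl
    intro m hm
    rw [Nat.add_sub_cancel]
    exact key m hm
  have h3 := h1.symm.trans h2
  exact self_eq_neg.mp h3

private theorem pair_sum {N : ℕ} (H : MvPolynomial (Fin N) ℂ) (hH : Anti H) (i i' : Fin N)
    (hi : i ≠ i') (a : Fin N →₀ ℕ) :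
    ∑ j ∈ Icc 1 (a i), H.coeff (a - Finsupp.single i j + Finsupp.single i' j) +
      ∑ j ∈ Icc 1 (a i'), H.coeff (a - Finsupp.single i' j + Finsupp.single i j) =
      -H.coeff a := by
  set g : Fin N →₀ ℕ := (a.erase i).erase i' with hgdef
  have hgi : g i = 0 := by
    rw [hgdef, Finsupp.erase_ne hi, Finsupp.erase_same]
  have hgi' : g i' = 0 := by
    rw [hgdef, Finsupp.erase_same]
  have hgo : ∀ x, x ≠ i → x ≠ i' → g x = a x := by
    intro x hx hx'
    rw [hgdef, Finsupp.erase_ne hx', Finsupp.erase_ne hx]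
  set s := a i + a i' with hs
  have hcl := class_sum H hH i i' hi g hgi hgi' s
  have hi' : i' ≠ i := fun h => hi h.symm
  -- the three parts
  have e1 : ∑ j ∈ Icc 1 (a i), H.coeff (a - Finsupp.single i j + Finsupp.single i' j) =
      ∑ m ∈ range (a i), H.coeff (g + Finsupp.single i m + Finsupp.single i' (s - m)) := by
    apply Finset.sum_bij' (fun j _ => a i - j) (fun m _ => a i - m)
    · intro j hj
      rw [mem_Icc] at hj
      rw [mem_range]
      omega
    · intro m hm
      rw [mem_range] at hm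
      rw [mem_Icc]
      omega
    · intro j hj
      rw [mem_Icc] at hj
      omega
    · intro m hm
      rw [mem_range] at hm
      omega
    · intro j hj
      rw [mem_Icc] at hj
      congr 1
      ext x
      by_cases hx : x = i
      · subst hx
        simp [hgi, Finsupp.single_apply, hi']
      · by_cases hx' : x = i'
        · subst hx'
          simp [hgi', Finsupp.single_apply, hi]
          omega
        · have hx1 : i ≠ x := fun h => hx h.symm
          have hx2 : i' ≠ x := fun h => hx' h.symm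
          simp [hgo x hx hx', Finsupp.single_apply, hx1, hx2]
  have e2 : ∑ j ∈ Icc 1 (a i'), H.coeff (a - Finsupp.single i' j + Finsupp.single i j) =
      ∑ m ∈ Ico (a i + 1) (s + 1),
        H.coeff (g + Finsupp.single i m + Finsupp.single i' (s - m)) := by
    apply Finset.sum_bij' (fun j _ => a i + j) (fun m _ => m - a i)
    · intro j hj
      rw [mem_Icc] at hj
      rw [mem_Ico]
      omega
    · intro m hm
      rw [mem_Ico] at hm
      rw [mem_Icc]
      omega
    · intro j hj
      rw [mem_Icc] at hj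
      omega
    · intro m hm
      rw [mem_Ico] at hm
      omega
    · intro j hj
      rw [mem_Icc] at hj
      congr 1
      ext x
      by_cases hx : x = i
      · subst hx
        simp [hgi, Finsupp.single_apply, hi']
      · by_cases hx' : x = i'
        · subst hx'
          simp [hgi', Finsupp.single_apply, hi]
          omega
        · have hx1 : i ≠ x := fun h => hx h.symm
          have hx2 : i' ≠ x := fun h => hx' h.symm
          simp [hgo x hx hx', Finsupp.single_apply, hx1, hx2]
  have e3 : H.coeff a = H.coeff (g + Finsupp.single i (a i) + Finsupp.single i' (s - a i)) := by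
    congr 1
    ext x
    by_cases hx : x = i
    · subst hx
      simp [hgi, Finsupp.single_apply, hi']
    · by_cases hx' : x = i'
      · subst hx'
        simp [hgi', Finsupp.single_apply, hi]
        omega
      · have hx1 : i ≠ x := fun h => hx h.symm
        have hx2 : i' ≠ x := fun h => hx' h.symm
        simp [hgo x hx hx', Finsupp.single_apply, hx1, hx2]
  have e4 : ∑ m ∈ range (s + 1), H.coeff (g + Finsupp.single i m + Finsupp.single i' (s - m)) =
      ∑ m ∈ range (a i), H.coeff (g + Finsupp.single i m + Finsupp.single i' (s - m)) +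
      H.coeff (g + Finsupp.single i (a i) + Finsupp.single i' (s - a i)) +
      ∑ m ∈ Ico (a i + 1) (s + 1),
        H.coeff (g + Finsupp.single i m + Finsupp.single i' (s - m)) := by
    rw [← Finset.sum_range_succ, Finset.sum_range_add_sum_Ico]
    omega
  rw [hcl] at e4
  rw [e1, e2, e3]
  linear_combination -e4

private theorem inner_sum {N : ℕ} (H : MvPolynomial (Fin N) ℂ) (J : ℕ)
    (hJ : H.totalDegree ≤ J) (S : Finset (Fin N →₀ ℕ))
    (hS' : ∀ j ∈ Icc 1 J, ∀ i, ∀ γ, H.coeff (γ + Finsupp.single i j) ≠ 0 → γ ∈ S)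
    (i i' : Fin N) :
    ∑ j ∈ Icc 1 J, ∑ γ ∈ S, H.coeff (γ + Finsupp.single i j) *
      (starRingEnd ℂ) (H.coeff (γ + Finsupp.single i' j)) =
    ∑ a ∈ H.support, H.coeff a * (starRingEnd ℂ) (∑ j ∈ Icc 1 (a i),
      H.coeff (a - Finsupp.single i j + Finsupp.single i' j)) := by
  have h1 : ∀ j ∈ Icc 1 J, ∑ γ ∈ S, H.coeff (γ + Finsupp.single i j) *
      (starRingEnd ℂ) (H.coeff (γ + Finsupp.single i' j)) =
      ∑ a ∈ H.support, if j ≤ a i then H.coeff a * (starRingEnd ℂ)
        (H.coeff (a - Finsupp.single i j + Finsupp.single i' j)) else 0 := by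
    intro j hj
    rw [← Finset.sum_filter]
    symm
    apply Finset.sum_bij_ne_zero (fun a _ _ => a - Finsupp.single i j)
    · intro a ha hne
      rw [mem_filter] at ha
      apply hS' j hj i
      have hle : Finsupp.single i j ≤ a := Finsupp.single_le_iff.mpr ha.2
      rw [tsub_add_cancel_of_le hle]
      exact MvPolynomial.mem_support_iff.mp ha.1
    · intro a ha _ b hb _ hab
      rw [mem_filter] at ha hb
      have hle : Finsupp.single i j ≤ a := Finsupp.single_le_iff.mpr ha.2
      have hle' : Finsupp.single i j ≤ b := Finsupp.single_le_iff.mpr hb.2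
      rw [← tsub_add_cancel_of_le hle, ← tsub_add_cancel_of_le hle', hab]
    · intro γ hγ hne
      refine ⟨γ + Finsupp.single i j, ?_, ?_, ?_⟩
      · rw [mem_filter]
        refine ⟨MvPolynomial.mem_support_iff.mpr (left_ne_zero_of_mul hne), ?_⟩
        simp
      · rw [add_tsub_cancel_right]
        exact hne
      · rw [add_tsub_cancel_right]
    · intro a ha _
      rw [mem_filter] at ha
      have hle : Finsupp.single i j ≤ a := Finsupp.single_le_iff.mpr ha.2
      rw [tsub_add_cancel_of_le hle]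
  rw [Finset.sum_congr rfl h1, Finset.sum_comm]
  apply Finset.sum_congr rfl
  intro a ha
  rw [map_sum, Finset.mul_sum, ← Finset.sum_filter]
  apply Finset.sum_congr _ (fun _ _ => rfl)
  ext j
  rw [mem_filter, mem_Icc, mem_Icc]
  have haJ : a i ≤ J := by
    have h2 := MvPolynomial.le_totalDegree ha
    have h3 : a i ≤ a.sum fun _ e => e := by
      rw [Finsupp.sum_fintype _ _ (fun _ => rfl)]
      exact Finset.single_le_sum (f := fun x => a x) (fun _ _ => Nat.zero_le _)
        (Finset.mem_univ i)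
    omega
  constructor
  · rintro ⟨⟨h2, _⟩, h3⟩
    exact ⟨h2, h3⟩
  · rintro ⟨h2, h3⟩
    exact ⟨⟨h2, h3.trans haJ⟩, h3⟩

/-- The identity `∑_j p_j p_j^* = degree` on antisymmetric polynomials. -/
theorem anti_id {N : ℕ} (H : MvPolynomial (Fin N) ℂ) (hH : Anti H) (J : ℕ)
    (hJ : H.totalDegree ≤ J) (S : Finset (Fin N →₀ ℕ))
    (hS : ∀ j ∈ Icc 1 J, ∀ γ, dn H j γ ≠ 0 → γ ∈ S)
    (hS' : ∀ j ∈ Icc 1 J, ∀ i, ∀ γ, H.coeff (γ + Finsupp.single i j) ≠ 0 → γ ∈ S) :
    ∑ j ∈ Icc 1 J, ∑ γ ∈ S, ‖dn H j γ‖ ^ 2 =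
      ∑ α ∈ H.support, ((α.sum fun _ e => (e : ℝ)) - (N : ℝ) * (N - 1) / 2) * ‖H.coeff α‖ ^ 2 := by
  have hT := inner_sum H J hJ S hS'
  set T : Fin N → Fin N → ℂ := fun i i' => ∑ a ∈ H.support, H.coeff a * (starRingEnd ℂ)
    (∑ j ∈ Icc 1 (a i), H.coeff (a - Finsupp.single i j + Finsupp.single i' j)) with hTdef
  -- expansion of the left side
  have hL : ((∑ j ∈ Icc 1 J, ∑ γ ∈ S, ‖dn H j γ‖ ^ 2 : ℝ) : ℂ) = ∑ i, ∑ i', T i i' := by
    have h1 : ∀ j ∈ Icc 1 J, ∀ γ ∈ S, ((‖dn H j γ‖ ^ 2 : ℝ) : ℂ) =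
        ∑ i, ∑ i', H.coeff (γ + Finsupp.single i j) *
          (starRingEnd ℂ) (H.coeff (γ + Finsupp.single i' j)) := by
      intro j _ γ _
      rw [← Complex.normSq_eq_norm_sq, ← Complex.mul_conj]
      unfold dn
      rw [map_sum, Finset.sum_mul_sum]
    push_cast
    have h2 : ∑ j ∈ Icc 1 J, ∑ γ ∈ S, ((‖dn H j γ‖ : ℝ) : ℂ) ^ 2 =
        ∑ j ∈ Icc 1 J, ∑ γ ∈ S, ∑ i, ∑ i', H.coeff (γ + Finsupp.single i j) *
          (starRingEnd ℂ) (H.coeff (γ + Finsupp.single i' j)) := by
      apply Finset.sum_congr rfl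
      intro j hj
      apply Finset.sum_congr rfl
      intro γ hγ
      rw [← h1 j hj γ hγ]
      push_cast
      rfl
    rw [h2]
    have h3 : ∀ i i', T i i' = ∑ j ∈ Icc 1 J, ∑ γ ∈ S, H.coeff (γ + Finsupp.single i j) *
      (starRingEnd ℂ) (H.coeff (γ + Finsupp.single i' j)) := fun i i' => (hT i i').symm
    simp_rw [h3]
    have h4 : ∀ j ∈ Icc 1 J, ∑ γ ∈ S, ∑ i, ∑ i', H.coeff (γ + Finsupp.single i j) *
          (starRingEnd ℂ) (H.coeff (γ + Finsupp.single i' j)) =
        ∑ i, ∑ i', ∑ γ ∈ S, H.coeff (γ + Finsupp.single i j) *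
          (starRingEnd ℂ) (H.coeff (γ + Finsupp.single i' j)) := by
      intro j _
      rw [Finset.sum_comm]
      apply Finset.sum_congr rfl
      intro i _
      rw [Finset.sum_comm]
    rw [Finset.sum_congr rfl h4, Finset.sum_comm]
    apply Finset.sum_congr rfl
    intro i _
    rw [Finset.sum_comm]
  -- the pairs
  set Q : ℂ := ∑ a ∈ H.support, ((‖H.coeff a‖ ^ 2 : ℝ) : ℂ) with hQ
  have hpair : ∀ i i', T i i' + T i' i = if i = i' then
      2 * ∑ a ∈ H.support, (a i : ℂ) * ((‖H.coeff a‖ ^ 2 : ℝ) : ℂ) else -Q := by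
    intro i i'
    by_cases hii : i = i'
    · subst hii
      rw [if_pos rfl, ← two_mul]
      congr 1
      apply Finset.sum_congr rfl
      intro a ha
      have h1 : ∀ j ∈ Icc 1 (a i), H.coeff (a - Finsupp.single i j + Finsupp.single i j) =
          H.coeff a := by
        intro j hj
        rw [mem_Icc] at hj
        rw [tsub_add_cancel_of_le (Finsupp.single_le_iff.mpr hj.2)]
      rw [Finset.sum_congr rfl h1, Finset.sum_const, Nat.card_Icc, nsmul_eq_mul, map_mul,
        Complex.conj_natCast, Nat.add_sub_cancel, ← Complex.normSq_eq_norm_sq,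
        ← Complex.mul_conj]
      ring
    · rw [if_neg hii, hQ, hTdef]
      simp only
      rw [← Finset.sum_add_distrib, ← Finset.sum_neg_distrib]
      apply Finset.sum_congr rfl
      intro a ha
      rw [← mul_add, ← map_add, pair_sum H hH i i' hii a, map_neg, mul_neg, Complex.mul_conj,
        Complex.normSq_eq_norm_sq]
  have h2 : 2 * ∑ i, ∑ i', T i i' =
      2 * ∑ a ∈ H.support, ((∑ i, (a i : ℂ)) - (N : ℂ) * (N - 1) / 2) *
        ((‖H.coeff a‖ ^ 2 : ℝ) : ℂ) := by
    have h3 : 2 * ∑ i, ∑ i', T i i' = ∑ i, ∑ i', (T i i' + T i' i) := by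
      simp_rw [Finset.sum_add_distrib]
      rw [Finset.sum_comm (f := fun i i' => T i' i), two_mul]
    rw [h3]
    simp_rw [hpair]
    have h4 : ∀ i : Fin N, ∑ i' : Fin N, (if i = i' then
        2 * ∑ a ∈ H.support, (a i : ℂ) * ((‖H.coeff a‖ ^ 2 : ℝ) : ℂ) else -Q) =
        2 * ∑ a ∈ H.support, (a i : ℂ) * ((‖H.coeff a‖ ^ 2 : ℝ) : ℂ) - ((N : ℂ) - 1) * Q := by
      intro i
      have h5 : ∀ i' : Fin N, (if i = i' then
          2 * ∑ a ∈ H.support, (a i : ℂ) * ((‖H.coeff a‖ ^ 2 : ℝ) : ℂ) else -Q) =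
          (if i = i' then
          2 * ∑ a ∈ H.support, (a i : ℂ) * ((‖H.coeff a‖ ^ 2 : ℝ) : ℂ) + Q else 0) + (-Q) := by
        intro i'
        by_cases h6 : i = i'
        · rw [if_pos h6, if_pos h6]
          ring
        · rw [if_neg h6, if_neg h6]
          ring
      simp_rw [h5]
      rw [Finset.sum_add_distrib, Finset.sum_ite_eq, if_pos (Finset.mem_univ i),
        Finset.sum_const, Finset.card_univ, Fintype.card_fin, nsmul_eq_mul]
      ring
    simp_rw [h4]
    rw [Finset.sum_sub_distrib, ← Finset.mul_sum, Finset.sum_comm, Finset.sum_const,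
      Finset.card_univ, Fintype.card_fin, nsmul_eq_mul]
    simp_rw [sub_mul, Finset.sum_sub_distrib, Finset.sum_mul]
    rw [mul_sub, ← Finset.mul_sum, ← hQ]
    ring
  have h5 := mul_left_cancel₀ (two_ne_zero) h2
  rw [← hL] at h5
  have h6 : ∑ a ∈ H.support, ((∑ i, (a i : ℂ)) - (N : ℂ) * (N - 1) / 2) *
        ((‖H.coeff a‖ ^ 2 : ℝ) : ℂ) =
      ((∑ α ∈ H.support, ((α.sum fun _ e => (e : ℝ)) - (N : ℝ) * (N - 1) / 2) *
        ‖H.coeff α‖ ^ 2 : ℝ) : ℂ) := by
    push_cast
    apply Finset.sum_congr rfl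
    intro a _
    rw [Finsupp.sum_fintype _ _ (fun _ => by simp)]
    push_cast
    rfl
  rw [h6] at h5
  exact_mod_cast h5

end Pool.Agent.Work.MP_7b186b_nt.CU
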