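import Mathlib
import Pool.Agent.Work.MP_7b186b_nt.CU.Defs

set_option autoImplicit false

namespace Pool.Agent.Work.MP_7b186b_nt.CU

open Finset

/-
PROOF. For m <> 0: ih a L m = e^(-2 pi i m a) (1 - e^(-2 pi i m L))/(2 pi i m), |ih|^2 = sin^2(pi m L)/(pi m)^2. Bessel: for real
x in [0,1] and the indicator function 1_arc of length L on the circle, sum_{|m| <= J} |ih a L m|^2 <= L (integrate
|1_arc - sum_{|m|<=J} ih m e^(2 pi i m t)|^2 >= 0 over a period; ih 0 = L), and |ih (-m)| = |ih m|. Hence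
L^2 + 2 sum_{1<=j<=J} |ih j|^2 <= L. (Or from the known series sum cos(2 pi m x)/m^2: Bernoulli polynomial,
hasSum_one_div_nat_pow_mul_cos.)
-/

private theorem bern_two (x : ℝ) :
    (Polynomial.map (algebraMap ℚ ℝ) (Polynomial.bernoulli 2)).eval x = x ^ 2 - x + 1 / 6 := by
  rw [Polynomial.bernoulli, Finset.sum_range_succ, Finset.sum_range_succ, Finset.sum_range_one]
  rw [bernoulli_one, bernoulli_eq_bernoulli'_of_ne_one zero_ne_one, bernoulli'_zero,
    bernoulli_eq_bernoulli'_of_ne_one (by decide : 2 ≠ 1), bernoulli'_two]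
  simp only [Polynomial.map_add, Polynomial.map_monomial, Polynomial.eval_add,
    Polynomial.eval_monomial]
  norm_num
  ring

private theorem norm_sq_exp_sub_one (y : ℝ) :
    ‖Complex.exp (-(y * Complex.I)) - 1‖ ^ 2 = 2 - 2 * Real.cos y := by
  have h : Complex.exp (-(y * Complex.I)) - 1 =
      ((Real.cos y - 1 : ℝ) : ℂ) + ((-Real.sin y : ℝ) : ℂ) * Complex.I := by
    have h1 : -((y : ℂ) * Complex.I) = ((-y : ℝ) : ℂ) * Complex.I := by
      push_cast
      ring
    rw [h1, Complex.exp_mul_I, ← Complex.ofReal_cos, ← Complex.ofReal_sin, Real.cos_neg,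
      Real.sin_neg]
    push_cast
    ring
  rw [h, ← Complex.normSq_eq_norm_sq, Complex.normSq_add_mul_I]
  have h2 := Real.sin_sq_add_cos_sq y
  linear_combination h2

private theorem ih_sq (a L : ℝ) (j : ℕ) (hj : j ≠ 0) :
    ‖ih a L j‖ ^ 2 = (1 / (j : ℝ) ^ 2 - 1 / (j : ℝ) ^ 2 * Real.cos (2 * Real.pi * j * L)) /
      (2 * Real.pi ^ 2) := by
  have hj' : (j : ℝ) ≠ 0 := Nat.cast_ne_zero.2 hj
  have hjc : (j : ℂ) ≠ 0 := Nat.cast_ne_zero.2 hj
  have hpi := Real.pi_pos
  have hpc : (Real.pi : ℂ) ≠ 0 := Complex.ofReal_ne_zero.2 hpi.ne'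
  have hc : (-(2 * Real.pi * j * Complex.I) : ℂ) ≠ 0 :=
    neg_ne_zero.2 (mul_ne_zero (mul_ne_zero (mul_ne_zero two_ne_zero hpc) hjc) Complex.I_ne_zero)
  have h1 : ih a L j = Complex.exp (-(2 * Real.pi * j * Complex.I) * a) *
      (Complex.exp (-((2 * Real.pi * j * L : ℝ) * Complex.I)) - 1) /
      (-(2 * Real.pi * j * Complex.I)) := by
    unfold ih
    have e : ∀ θ : ℝ, Complex.exp (-(2 * Real.pi * ((j : ℤ) : ℂ) * θ * Complex.I)) =
        Complex.exp (-(2 * Real.pi * j * Complex.I) * θ) := by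
      intro θ
      congr 1
      push_cast
      ring
    simp only [e]
    rw [integral_exp_mul_complex hc]
    congr 1
    rw [mul_sub, mul_one, ← Complex.exp_add]
    congr 2
    push_cast
    ring
  have h2 : ‖Complex.exp (-(2 * Real.pi * j * Complex.I) * a)‖ = 1 := by
    have e : (-(2 * Real.pi * j * Complex.I) * a : ℂ) =
        ((-(2 * Real.pi * j * a) : ℝ) : ℂ) * Complex.I := by
      push_cast
      ring
    rw [e, Complex.norm_exp_ofReal_mul_I]
  have h3 : ‖(-(2 * Real.pi * j * Complex.I) : ℂ)‖ = 2 * Real.pi * j := by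
    have e : (-(2 * Real.pi * j * Complex.I) : ℂ) = ((2 * Real.pi * j : ℝ) : ℂ) * (-Complex.I) := by
      push_cast
      ring
    rw [e, norm_mul, norm_neg, Complex.norm_I, mul_one, Complex.norm_real, Real.norm_eq_abs,
      abs_of_nonneg (by positivity)]
  rw [h1, norm_div, norm_mul, h2, h3, one_mul, div_pow, norm_sq_exp_sub_one]
  field_simp

/-- Bessel's inequality for the indicator of an arc -/
theorem bess (a L : ℝ) (hL0 : 0 ≤ L) (hL1 : L ≤ 1) (J : ℕ) :
    ∑ j ∈ Icc 1 J, ‖ih a L j‖ ^ 2 ≤ L * (1 - L) / 2 := by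
  have hpi := Real.pi_pos
  have s1 := hasSum_zeta_two
  have s2 := hasSum_one_div_nat_pow_mul_cos (k := 1) one_ne_zero (x := L) ⟨hL0, hL1⟩
  have s3 := (s1.sub s2).div_const (2 * Real.pi ^ 2)
  have e1 : ∑ j ∈ Icc 1 J, ‖ih a L j‖ ^ 2 = ∑ j ∈ Icc 1 J,
      (1 / (j : ℝ) ^ 2 - 1 / (j : ℝ) ^ (2 * 1) * Real.cos (2 * Real.pi * j * L)) /
        (2 * Real.pi ^ 2) := by
    refine Finset.sum_congr rfl fun j hj => ?_
    rw [ih_sq a L j (Nat.one_le_iff_ne_zero.1 (Finset.mem_Icc.1 hj).1), mul_one]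
  rw [e1]
  refine (sum_le_hasSum _ (fun j _ => ?_) s3).trans (le_of_eq ?_)
  · refine div_nonneg ?_ (by positivity)
    have h : 1 / (j : ℝ) ^ (2 * 1) * Real.cos (2 * Real.pi * j * L) ≤ 1 / (j : ℝ) ^ 2 * 1 := by
      rw [mul_one 2]
      exact mul_le_mul_of_nonneg_left (Real.cos_le_one _) (by positivity)
    rw [mul_one] at h
    linarith
  · rw [mul_one 2, bern_two]
    norm_num
    field_simp
    ring

end Pool.Agent.Work.MP_7b186b_nt.CU
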