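import Mathlib
import Pool.Agent.Work.MP_7b186b_nt.CU.AntiId
import Pool.Agent.Work.MP_7b186b_nt.CU.Pars
import Pool.Agent.Work.MP_7b186b_nt.CU.Bess
import Pool.Agent.Work.MP_7b186b_nt.CU.VanD
import Pool.Agent.Work.MP_7b186b_nt.CU.Int

set_option autoImplicit false

namespace Pool.Agent.Work.MP_7b186b_nt.CU

open Finset MeasureTheory

/-
PROOF. H = G vp, c its coefficients, J >= totalDegree H. By ev_mul, pars and pars_arc summed over i,
cue(|G|^2 (cnt - N L)) = 2 Re sum_{j=1}^J ih(j) sum_g c_g conj(dn H j g), g in the support of H. For every kappa > 0: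
2 |ih(j)| |c_g| |dn H j g| <= kappa |dn H j g|^2 + |ih(j)|^2 |c_g|^2/kappa, so the absolute value is at most
kappa sum_j sum_g |dn|^2 + (1/kappa) (L(1-L)/2) nrm H <= (kappa d + L(1-L)/(2 kappa)) nrm H (anti_id with a finite set S containing
everything, deg_mul: |a| - N(N-1)/2 <= d on the support; bess). Optimize kappa (kappa = sqrt(L(1-L)/(2d)); if d = 0 or
L(1-L) = 0 let kappa tend to infinity or 0): the bound is sqrt(2 d L (1-L)) nrm H, nrm H = cue(|G|^2).
-/

/-- the mean of the counting function as a quadratic form in the coefficients -/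
private theorem quad_form {N : ℕ} (G : MvPolynomial (Fin N) ℂ) (a L : ℝ) (hL0 : 0 ≤ L)
    (hL1 : L ≤ 1) (J : ℕ) (hJ : (G * vp N).totalDegree ≤ J) :
    cue N (fun θ => ‖ev G θ‖ ^ 2 * (cnt a L θ - N * L)) =
      2 * (∑ j ∈ Icc 1 J, ih a L j * ∑ γ ∈ (G * vp N).support,
        (G * vp N).coeff γ * (starRingEnd ℂ) (dn (G * vp N) j γ)).re := by
  rw [cue_sub]
  have h1 : cue N (fun θ => ‖ev G θ‖ ^ 2) = nrm (G * vp N) := by
    rw [← pars]
    unfold cue
    refine integral_congr_ae (Filter.Eventually.of_forall (fun θ => ?_))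
    simp only
    rw [ev_mul]
  have h2 : cue N (fun θ => ‖ev G θ‖ ^ 2 * cnt a L θ) =
      ∑ i, ∫ θ in Set.Icc (0 : Fin N → ℝ) 1, ‖ev (G * vp N) θ‖ ^ 2 *
        (if Int.fract (θ i - a) < L then (1 : ℝ) else 0) := by
    rw [← integral_finsetSum]
    · unfold cue
      refine integral_congr_ae (Filter.Eventually.of_forall (fun θ => ?_))
      simp only
      rw [← Finset.mul_sum, ev_mul]
      unfold cnt
      ring
    · intro i _
      have hc : Continuous (fun θ : Fin N → ℝ => ‖ev (G * vp N) θ‖ ^ 2) :=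
        (ev_cont _).norm.pow 2
      refine Integrable.mul_bdd (c := 1) (int_cont _ hc) ?_ ?_
      · have h3 : Measurable (fun θ : Fin N → ℝ => θ i - a) := by fun_prop
        exact (Measurable.ite (measurableSet_lt (measurable_fract.comp h3) measurable_const)
          measurable_const measurable_const).aestronglyMeasurable
      · refine Filter.Eventually.of_forall (fun θ => ?_)
        split_ifs <;> simp
  rw [h1, h2]
  simp_rw [pars_arc (G * vp N) _ a L hL0 hL1 J hJ]
  rw [Finset.sum_add_distrib, Finset.sum_const, Finset.card_univ, Fintype.card_fin,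
    nsmul_eq_mul, ← Finset.mul_sum, ← Complex.re_sum, Finset.sum_comm]
  have h4 : ∀ j ∈ Icc 1 J, ∑ i : Fin N, ih a L j * ∑ γ ∈ (G * vp N).support,
        (G * vp N).coeff γ * (starRingEnd ℂ) ((G * vp N).coeff (γ + Finsupp.single i j)) =
      ih a L j * ∑ γ ∈ (G * vp N).support,
        (G * vp N).coeff γ * (starRingEnd ℂ) (dn (G * vp N) j γ) := by
    intro j _
    rw [← Finset.mul_sum, Finset.sum_comm]
    congr 1
    refine Finset.sum_congr rfl (fun γ _ => ?_)
    rw [← Finset.mul_sum, dn, map_sum]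
  rw [Finset.sum_congr rfl h4]
  ring

/-- the sum of the squares of the `dn` -/
private theorem dn_sum {N : ℕ} (d : ℕ) (G : MvPolynomial (Fin N) ℂ) (hs : G.IsSymmetric)
    (hd : G.totalDegree ≤ d) (J : ℕ) (hJ : (G * vp N).totalDegree ≤ J) :
    ∑ j ∈ Icc 1 J, ∑ γ ∈ (G * vp N).support, ‖dn (G * vp N) j γ‖ ^ 2 ≤
      d * nrm (G * vp N) := by
  classical
  set H := G * vp N with hH
  set S : Finset (Fin N →₀ ℕ) := H.support ∪ (H.support.biUnion (fun α => Finset.Iic α)) with hS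
  have hS' : ∀ j ∈ Icc 1 J, ∀ i, ∀ γ, H.coeff (γ + Finsupp.single i j) ≠ 0 → γ ∈ S := by
    intro j _ i γ hne
    rw [hS, Finset.mem_union, Finset.mem_biUnion]
    refine Or.inr ⟨γ + Finsupp.single i j, MvPolynomial.mem_support_iff.mpr hne, ?_⟩
    rw [Finset.mem_Iic]
    exact le_self_add
  have hS'' : ∀ j ∈ Icc 1 J, ∀ γ, dn H j γ ≠ 0 → γ ∈ S := by
    intro j hj γ hne
    unfold dn at hne
    obtain ⟨i, _, hi⟩ := Finset.exists_ne_zero_of_sum_ne_zero hne
    exact hS' j hj i γ hi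
  have h1 := anti_id H (anti_mul G hs) J hJ S hS'' hS'
  have h2 : ∑ j ∈ Icc 1 J, ∑ γ ∈ H.support, ‖dn H j γ‖ ^ 2 ≤
      ∑ j ∈ Icc 1 J, ∑ γ ∈ S, ‖dn H j γ‖ ^ 2 := by
    refine Finset.sum_le_sum (fun j _ => ?_)
    refine Finset.sum_le_sum_of_subset_of_nonneg Finset.subset_union_left (fun _ _ _ => ?_)
    positivity
  refine h2.trans (h1.le.trans ?_)
  unfold nrm
  rw [Finset.mul_sum]
  refine Finset.sum_le_sum (fun α hα => ?_)
  refine mul_le_mul_of_nonneg_right ?_ (by positivity)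
  have h3 := MvPolynomial.le_totalDegree hα
  have h4 : (α.sum fun _ e => (e : ℝ)) ≤ H.totalDegree := by
    have h5 : (α.sum fun _ e => (e : ℝ)) = ((α.sum fun _ e => e : ℕ) : ℝ) := by
      rw [Finsupp.sum_fintype _ _ (fun _ => by simp), Finsupp.sum_fintype _ _ (fun _ => rfl)]
      push_cast
      rfl
    rw [h5]
    exact_mod_cast h3
  have h6 := deg_mul G
  have h7 : (G.totalDegree : ℝ) ≤ d := by exact_mod_cast hd
  linarith

/-- A polynomial weight of degree `d` changes the mean number of eigenvalues in an arc of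
relative length `L` by at most `√(2 d L (1 - L))`. -/
theorem cue_bound (N d : ℕ) (G : MvPolynomial (Fin N) ℂ) (hs : G.IsSymmetric)
    (hd : G.totalDegree ≤ d) (a L : ℝ) (hL0 : 0 ≤ L) (hL1 : L ≤ 1) :
    |cue N (fun θ => ‖ev G θ‖ ^ 2 * (cnt a L θ - N * L))| ≤
      Real.sqrt (2 * d * L * (1 - L)) * cue N (fun θ => ‖ev G θ‖ ^ 2) := by
  set J := (G * vp N).totalDegree with hJ
  have h1 : cue N (fun θ => ‖ev G θ‖ ^ 2) = nrm (G * vp N) := by
    rw [← pars]
    unfold cue
    refine integral_congr_ae (Filter.Eventually.of_forall (fun θ => ?_))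
    simp only
    rw [ev_mul]
  rw [h1, quad_form G a L hL0 hL1 J le_rfl]
  have hdn := dn_sum d G hs hd J le_rfl
  have hb := bess a L hL0 hL1 J
  set H := G * vp N with hH
  have hn0 : 0 ≤ nrm H := by
    unfold nrm
    positivity
  -- Cauchy-Schwarz
  have hcs : ‖∑ j ∈ Icc 1 J, ih a L j * ∑ γ ∈ H.support,
      H.coeff γ * (starRingEnd ℂ) (dn H j γ)‖ ≤
      Real.sqrt (L * (1 - L) / 2 * nrm H) * Real.sqrt (d * nrm H) := by
    have h2 : ‖∑ j ∈ Icc 1 J, ih a L j * ∑ γ ∈ H.support,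
        H.coeff γ * (starRingEnd ℂ) (dn H j γ)‖ ≤
        ∑ x ∈ Icc 1 J ×ˢ H.support, (‖ih a L x.1‖ * ‖H.coeff x.2‖) * ‖dn H x.1 x.2‖ := by
      rw [Finset.sum_product]
      refine (norm_sum_le _ _).trans (Finset.sum_le_sum (fun j _ => ?_))
      rw [norm_mul]
      simp only
      have h3 : ‖∑ γ ∈ H.support, H.coeff γ * (starRingEnd ℂ) (dn H j γ)‖ ≤
          ∑ γ ∈ H.support, ‖H.coeff γ‖ * ‖dn H j γ‖ := by
        refine (norm_sum_le _ _).trans (Finset.sum_le_sum (fun γ _ => ?_))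
        rw [norm_mul, RCLike.norm_conj]
      refine (mul_le_mul_of_nonneg_left h3 (norm_nonneg _)).trans ?_
      rw [Finset.mul_sum]
      refine Finset.sum_le_sum (fun γ _ => ?_)
      rw [mul_assoc]
    refine h2.trans ((Real.sum_mul_le_sqrt_mul_sqrt _ _ _).trans ?_)
    refine mul_le_mul (Real.sqrt_le_sqrt ?_) (Real.sqrt_le_sqrt ?_) (Real.sqrt_nonneg _)
      (Real.sqrt_nonneg _)
    · simp_rw [mul_pow]
      rw [Finset.sum_product]
      simp only
      simp_rw [← Finset.mul_sum]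
      rw [← Finset.sum_mul]
      exact mul_le_mul_of_nonneg_right hb hn0
    · rw [Finset.sum_product]
      exact hdn
  have h5 : |2 * (∑ j ∈ Icc 1 J, ih a L j * ∑ γ ∈ H.support,
      H.coeff γ * (starRingEnd ℂ) (dn H j γ)).re| ≤
      2 * (Real.sqrt (L * (1 - L) / 2 * nrm H) * Real.sqrt (d * nrm H)) := by
    rw [abs_mul, abs_two]
    exact mul_le_mul_of_nonneg_left ((Complex.abs_re_le_norm _).trans hcs) zero_le_two
  refine h5.trans (le_of_eq ?_)
  have hLL : 0 ≤ L * (1 - L) := mul_nonneg hL0 (by linarith)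
  rw [← Real.sqrt_mul (by positivity)]
  have h6 : L * (1 - L) / 2 * nrm H * (d * nrm H) = (2 * d * L * (1 - L)) * (nrm H / 2) ^ 2 := by
    ring
  have h8 : 0 ≤ 2 * (d : ℝ) * L * (1 - L) := by
    have : 2 * (d : ℝ) * L * (1 - L) = 2 * d * (L * (1 - L)) := by ring
    rw [this]
    positivity
  rw [h6, Real.sqrt_mul h8, Real.sqrt_sq (by positivity)]
  ring

end Pool.Agent.Work.MP_7b186b_nt.CU
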