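import Mathlib
import Pool.Agent.Work.MP_7b186b_nt.CU.HB
import Pool.Agent.Work.MP_7b186b_nt.CU.TrI
import Pool.Agent.Work.MP_7b186b_nt.CU.TwB
import Pool.Agent.Work.MP_7b186b_nt.CU.Up

set_option autoImplicit false

namespace Pool.Agent.Work.MP_7b186b_nt.CU

open Finset MeasureTheory

private theorem joint_int {N : ℕ} (G : MvPolynomial (Fin N) ℂ) (l : ℝ) :
    Integrable (Function.uncurry (fun (s : ℝ) (θ : Fin N → ℝ) =>
      ‖ev G (fun i => θ i + s)‖ ^ 2 * cnt (-l - s) (2 * l) θ * ‖vd θ‖ ^ 2))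
      ((volume.restrict (Set.Ioc (0 : ℝ) 1)).prod
        (volume.restrict (Set.Icc (0 : Fin N → ℝ) 1))) := by
  have hc : Continuous (fun x : ℝ × (Fin N → ℝ) =>
      ‖ev G (fun i => x.2 i + x.1)‖ ^ 2 * ‖vd x.2‖ ^ 2) := by
    have h1 : Continuous (fun x : ℝ × (Fin N → ℝ) => ev G (fun i => x.2 i + x.1)) :=
      (ev_cont G).comp (continuous_pi (fun i =>
        ((continuous_apply i).comp continuous_snd).add continuous_fst))
    exact (h1.norm.pow 2).mul ((vd_cont.comp continuous_snd).norm.pow 2)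
  have hint : Integrable (fun x : ℝ × (Fin N → ℝ) =>
      ‖ev G (fun i => x.2 i + x.1)‖ ^ 2 * ‖vd x.2‖ ^ 2)
      ((volume.restrict (Set.Ioc (0 : ℝ) 1)).prod
        (volume.restrict (Set.Icc (0 : Fin N → ℝ) 1))) := by
    rw [Measure.prod_restrict]
    refine IntegrableOn.mono_set (t := Set.Icc (0 : ℝ) 1 ×ˢ Set.Icc (0 : Fin N → ℝ) 1) ?_
      (Set.prod_mono Set.Ioc_subset_Icc_self le_rfl)
    exact hc.continuousOn.integrableOn_compact (isCompact_Icc.prod isCompact_Icc)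
  have hm : Measurable (fun x : ℝ × (Fin N → ℝ) => cnt (-l - x.1) (2 * l) x.2) := by
    unfold cnt
    refine Finset.measurable_sum _ (fun i _ => ?_)
    refine Measurable.ite ?_ measurable_const measurable_const
    have h1 : Measurable (fun x : ℝ × (Fin N → ℝ) => x.2 i - (-l - x.1)) := by fun_prop
    exact measurableSet_lt (measurable_fract.comp h1) measurable_const
  have h2 := Integrable.mul_bdd (c := (N : ℝ)) hint hm.aestronglyMeasurable
    (Filter.Eventually.of_forall (fun x => by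
      rw [Real.norm_eq_abs, abs_of_nonneg (cnt_nonneg _ _ _)]
      exact cnt_le _ _ _))
  refine h2.congr (Filter.Eventually.of_forall (fun x => ?_))
  simp only [Function.uncurry]
  ring

/-- counting mean as a double integral -/
private theorem double {N : ℕ} (G : MvPolynomial (Fin N) ℂ) (l : ℝ) (hl0 : 0 ≤ l)
    (hl1 : 2 * l ≤ 1) :
    cue N (fun θ => ‖ev G θ‖ ^ 2 * cnt (-l) (2 * l) θ) =
      ∫ θ in Set.Icc (0 : Fin N → ℝ) 1, ∫ s in Set.Ioc (0 : ℝ) 1,
        ‖ev G (fun i => θ i + s)‖ ^ 2 * cnt (-l - s) (2 * l) θ * ‖vd θ‖ ^ 2 := by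
  rw [← integral_integral_swap (joint_int G l)]
  have h1 : ∀ s : ℝ, ∫ θ in Set.Icc (0 : Fin N → ℝ) 1,
      ‖ev G (fun i => θ i + s)‖ ^ 2 * cnt (-l - s) (2 * l) θ * ‖vd θ‖ ^ 2 =
      cue N (fun θ => ‖ev G θ‖ ^ 2 * cnt (-l) (2 * l) θ) := by
    intro s
    have h2 := tr_inv G (-l - s) (2 * l) s (by linarith) hl1
    rw [sub_add_cancel] at h2
    exact h2
  simp_rw [h1]
  rw [setIntegral_const]
  simp

/-- Wirtinger's inequality on average -/
theorem hall_count {N : ℕ} (F : MvPolynomial (Fin N) ℂ) (c l : ℝ) (hl0 : 0 ≤ l)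
    (hl1 : 2 * l ≤ 1) (k : ℕ) (hk : 1 ≤ k)
    (hz : ∀ θ : Fin N → ℝ, (∃ i, θ i = 0) → ev F θ = 0) :
    cue N (fun θ => ‖ev (F ^ k) θ‖ ^ 2 * cnt (-l) (2 * l) θ) ≤
      (2 * Real.pi * l) ^ (2 * k) / (2 * k) * cue N (fun θ =>
        ‖ev (tw F.totalDegree (fun d => (d : ℝ) - c) F ^ k) θ‖ ^ 2 * cnt (-l) (2 * l) θ) := by
  have hpow : ∀ (G : MvPolynomial (Fin N) ℂ) (θ : Fin N → ℝ),
      ‖ev (G ^ k) θ‖ ^ 2 = ‖ev G θ‖ ^ (2 * k) := by
    intro G θ
    unfold ev
    rw [map_pow, norm_pow, ← pow_mul, mul_comm k 2]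
  rw [double (F ^ k) l hl0 hl1, double _ l hl0 hl1, ← integral_const_mul]
  refine integral_mono (joint_int (F ^ k) l).swap.integral_prod_left
    ((joint_int _ l).swap.integral_prod_left.const_mul _) (fun θ => ?_)
  simp only
  have h1 := orbit_wirt F c l hl0 hl1 k hk hz θ
  rw [intervalIntegral.integral_of_le zero_le_one, intervalIntegral.integral_of_le zero_le_one]
    at h1
  simp_rw [hpow]
  rw [integral_mul_const, integral_mul_const, ← mul_assoc]
  exact mul_le_mul_of_nonneg_right h1 (by positivity)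

/-- the limit of Hall's method -/
theorem hall_limit {N : ℕ} (D c : ℝ) (hD : 0 < D) (hDN : 25 * D ≤ 8 * N) (k : ℕ) (hk : 1 ≤ k)
    (F : MvPolynomial (Fin N) ℂ) (hs : F.IsSymmetric) (hd : (k : ℝ) * F.totalDegree ≤ D * N)
    (hz : ∀ θ : Fin N → ℝ, (∃ i, θ i = 0) → ev F θ = 0) :
    2 * k * (N : ℝ) ^ (2 * k) * cue N (fun θ => ‖ev F θ‖ ^ (2 * k)) ≤
      9 * (25 * Real.pi * D / 8) ^ (2 * k) *
        cue N (fun θ => ‖ev (tw F.totalDegree (fun d => (d : ℝ) - c) F) θ‖ ^ (2 * k)) := by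
  have hN : (0 : ℝ) < N := by
    have : (0 : ℝ) ≤ N := Nat.cast_nonneg N
    nlinarith
  have hk0 : (0 : ℝ) < k := by exact_mod_cast hk
  have hpow : ∀ (G : MvPolynomial (Fin N) ℂ) (θ : Fin N → ℝ),
      ‖ev (G ^ k) θ‖ ^ 2 = ‖ev G θ‖ ^ (2 * k) := by
    intro G θ
    unfold ev
    rw [map_pow, norm_pow, ← pow_mul, mul_comm k 2]
  set l : ℝ := 25 * D / (16 * N) with hl
  have hl0 : 0 ≤ l := by positivity
  have hlN : N * (2 * l) = 25 * D / 8 := by
    rw [hl]
    field_simp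
    ring
  have hl1 : 2 * l ≤ 1 := by
    rw [hl]
    have h1 : 2 * (25 * D / (16 * N)) = 25 * D / (8 * N) := by
      field_simp
      ring
    rw [h1, div_le_one (by positivity)]
    exact hDN
  set F' := tw F.totalDegree (fun d => (d : ℝ) - c) F with hF'
  have hKt : F'.totalDegree ≤ F.totalDegree := by
    rw [hF']
    unfold tw
    refine MvPolynomial.totalDegree_finsetSum_le (fun d hd => ?_)
    refine (MvPolynomial.totalDegree_mul _ _).trans ?_
    rw [MvPolynomial.totalDegree_C, zero_add]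
    have h1 := (MvPolynomial.homogeneousComponent_isHomogeneous d F).totalDegree_le
    rw [mem_range] at hd
    omega
  have hs' : F'.IsSymmetric := tw_sym _ _ _ hs
  have hsk : (F ^ k).IsSymmetric := fun e => by rw [map_pow, hs e]
  have hsk' : (F' ^ k).IsSymmetric := fun e => by rw [map_pow, hs' e]
  have hdk : (F ^ k).totalDegree ≤ k * F.totalDegree := MvPolynomial.totalDegree_pow _ _
  have hdk' : (F' ^ k).totalDegree ≤ k * F.totalDegree :=
    (MvPolynomial.totalDegree_pow _ _).trans (Nat.mul_le_mul_left k hKt)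
  have hb1 := cue_bound N (k * F.totalDegree) (F ^ k) hsk hdk (-l) (2 * l) (by linarith) hl1
  have hb2 := cue_bound N (k * F.totalDegree) (F' ^ k) hsk' hdk' (-l) (2 * l) (by linarith) hl1
  rw [cue_sub, hlN] at hb1 hb2
  have hsq : Real.sqrt (2 * ((k * F.totalDegree : ℕ) : ℝ) * (2 * l) * (1 - 2 * l)) ≤
      5 * D / 2 := by
    rw [Real.sqrt_le_left (by positivity)]
    have h2 : (0 : ℝ) ≤ ((k * F.totalDegree : ℕ) : ℝ) := Nat.cast_nonneg _
    have h3 : 2 * ((k * F.totalDegree : ℕ) : ℝ) * (2 * l) * (1 - 2 * l) ≤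
        2 * ((k * F.totalDegree : ℕ) : ℝ) * (2 * l) := by
      have : 0 ≤ 2 * ((k * F.totalDegree : ℕ) : ℝ) * (2 * l) := by positivity
      nlinarith
    have hd' : ((k * F.totalDegree : ℕ) : ℝ) ≤ D * N := by
      push_cast
      exact hd
    have h4 : ((k * F.totalDegree : ℕ) : ℝ) * (2 * l) ≤ D * N * (2 * l) :=
      mul_le_mul_of_nonneg_right hd' (by positivity)
    have h5 : D * N * (2 * l) = 25 * D ^ 2 / 8 := by
      rw [mul_assoc, hlN]
      ring
    nlinarith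
  have hE := cue_nonneg (F ^ k)
  have hE' := cue_nonneg (F' ^ k)
  have hc := hall_count F c l hl0 hl1 k hk hz
  rw [← hF'] at hc
  simp_rw [← hpow]
  set E := cue N (fun θ => ‖ev (F ^ k) θ‖ ^ 2)
  set E' := cue N (fun θ => ‖ev (F' ^ k) θ‖ ^ 2)
  set A := cue N (fun θ => ‖ev (F ^ k) θ‖ ^ 2 * cnt (-l) (2 * l) θ)
  set A' := cue N (fun θ => ‖ev (F' ^ k) θ‖ ^ 2 * cnt (-l) (2 * l) θ)
  have h1 : 5 * D / 8 * E ≤ A := by
    have h2 := (abs_le.mp hb1).1
    have h3 := mul_le_mul_of_nonneg_right hsq hE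
    linarith
  have h2 : A' ≤ 45 * D / 8 * E' := by
    have h3 := (abs_le.mp hb2).2
    have h4 := mul_le_mul_of_nonneg_right hsq hE'
    linarith
  have h3 : 0 ≤ (2 * Real.pi * l) ^ (2 * k) / (2 * k) := by positivity
  have h5 : 5 * D / 8 * E ≤ (2 * Real.pi * l) ^ (2 * k) / (2 * k) * (45 * D / 8 * E') :=
    h1.trans (hc.trans (mul_le_mul_of_nonneg_left h2 h3))
  have h6 : (N : ℝ) ^ (2 * k) * (2 * Real.pi * l) ^ (2 * k) = (25 * Real.pi * D / 8) ^ (2 * k) := by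
    rw [← mul_pow]
    congr 1
    have h7 : (N : ℝ) * (2 * Real.pi * l) = Real.pi * (N * (2 * l)) := by ring
    rw [h7, hlN]
    ring
  have h7 := mul_le_mul_of_nonneg_left h5
    (by positivity : (0 : ℝ) ≤ 2 * k * (N : ℝ) ^ (2 * k) * (8 / (5 * D)))
  have h8 : 2 * k * (N : ℝ) ^ (2 * k) * (8 / (5 * D)) * (5 * D / 8 * E) =
      2 * k * (N : ℝ) ^ (2 * k) * E := by
    field_simp
  have h9 : 2 * k * (N : ℝ) ^ (2 * k) * (8 / (5 * D)) *
      ((2 * Real.pi * l) ^ (2 * k) / (2 * k) * (45 * D / 8 * E')) =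
      9 * ((N : ℝ) ^ (2 * k) * (2 * Real.pi * l) ^ (2 * k)) * E' := by
    field_simp
    ring
  rw [h8, h9, h6] at h7
  exact h7

end Pool.Agent.Work.MP_7b186b_nt.CU
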