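import Mathlib
import Pool.Agent.Work.MP_7b186b_nt.CU.Defs2
import Pool.Agent.Work.MP_7b186b_nt.CU.VanD
import Pool.Agent.Work.MP_7b186b_nt.CU.Pars

set_option autoImplicit false

namespace Pool.Agent.Work.MP_7b186b_nt.CU

open Finset MeasureTheory

/-
PROOF. gp_sym: rename by a permutation permutes the factors. gp_deg: every factor has total degree at most natDegree p.
gp_ev: eval is an algebra homomorphism (Polynomial.aeval / eval₂ hom). gp_pos: by ev_mul and pars cue(|ev G|^2) = nrm (G vp),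
which is > 0 as soon as G vp is not 0 (a domain; vp is a product of nonzero factors X j - X i, aeval (X i) p is nonzero because
eval at a constant vector c with p(c) <> 0 is nonzero).
-/

theorem gp_sym {N : ℕ} (p : Polynomial ℂ) : (gp p : MvPolynomial (Fin N) ℂ).IsSymmetric := by
  intro e
  unfold gp
  rw [map_prod]
  have h1 : ∀ i : Fin N, MvPolynomial.rename e (Polynomial.aeval (MvPolynomial.X i) p) =
      Polynomial.aeval (MvPolynomial.X (e i) : MvPolynomial (Fin N) ℂ) p := by
    intro i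
    rw [← Polynomial.aeval_algHom_apply, MvPolynomial.rename_X]
  simp_rw [h1]
  exact Equiv.prod_comp e (fun i => Polynomial.aeval (MvPolynomial.X i : MvPolynomial (Fin N) ℂ) p)

theorem gp_deg {N : ℕ} (p : Polynomial ℂ) (k : ℕ) (hk : p.natDegree ≤ k) :
    (gp p : MvPolynomial (Fin N) ℂ).totalDegree ≤ k * N := by
  unfold gp
  refine (MvPolynomial.totalDegree_finsetProd _ _).trans ?_
  have h1 : ∀ i ∈ (Finset.univ : Finset (Fin N)),
      (Polynomial.aeval (MvPolynomial.X i : MvPolynomial (Fin N) ℂ) p).totalDegree ≤ k := by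
    intro i _
    rw [Polynomial.aeval_eq_sum_range]
    refine MvPolynomial.totalDegree_finsetSum_le (fun m hm => ?_)
    refine (MvPolynomial.totalDegree_smul_le _ _).trans ?_
    refine (MvPolynomial.totalDegree_pow _ _).trans ?_
    rw [MvPolynomial.totalDegree_X, mul_one]
    rw [mem_range] at hm
    omega
  refine (Finset.sum_le_card_nsmul _ _ k h1).trans ?_
  rw [Finset.card_univ, Fintype.card_fin, smul_eq_mul, mul_comm]

theorem gp_ev {N : ℕ} (p : Polynomial ℂ) (θ : Fin N → ℝ) :
    ev (gp p) θ = ∏ i, p.eval (e1 (θ i)) := by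
  unfold ev gp
  rw [map_prod]
  refine Finset.prod_congr rfl (fun i _ => ?_)
  have h1 : MvPolynomial.eval (zt θ) (Polynomial.aeval (MvPolynomial.X i) p) =
      MvPolynomial.aeval (zt θ) (Polynomial.aeval (MvPolynomial.X i : MvPolynomial (Fin N) ℂ) p) := by
    rw [MvPolynomial.aeval_eq_eval]
  rw [h1, ← Polynomial.aeval_algHom_apply, MvPolynomial.aeval_X, zt_eq]
  rw [Polynomial.coe_aeval_eq_eval]

private theorem vp_ne (N : ℕ) : vp N ≠ 0 := by
  unfold vp
  rw [Finset.prod_ne_zero_iff]
  intro i _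
  rw [Finset.prod_ne_zero_iff]
  intro j hj h0
  rw [mem_Ioi] at hj
  have h1 : (MvPolynomial.X j : MvPolynomial (Fin N) ℂ) = MvPolynomial.X i := sub_eq_zero.mp h0
  exact hj.ne' (MvPolynomial.X_injective h1)

/-- the mean of a nonzero weight is positive -/
theorem cue_pos {N : ℕ} (G : MvPolynomial (Fin N) ℂ) (hG : G ≠ 0) :
    0 < cue N (fun θ => ‖ev G θ‖ ^ 2) := by
  have h1 : cue N (fun θ => ‖ev G θ‖ ^ 2) = nrm (G * vp N) := by
    rw [← pars]
    unfold cue
    refine integral_congr_ae (Filter.Eventually.of_forall (fun θ => ?_))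
    simp only
    rw [ev_mul]
  rw [h1]
  have h2 : G * vp N ≠ 0 := mul_ne_zero hG (vp_ne N)
  unfold nrm
  obtain ⟨α, hα⟩ := MvPolynomial.support_nonempty.mpr h2
  refine Finset.sum_pos (fun β hβ => ?_) ⟨α, hα⟩
  have h3 := MvPolynomial.mem_support_iff.mp hβ
  positivity

theorem gp_pos {N : ℕ} (p : Polynomial ℂ) (hp : p ≠ 0) :
    0 < cue N (fun θ => ‖ev (gp p : MvPolynomial (Fin N) ℂ) θ‖ ^ 2) := by
  apply cue_pos
  unfold gp
  rw [Finset.prod_ne_zero_iff]
  intro i _ h0
  apply hp
  obtain ⟨c, hc⟩ : ∃ c : ℂ, p.eval c ≠ 0 := by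
    by_contra hcon
    push Not at hcon
    exact hp (Polynomial.funext (fun c => by rw [hcon c, Polynomial.eval_zero]))
  exfalso
  apply hc
  have h1 : MvPolynomial.aeval (fun _ : Fin N => c)
      (Polynomial.aeval (MvPolynomial.X i : MvPolynomial (Fin N) ℂ) p) = 0 := by
    rw [h0, map_zero]
  rw [← Polynomial.aeval_algHom_apply, MvPolynomial.aeval_X, Polynomial.coe_aeval_eq_eval] at h1
  exact h1

end Pool.Agent.Work.MP_7b186b_nt.CU
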