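import Mathlib

set_option autoImplicit false

namespace Pool.Agent.Work.MP_7b186b_nt.CU

open Finset MeasureTheory

/-
PROOF. AnalyticOnNhd.circleAverage_log_norm: circleAverage (log |f|) c R = sum over u of divisor(u) log (R * |c - u|^(-1)) + log |f c|;
all terms of the sum are >= 0 (u in the closed disc, divisor >= 0), and the points of Z (zeros of f, so the divisor is >= 1 there;
AnalyticOnNhd.divisor_apply) contribute at least log(R/|z - c|). f is not identically zero since f c <> 0. See the proof of
AnalyticOnNhd.sum_divisor_le in Mathlib/Analysis/Complex/JensenFormula.lean for a template (finsum_le_finsum').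
-/

/-- Jensen's formula as an inequality -/
theorem jen_a (f : ℂ → ℂ) (hf : Differentiable ℂ f) (c : ℂ) (R : ℝ) (hR : 0 < R) (hc : f c ≠ 0)
    (Z : Finset ℂ) (hZ : ∀ z ∈ Z, f z = 0) (hZR : ∀ z ∈ Z, ‖z - c‖ ≤ R) :
    Real.log ‖f c‖ + ∑ z ∈ Z, Real.log (R / ‖z - c‖) ≤
      Real.circleAverage (fun z => Real.log ‖f z‖) c R := by
  classical
  have hA : AnalyticOnNhd ℂ f (Metric.closedBall c |R|) := fun z _ => hf.analyticAt z
  have hJ : Real.circleAverage (fun z => Real.log ‖f z‖) c R =
      ∑ᶠ u, MeromorphicOn.divisor f (Metric.closedBall c |R|) u * Real.log (R * ‖c - u‖⁻¹) +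
        Real.log ‖f c‖ := hA.circleAverage_log_norm hR.ne' hc
  rw [hJ, add_comm]
  refine add_le_add_left ?_ _
  have h1 : ∑ z ∈ Z, Real.log (R / ‖z - c‖) =
      ∑ᶠ u, (if u ∈ Z then Real.log (R / ‖u - c‖) else 0) := by
    rw [finsum_eq_sum_of_support_subset (s := Z)]
    · exact Finset.sum_congr rfl fun z hz => (if_pos hz).symm
    · intro u hu
      by_contra h
      exact hu (if_neg h)
  rw [h1]
  have hlog : ∀ u ∈ Metric.closedBall c |R|, 0 ≤ Real.log (R * ‖c - u‖⁻¹) := by
    intro u hu
    rcases eq_or_ne c u with h | h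
    · rw [h, sub_self, norm_zero, inv_zero, mul_zero, Real.log_zero]
    · have h2 : 0 < ‖c - u‖ := norm_pos_iff.2 (sub_ne_zero.2 h)
      refine Real.log_nonneg ?_
      rw [← div_eq_mul_inv, one_le_div h2]
      rw [Metric.mem_closedBall, dist_eq_norm', abs_of_pos hR] at hu
      exact hu
  refine finsum_le_finsum' ?_ ?_ fun u => ?_
  · refine Z.finite_toSet.subset fun u hu => ?_
    by_contra h
    exact hu (if_neg h)
  · exact (MeromorphicOn.divisor f (Metric.closedBall c |R|)).finiteSupport (isCompact_closedBall ..)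
      |>.subset fun _ _ => (by simp_all)
  · by_cases hu : u ∈ Z
    · rw [if_pos hu]
      have huB : u ∈ Metric.closedBall c |R| := by
        rw [Metric.mem_closedBall, dist_eq_norm, abs_of_pos hR]
        exact hZR u hu
      have h2 : R / ‖u - c‖ = R * ‖c - u‖⁻¹ := by rw [div_eq_mul_inv, norm_sub_rev]
      rw [h2]
      have h3 := hlog u huB
      have h4 : (1 : ℤ) ≤ MeromorphicOn.divisor f (Metric.closedBall c |R|) u := by
        rw [MeromorphicOn.AnalyticOnNhd.divisor_apply hA huB]
        have h5 : analyticOrderAt f u ≠ 0 := by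
          intro h6
          exact ((hA u huB).analyticOrderAt_eq_zero.1 h6) (hZ u hu)
        have h6 : analyticOrderAt f u ≠ ⊤ := by
          intro h7
          rw [analyticOrderAt_eq_top] at h7
          have h8 : AnalyticOnNhd ℂ f Set.univ := fun z _ => hf.analyticAt z
          exact hc (h8.eqOn_zero_of_preconnected_of_eventuallyEq_zero isPreconnected_univ
            (Set.mem_univ u) h7 (Set.mem_univ c))
        obtain ⟨n, hn⟩ := ENat.ne_top_iff_exists.1 h6
        rw [← hn] at h5 ⊢
        have h9 : n ≠ 0 := fun h => h5 (by rw [h]; rfl)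
        have h10 : ((ENat.map (fun x : ℕ => (x : ℤ)) (n : ℕ∞))).untop₀ = (n : ℤ) := rfl
        rw [h10]
        omega
      have h5 : (1 : ℝ) ≤ (MeromorphicOn.divisor f (Metric.closedBall c |R|) u : ℝ) := by
        exact_mod_cast h4
      nlinarith
    · rw [if_neg hu]
      by_cases huB : u ∈ Metric.closedBall c |R|
      · have h6 : (0 : ℤ) ≤ MeromorphicOn.divisor f (Metric.closedBall c |R|) u :=
          MeromorphicOn.AnalyticOnNhd.divisor_nonneg hA u
        exact mul_nonneg (Int.cast_nonneg h6) (hlog u huB)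
      · rw [Function.locallyFinsuppWithin.apply_eq_zero_of_notMem _ huB, Int.cast_zero, zero_mul]

end Pool.Agent.Work.MP_7b186b_nt.CU
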