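import Mathlib
import Pool.Agent.Work.MP_7b186b_nt.CU.JenA

set_option autoImplicit false

namespace Pool.Agent.Work.MP_7b186b_nt.CU

open Finset MeasureTheory

/-
PROOF. circle_im: circleMap c R θ - c = R e^(iθ), imaginary part R sin θ; (2 pi)^(-1) int_0^(2 pi) |R sin θ| dθ = 2 R/pi
(int_0^pi sin = 2, split the interval). jen_b: on the circle log |f z| <= log C + τ |Im (z - c)| (if f z = 0 then log 0 = 0 and
log C >= 0), so by monotonicity of circleAverage (circleIntegrable_log_norm for meromorphic functions, see sum_divisor_le in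
JensenFormula.lean) circleAverage <= log C + τ 2R/pi; combine with jen_a and exponentiate:
log |f c| <= log C + 2 τ R/pi + sum log (|z - c|/R).
-/

theorem circle_im (c : ℂ) (R : ℝ) (hR : 0 < R) :
    Real.circleAverage (fun z => |(z - c).im|) c R = 2 * R / Real.pi := by
  rw [Real.circleAverage_def]
  have h1 : ∀ θ : ℝ, |(circleMap c R θ - c).im| = R * |Real.sin θ| := by
    intro θ
    have h2 : (circleMap c R θ - c).im = R * Real.sin θ := by
      rw [circleMap, add_sub_cancel_left, Complex.im_ofReal_mul, Complex.exp_ofReal_mul_I_im]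
    rw [h2, abs_mul, abs_of_pos hR]
  simp only [h1]
  rw [intervalIntegral.integral_const_mul]
  have h3 : ∫ θ in (0 : ℝ)..(2 * Real.pi), |Real.sin θ| = 4 := by
    rw [← intervalIntegral.integral_add_adjacent_intervals (b := Real.pi)
      ((Real.continuous_sin.abs).intervalIntegrable _ _)
      ((Real.continuous_sin.abs).intervalIntegrable _ _)]
    have h4 : ∫ θ in (0 : ℝ)..Real.pi, |Real.sin θ| = ∫ θ in (0 : ℝ)..Real.pi, Real.sin θ := by
      refine intervalIntegral.integral_congr fun θ hθ => ?_
      rw [Set.uIcc_of_le Real.pi_pos.le] at hθ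
      exact abs_of_nonneg (Real.sin_nonneg_of_nonneg_of_le_pi hθ.1 hθ.2)
    have h5 : ∫ θ in Real.pi..(2 * Real.pi), |Real.sin θ| =
        ∫ θ in Real.pi..(2 * Real.pi), - Real.sin θ := by
      refine intervalIntegral.integral_congr fun θ hθ => ?_
      rw [Set.uIcc_of_le (by linarith [Real.pi_pos])] at hθ
      have h6 : Real.sin θ = - Real.sin (θ - Real.pi) := by
        rw [Real.sin_sub_pi, neg_neg]
      have h7 : 0 ≤ Real.sin (θ - Real.pi) :=
        Real.sin_nonneg_of_nonneg_of_le_pi (by linarith [hθ.1]) (by linarith [hθ.2])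
      exact abs_of_nonpos (by rw [h6]; linarith)
    rw [h4, h5, intervalIntegral.integral_neg, integral_sin, integral_sin, Real.cos_zero,
      Real.cos_pi, Real.cos_two_pi]
    norm_num
  rw [h3, smul_eq_mul]
  have := Real.pi_pos
  field_simp
  norm_num

/-- Functions of exponential type with many zeros near `c` are small at `c`. -/
theorem jen_b (f : ℂ → ℂ) (hf : Differentiable ℂ f) (c : ℂ) (R C τ : ℝ) (hR : 0 < R)
    (hC : 1 ≤ C) (hτ : 0 ≤ τ) (hb : ∀ z, ‖z - c‖ = R → ‖f z‖ ≤ C * Real.exp (τ * |(z - c).im|))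
    (Z : Finset ℂ) (hZ : ∀ z ∈ Z, f z = 0) (hZc : ∀ z ∈ Z, z ≠ c) (hZR : ∀ z ∈ Z, ‖z - c‖ ≤ R) :
    ‖f c‖ ≤ C * Real.exp (2 * τ * R / Real.pi) * ∏ z ∈ Z, (‖z - c‖ / R) := by
  have hprod : 0 ≤ ∏ z ∈ Z, (‖z - c‖ / R) := Finset.prod_nonneg fun z _ => by positivity
  by_cases hc : f c = 0
  · rw [hc, norm_zero]
    positivity
  have h1 := jen_a f hf c R hR hc Z hZ hZR
  have hfc : 0 < ‖f c‖ := norm_pos_iff.2 hc
  have hcont : Continuous fun z : ℂ => |(z - c).im| := by fun_prop
  have hci1 : CircleIntegrable (fun z : ℂ => |(z - c).im|) c R :=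
    hcont.continuousOn.circleIntegrable'
  have hci2 : CircleIntegrable (fun z : ℂ => Real.log C + τ * |(z - c).im|) c R :=
    (by fun_prop : Continuous fun z : ℂ => Real.log C + τ * |(z - c).im|).continuousOn.circleIntegrable'
  have hci3 : CircleIntegrable (fun z => Real.log ‖f z‖) c R :=
    MeromorphicOn.circleIntegrable_log_norm
      (f := f) fun z _ => (hf.analyticAt z).meromorphicAt
  have h2 : Real.circleAverage (fun z => Real.log ‖f z‖) c R ≤
      Real.circleAverage (fun z => Real.log C + τ * |(z - c).im|) c R := by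
    refine Real.circleAverage_mono hci3 hci2 fun z hz => ?_
    have hz' : ‖z - c‖ = R := by
      rw [Metric.mem_sphere, dist_eq_norm, abs_of_pos hR] at hz
      exact hz
    have hlC : 0 ≤ Real.log C := Real.log_nonneg hC
    by_cases hz0 : f z = 0
    · rw [hz0, norm_zero, Real.log_zero]
      positivity
    · have h3 := Real.log_le_log (norm_pos_iff.2 hz0) (hb z hz')
      rw [Real.log_mul (by positivity) (Real.exp_pos _).ne', Real.log_exp] at h3
      exact h3
  have h3 : Real.circleAverage (fun z => Real.log C + τ * |(z - c).im|) c R =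
      Real.log C + τ * (2 * R / Real.pi) := by
    have h4 : CircleIntegrable (fun z : ℂ => τ * |(z - c).im|) c R :=
      (by fun_prop : Continuous fun z : ℂ => τ * |(z - c).im|).continuousOn.circleIntegrable'
    rw [Real.circleAverage_fun_add (f₁ := fun _ => Real.log C) (by simp) h4,
      Real.circleAverage_const]
    congr 1
    have h5 := Real.circleAverage_fun_smul (𝕜 := ℝ) (a := τ) (f := fun z : ℂ => |(z - c).im|)
      (c := c) (R := R)
    simp only [smul_eq_mul] at h5
    rw [h5, circle_im c R hR]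
  have h4 : ∑ z ∈ Z, Real.log (R / ‖z - c‖) = - Real.log (∏ z ∈ Z, (‖z - c‖ / R)) := by
    rw [Real.log_prod (fun z hz => by
      have := norm_pos_iff.2 (sub_ne_zero.2 (hZc z hz))
      positivity), ← Finset.sum_neg_distrib]
    refine Finset.sum_congr rfl fun z _ => ?_
    rw [← Real.log_inv, inv_div]
  have hprod' : 0 < ∏ z ∈ Z, (‖z - c‖ / R) := Finset.prod_pos fun z hz => by
    have := norm_pos_iff.2 (sub_ne_zero.2 (hZc z hz))
    positivity
  rw [← Real.exp_log hfc, ← Real.exp_log (show 0 < C by linarith), ← Real.exp_log hprod',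
    ← Real.exp_add, ← Real.exp_add]
  refine Real.exp_le_exp.2 ?_
  have h5 : 2 * τ * R / Real.pi = τ * (2 * R / Real.pi) := by ring
  rw [h5]
  linarith

end Pool.Agent.Work.MP_7b186b_nt.CU
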