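import Mathlib
import Pool.Agent.Work.MP_7b186b_nt.CU.Defs2
import Pool.Agent.Work.MP_7b186b_nt.CU.JenB

set_option autoImplicit false

namespace Pool.Agent.Work.MP_7b186b_nt.CU

open Finset MeasureTheory

/-
PROOF. n >= 1 because natDegree F < n. If δ = 0 or δ = 1 then t itself is a zero (m = 0) and the left side is 0. Let 0 < δ < 1,
F = sum_{m<n} c_m X^m, sum |c_m|^2 = 1 (Parseval in one variable), f(z) = exp(-i pi (n-1) z) F(exp(2 pi i z)), entire, |f(t)| = |F(e1 t)|.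
For z = x + i y: |f(z)| <= sum |c_m| e^(-2 pi (m - (n-1)/2) y) <= e^(pi n |y|) sum |c_m| <= sqrt n e^(pi n |y|). Zeros of f: the 2 R₀
distinct real points t + (δ + m) h, t - (1 - δ + m) h, m < R₀, all within distance R₀ h of t. jen_b with C = sqrt n, τ = pi n, R = R₀ h:
|f(t)| <= sqrt n exp(2 n R₀ h) prod_{m<R₀} ((δ+m)/R₀) ((1-δ+m)/R₀) <= sqrt n exp(2 n R₀ h) (R₀!/R₀^R₀)^2. Square.
-/

private theorem e1_cont : Continuous e1 := by
  unfold e1
  fun_prop

private theorem e1_int (m l : ℕ) : ∫ s in Set.Icc (0 : ℝ) 1, e1 s ^ m * (starRingEnd ℂ) (e1 s ^ l) =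
    if m = l then 1 else 0 := by
  have h0 : ∀ s : ℝ, e1 s ^ m * (starRingEnd ℂ) (e1 s ^ l) =
      Complex.exp ((2 * Real.pi * ((m : ℤ) - (l : ℤ) : ℤ) * Complex.I) * s) := by
    intro s
    unfold e1
    rw [map_pow, ← Complex.exp_conj, ← Complex.exp_nat_mul, ← Complex.exp_nat_mul, ← Complex.exp_add]
    congr 1
    simp only [map_mul, Complex.conj_I, Complex.conj_ofReal, map_ofNat]
    push_cast
    ring
  simp_rw [h0]
  rw [integral_Icc_eq_integral_Ioc, ← intervalIntegral.integral_of_le zero_le_one]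
  split_ifs with h
  · subst h
    simp
  · have hc : (2 * Real.pi * ((m : ℤ) - (l : ℤ) : ℤ) * Complex.I : ℂ) ≠ 0 := by
      have h1 : (((m : ℤ) - (l : ℤ) : ℤ) : ℂ) ≠ 0 := Int.cast_ne_zero.2 (by omega)
      have h2 : (Real.pi : ℂ) ≠ 0 := Complex.ofReal_ne_zero.2 Real.pi_ne_zero
      exact mul_ne_zero (mul_ne_zero (mul_ne_zero two_ne_zero h2) h1) Complex.I_ne_zero
    rw [integral_exp_mul_complex hc]
    have h4 : (2 * Real.pi * ((m : ℤ) - (l : ℤ) : ℤ) * Complex.I) * ((1 : ℝ) : ℂ) =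
        ((m : ℤ) - (l : ℤ) : ℤ) * (2 * Real.pi * Complex.I) := by
      push_cast
      ring
    rw [h4, Complex.exp_int_mul_two_pi_mul_I]
    simp

private theorem pars1 (n : ℕ) (F : Polynomial ℂ) (hF : F.natDegree < n)
    (hn : ∫ s in Set.Icc (0 : ℝ) 1, ‖F.eval (e1 s)‖ ^ 2 = 1) :
    ∑ m ∈ range n, ‖F.coeff m‖ ^ 2 = 1 := by
  have h1 : ∀ s : ℝ, ((‖F.eval (e1 s)‖ ^ 2 : ℝ) : ℂ) = ∑ m ∈ range n, ∑ l ∈ range n,
      F.coeff m * (starRingEnd ℂ) (F.coeff l) * (e1 s ^ m * (starRingEnd ℂ) (e1 s ^ l)) := by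
    intro s
    rw [Complex.ofReal_pow, ← Complex.mul_conj', Polynomial.eval_eq_sum_range' hF, map_sum,
      Finset.sum_mul_sum]
    refine Finset.sum_congr rfl fun m _ => Finset.sum_congr rfl fun l _ => ?_
    rw [map_mul]
    ring
  apply Complex.ofReal_injective
  rw [Complex.ofReal_one, ← Complex.ofReal_one, ← hn, ← integral_complex_ofReal]
  simp_rw [h1]
  have hi : ∀ m l : ℕ, Integrable (fun s => F.coeff m * (starRingEnd ℂ) (F.coeff l) *
      (e1 s ^ m * (starRingEnd ℂ) (e1 s ^ l))) (volume.restrict (Set.Icc (0 : ℝ) 1)) := by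
    intro m l
    refine Integrable.const_mul ?_ _
    exact ((e1_cont.pow m).mul (Complex.continuous_conj.comp (e1_cont.pow l))).continuousOn.integrableOn_Icc
  rw [integral_finsetSum _ fun m _ => integrable_finsetSum _ fun l _ => hi m l]
  push_cast
  refine Finset.sum_congr rfl fun m hm => ?_
  rw [integral_finsetSum _ fun l _ => hi m l]
  simp_rw [integral_const_mul, e1_int]
  rw [Finset.sum_eq_single m]
  · rw [if_pos rfl, mul_one, Complex.mul_conj']
  · intro l _ hl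
    rw [if_neg (Ne.symm hl), mul_zero]
  · intro h
    exact absurd hm h

private theorem sumc (n : ℕ) (F : Polynomial ℂ) (hF : F.natDegree < n)
    (hn : ∫ s in Set.Icc (0 : ℝ) 1, ‖F.eval (e1 s)‖ ^ 2 = 1) :
    ∑ m ∈ range n, ‖F.coeff m‖ ≤ Real.sqrt n := by
  apply Real.le_sqrt_of_sq_le
  have h1 := sq_sum_le_card_mul_sum_sq (s := range n) (f := fun m => ‖F.coeff m‖)
  rw [pars1 n F hF hn, Finset.card_range, mul_one] at h1
  exact h1

private noncomputable def ff (n : ℕ) (F : Polynomial ℂ) (z : ℂ) : ℂ :=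
  Complex.exp (-(Real.pi * ((n : ℂ) - 1) * Complex.I) * z) *
    F.eval (Complex.exp (2 * Real.pi * Complex.I * z))

private theorem ff_diff (n : ℕ) (F : Polynomial ℂ) : Differentiable ℂ (ff n F) := by
  unfold ff
  refine Differentiable.mul (by fun_prop) ?_
  exact F.differentiable.comp (by fun_prop)

private theorem ff_bd (n : ℕ) (F : Polynomial ℂ) (hF : F.natDegree < n)
    (hn : ∫ s in Set.Icc (0 : ℝ) 1, ‖F.eval (e1 s)‖ ^ 2 = 1) (z : ℂ) :
    ‖ff n F z‖ ≤ Real.sqrt n * Real.exp (Real.pi * n * |z.im|) := by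
  have h1 : ff n F z = ∑ m ∈ range n, F.coeff m *
      Complex.exp (Real.pi * (2 * (m : ℂ) - n + 1) * Complex.I * z) := by
    unfold ff
    rw [Polynomial.eval_eq_sum_range' hF, Finset.mul_sum]
    refine Finset.sum_congr rfl fun m _ => ?_
    rw [← Complex.exp_nat_mul, mul_left_comm, ← Complex.exp_add]
    congr 2
    ring
  rw [h1]
  have h2 : ∀ m ∈ range n, ‖F.coeff m *
      Complex.exp (Real.pi * (2 * (m : ℂ) - n + 1) * Complex.I * z)‖ ≤
      ‖F.coeff m‖ * Real.exp (Real.pi * n * |z.im|) := by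
    intro m hm
    rw [norm_mul]
    refine mul_le_mul_of_nonneg_left ?_ (norm_nonneg _)
    rw [Complex.norm_exp]
    apply Real.exp_le_exp.2
    have h3 : (Real.pi * (2 * (m : ℂ) - n + 1) * Complex.I * z).re =
        Real.pi * (-(2 * (m : ℝ) - n + 1) * z.im) := by
      have h4 : (Real.pi * (2 * (m : ℂ) - n + 1) * Complex.I * z) =
          ((Real.pi * (2 * (m : ℝ) - n + 1) : ℝ) : ℂ) * (Complex.I * z) := by
        push_cast
        ring
      rw [h4, Complex.re_ofReal_mul]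
      simp
      ring
    rw [h3, mul_assoc]
    refine mul_le_mul_of_nonneg_left ?_ Real.pi_pos.le
    have hmn : (m : ℝ) + 1 ≤ n := by exact_mod_cast Finset.mem_range.1 hm
    have hm0 : (0 : ℝ) ≤ m := Nat.cast_nonneg m
    have h5 : |-(2 * (m : ℝ) - n + 1)| ≤ n := by
      rw [abs_le]
      constructor <;> linarith
    calc -(2 * (m : ℝ) - n + 1) * z.im ≤ |-(2 * (m : ℝ) - n + 1) * z.im| := le_abs_self _
      _ = |-(2 * (m : ℝ) - n + 1)| * |z.im| := abs_mul _ _
      _ ≤ n * |z.im| := mul_le_mul_of_nonneg_right h5 (abs_nonneg _)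
  refine (norm_sum_le_of_le _ h2).trans ?_
  rw [← Finset.sum_mul]
  exact mul_le_mul_of_nonneg_right (sumc n F hF hn) (Real.exp_pos _).le

private theorem ff_real (n : ℕ) (F : Polynomial ℂ) (x : ℝ) :
    ff n F x = Complex.exp (-(Real.pi * ((n : ℂ) - 1) * Complex.I) * x) * F.eval (e1 x) := by
  unfold ff e1
  congr 3
  ring

private theorem ff_norm (n : ℕ) (F : Polynomial ℂ) (x : ℝ) : ‖ff n F x‖ = ‖F.eval (e1 x)‖ := by
  rw [ff_real, norm_mul]
  have h1 : (-(Real.pi * ((n : ℂ) - 1) * Complex.I) * x) =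
      ((-(Real.pi * ((n : ℝ) - 1) * x) : ℝ) : ℂ) * Complex.I := by
    push_cast
    ring
  rw [h1, Complex.norm_exp_ofReal_mul_I, one_mul]

/-- pointwise bound for a normalized polynomial with `2 R₀` zeros near `t` -/
theorem pt_bound (n R₀ : ℕ) (hR : 1 ≤ R₀) (h t δ : ℝ) (hh : 0 < h) (hδ0 : 0 ≤ δ) (hδ1 : δ ≤ 1)
    (F : Polynomial ℂ) (hF : F.natDegree < n)
    (hn : ∫ s in Set.Icc (0 : ℝ) 1, ‖F.eval (e1 s)‖ ^ 2 = 1)
    (hz : ∀ m : ℕ, m < R₀ → F.eval (e1 (t + (δ + m) * h)) = 0 ∧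
      F.eval (e1 (t - (1 - δ + m) * h)) = 0) :
    ‖F.eval (e1 t)‖ ^ 2 ≤
      n * Real.exp (4 * n * R₀ * h) * ((R₀.factorial : ℝ) / (R₀ : ℝ) ^ R₀) ^ 4 := by
  classical
  have hR0 : (0 : ℝ) < R₀ := by exact_mod_cast hR
  have hrhs : 0 ≤ n * Real.exp (4 * n * R₀ * h) * ((R₀.factorial : ℝ) / (R₀ : ℝ) ^ R₀) ^ 4 := by
    positivity
  rcases hδ0.eq_or_lt with hd | hd
  · have h1 := (hz 0 hR).1
    rw [← hd] at h1
    simp only [Nat.cast_zero, add_zero, zero_mul] at h1
    rw [h1]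
    simpa using hrhs
  rcases hδ1.eq_or_lt with hd' | hd'
  · have h1 := (hz 0 hR).2
    rw [hd'] at h1
    simp only [Nat.cast_zero, add_zero, sub_self, zero_mul, sub_zero] at h1
    rw [h1]
    simpa using hrhs
  have hn1 : 1 ≤ n := by omega
  obtain ⟨a, ha⟩ : ∃ a : ℕ → ℂ, ∀ m, a m = ((t + (δ + m) * h : ℝ) : ℂ) := ⟨_, fun _ => rfl⟩
  obtain ⟨b, hb⟩ : ∃ b : ℕ → ℂ, ∀ m, b m = ((t - (1 - δ + m) * h : ℝ) : ℂ) := ⟨_, fun _ => rfl⟩
  have hac : ∀ m, ‖a m - (t : ℂ)‖ = (δ + m) * h := by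
    intro m
    rw [ha, ← Complex.ofReal_sub, Complex.norm_real, Real.norm_eq_abs]
    rw [show t + (δ + m) * h - t = (δ + m) * h by ring]
    exact abs_of_nonneg (by positivity)
  have hbc : ∀ m, ‖b m - (t : ℂ)‖ = (1 - δ + m) * h := by
    intro m
    rw [hb, ← Complex.ofReal_sub, Complex.norm_real, Real.norm_eq_abs]
    rw [show t - (1 - δ + m) * h - t = -((1 - δ + m) * h) by ring, abs_neg]
    have : 0 ≤ 1 - δ := by linarith
    exact abs_of_nonneg (by positivity)
  have hai : Function.Injective a := by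
    intro m m' hm
    have h1 := hac m
    rw [hm, hac m'] at h1
    have h2 := mul_right_cancel₀ hh.ne' h1
    have h3 : (m' : ℝ) = m := by linarith
    exact_mod_cast h3.symm
  have hbi : Function.Injective b := by
    intro m m' hm
    have h1 := hbc m
    rw [hm, hbc m'] at h1
    have h2 := mul_right_cancel₀ hh.ne' h1
    have h3 : (m' : ℝ) = m := by linarith
    exact_mod_cast h3.symm
  have hab : ∀ m m', a m ≠ b m' := by
    intro m m' hm
    rw [ha, hb] at hm
    have h1 := Complex.ofReal_injective hm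
    have h2 : (0 : ℝ) < (δ + m) * h := by positivity
    have h3 : (0 : ℝ) < 1 - δ := by linarith
    have h4 : (0 : ℝ) < (1 - δ + m') * h := by positivity
    linarith
  have hpos : 0 < R₀ * h := mul_pos hR0 hh
  have hsq : 1 ≤ Real.sqrt n := by
    rw [← Real.sqrt_one]
    exact Real.sqrt_le_sqrt (by exact_mod_cast hn1)
  have key := jen_b (ff n F) (ff_diff n F) t (R₀ * h) (Real.sqrt n) (Real.pi * n) hpos hsq
    (by positivity) (by
      intro z _
      have h1 : (z - (t : ℂ)).im = z.im := by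
        rw [Complex.sub_im, Complex.ofReal_im, sub_zero]
      rw [h1]
      exact ff_bd n F hF hn z)
    ((range R₀).image a ∪ (range R₀).image b) (by
      intro z hz'
      rcases Finset.mem_union.1 hz' with h1 | h1
      · obtain ⟨m, hm, rfl⟩ := Finset.mem_image.1 h1
        rw [ha, ff_real, (hz m (Finset.mem_range.1 hm)).1, mul_zero]
      · obtain ⟨m, hm, rfl⟩ := Finset.mem_image.1 h1
        rw [hb, ff_real, (hz m (Finset.mem_range.1 hm)).2, mul_zero]) (by
      intro z hz' hzt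
      have h3 : ‖z - (t : ℂ)‖ = 0 := by rw [hzt, sub_self, norm_zero]
      rcases Finset.mem_union.1 hz' with h1 | h1
      · obtain ⟨m, hm, rfl⟩ := Finset.mem_image.1 h1
        rw [hac] at h3
        have : (0 : ℝ) < (δ + m) * h := by positivity
        linarith
      · obtain ⟨m, hm, rfl⟩ := Finset.mem_image.1 h1
        rw [hbc] at h3
        have h4 : (0 : ℝ) < 1 - δ := by linarith
        have : (0 : ℝ) < (1 - δ + m) * h := by positivity
        linarith) (by
      intro z hz'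
      rcases Finset.mem_union.1 hz' with h1 | h1
      · obtain ⟨m, hm, rfl⟩ := Finset.mem_image.1 h1
        rw [hac]
        have hm1 : (m : ℝ) + 1 ≤ R₀ := by exact_mod_cast Finset.mem_range.1 hm
        exact mul_le_mul_of_nonneg_right (by linarith) hh.le
      · obtain ⟨m, hm, rfl⟩ := Finset.mem_image.1 h1
        rw [hbc]
        have hm1 : (m : ℝ) + 1 ≤ R₀ := by exact_mod_cast Finset.mem_range.1 hm
        exact mul_le_mul_of_nonneg_right (by linarith) hh.le)
  rw [ff_norm] at key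
  have hdis : Disjoint ((range R₀).image a) ((range R₀).image b) := by
    rw [Finset.disjoint_left]
    intro z h1 h2
    obtain ⟨m, hm, rfl⟩ := Finset.mem_image.1 h1
    obtain ⟨m', hm', h3⟩ := Finset.mem_image.1 h2
    exact hab m m' h3.symm
  rw [Finset.prod_union hdis, Finset.prod_image (fun _ _ _ _ h => hai h),
    Finset.prod_image (fun _ _ _ _ h => hbi h), ← Finset.prod_mul_distrib] at key
  have hprod : ∏ m ∈ range R₀, (‖a m - (t : ℂ)‖ / (R₀ * h) * (‖b m - (t : ℂ)‖ / (R₀ * h))) ≤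
      ((R₀.factorial : ℝ) / (R₀ : ℝ) ^ R₀) ^ 2 := by
    have h1 : ((R₀.factorial : ℝ) / (R₀ : ℝ) ^ R₀) ^ 2 = ∏ m ∈ range R₀, (((m : ℝ) + 1) / R₀) ^ 2 := by
      rw [Finset.prod_pow]
      congr 1
      rw [Finset.prod_div_distrib, Finset.prod_const, Finset.card_range]
      congr 1
      rw [← Finset.prod_range_add_one_eq_factorial]
      push_cast
      rfl
    rw [h1]
    refine Finset.prod_le_prod (fun m _ => by positivity) fun m _ => ?_
    rw [hac, hbc, mul_div_mul_right _ _ hh.ne', mul_div_mul_right _ _ hh.ne', div_mul_div_comm, div_pow,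
      ← pow_two]
    have hm0 : (0 : ℝ) ≤ m := Nat.cast_nonneg m
    refine div_le_div_of_nonneg_right ?_ (by positivity)
    nlinarith [mul_pos hd (by linarith : (0 : ℝ) < 1 - δ), sq_nonneg (δ - 1 / 2)]
  have hexp : 2 * (Real.pi * n) * (R₀ * h) / Real.pi = 2 * n * R₀ * h := by
    field_simp
  rw [hexp] at key
  have key2 : ‖F.eval (e1 t)‖ ≤ Real.sqrt n * Real.exp (2 * n * R₀ * h) *
      ((R₀.factorial : ℝ) / (R₀ : ℝ) ^ R₀) ^ 2 :=
    key.trans (mul_le_mul_of_nonneg_left hprod (by positivity))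
  calc ‖F.eval (e1 t)‖ ^ 2 ≤ (Real.sqrt n * Real.exp (2 * n * R₀ * h) *
      ((R₀.factorial : ℝ) / (R₀ : ℝ) ^ R₀) ^ 2) ^ 2 := by
        exact pow_le_pow_left₀ (norm_nonneg _) key2 2
    _ = (Real.sqrt n) ^ 2 * (Real.exp (2 * n * R₀ * h)) ^ 2 * ((R₀.factorial : ℝ) / (R₀ : ℝ) ^ R₀) ^ 4 := by
        ring
    _ = _ := by
        rw [Real.sq_sqrt (Nat.cast_nonneg n), ← Real.exp_nat_mul]
        congr 3
        push_cast
        ring

end Pool.Agent.Work.MP_7b186b_nt.CU
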