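import Mathlib
import Pool.Agent.Work.MP_7b186b_nt.CU.Defs2

set_option autoImplicit false

namespace Pool.Agent.Work.MP_7b186b_nt.CU

open Finset MeasureTheory

/-
PROOF. pz is a monic product of k linear factors. The points w_l = e1 t_l have modulus 1. pz_pal: q := the polynomial with
coefficients conj (coefficient), q = prod (X - conj w_l); its reverse is prod (1 - conj w_l X) = prod (- conj w_l) prod (X - w_l) since
conj w_l w_l = 1 (Polynomial.reverse_mul_of_domain), so reverse q = u pz with u = prod (- conj w_l), |u| = 1; compare coefficients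
(coefficient m of the reverse is coefficient k - m of q; Polynomial.coeff_reverse, revAt_le).
-/

private theorem prod_deg (w : ℕ → ℂ) (k : ℕ) :
    (∏ l ∈ range k, (Polynomial.X - Polynomial.C (w l))).natDegree = k := by
  rw [Polynomial.natDegree_prod_of_monic _ _ (fun l _ => Polynomial.monic_X_sub_C _)]
  simp

private theorem prod_pal (w : ℕ → ℂ) (hw : ∀ l, ‖w l‖ = 1) (k : ℕ) : ∃ u : ℂ, ‖u‖ = 1 ∧
    ((∏ l ∈ range k, (Polynomial.X - Polynomial.C (w l))).map (starRingEnd ℂ)).reflect k =
      Polynomial.C u * ∏ l ∈ range k, (Polynomial.X - Polynomial.C (w l)) := by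
  induction k with
  | zero =>
    refine ⟨1, norm_one, ?_⟩
    simp
  | succ k ih =>
    obtain ⟨u, hu, hk⟩ := ih
    refine ⟨u * (-(starRingEnd ℂ) (w k)), ?_, ?_⟩
    · rw [norm_mul, norm_neg, RCLike.norm_conj, hu, hw k, mul_one]
    · rw [Finset.prod_range_succ, Polynomial.map_mul]
      have hd : ((∏ l ∈ range k, (Polynomial.X - Polynomial.C (w l))).map
          (starRingEnd ℂ)).natDegree ≤ k := by
        rw [Polynomial.natDegree_map, prod_deg]
      have hd1 : ((Polynomial.X - Polynomial.C (w k)).map (starRingEnd ℂ)).natDegree ≤ 1 := by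
        rw [Polynomial.natDegree_map]
        exact (Polynomial.natDegree_X_sub_C_le _)
      rw [Polynomial.reflect_mul _ _ hd hd1, hk]
      have h1 : ((Polynomial.X - Polynomial.C (w k)).map (starRingEnd ℂ)).reflect 1 =
          Polynomial.C (-(starRingEnd ℂ) (w k)) * (Polynomial.X - Polynomial.C (w k)) := by
        rw [Polynomial.map_sub, Polynomial.map_X, Polynomial.map_C, Polynomial.reflect_sub,
          Polynomial.reflect_one_X, Polynomial.reflect_C, pow_one, mul_sub, ← Polynomial.C_mul]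
        have h2 : -(starRingEnd ℂ) (w k) * w k = -1 := by
          rw [neg_mul, mul_comm, Complex.mul_conj, Complex.normSq_eq_norm_sq, hw k]
          simp
        rw [h2, Polynomial.C_neg, Polynomial.C_neg, Polynomial.C_1]
        ring
      rw [h1, Polynomial.C_mul]
      ring

private theorem e1_norm (t : ℝ) : ‖e1 t‖ = 1 := by
  unfold e1
  have h1 : 2 * (Real.pi : ℂ) * t * Complex.I = ((2 * Real.pi * t : ℝ) : ℂ) * Complex.I := by
    push_cast
    ring
  rw [h1, Complex.norm_exp_ofReal_mul_I]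

theorem pz_ne (k : ℕ) (h : ℝ) : pz k h ≠ 0 := by
  unfold pz
  exact (Polynomial.monic_prod_of_monic _ _ (fun l _ => Polynomial.monic_X_sub_C _)).ne_zero

theorem pz_deg (k : ℕ) (h : ℝ) : (pz k h).natDegree = k :=
  prod_deg (fun l => e1 (((l : ℝ) - ((k : ℝ) - 1) / 2) * h)) k

/-- a multiple of `pz` vanishes at the zeros -/
theorem pz_zero (k : ℕ) (h : ℝ) (F : Polynomial ℂ) (hF : pz k h ∣ F) (l : ℕ) (hl : l < k) :
    F.eval (e1 (((l : ℝ) - ((k : ℝ) - 1) / 2) * h)) = 0 := by
  obtain ⟨Q, rfl⟩ := hF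
  rw [Polynomial.eval_mul]
  have h1 : (pz k h).eval (e1 (((l : ℝ) - ((k : ℝ) - 1) / 2) * h)) = 0 := by
    unfold pz
    rw [Polynomial.eval_prod]
    exact Finset.prod_eq_zero (mem_range.mpr hl) (by simp)
  rw [h1, zero_mul]

/-- self-reciprocal up to a constant of modulus one -/
theorem pz_pal (k : ℕ) (h : ℝ) : ∃ u : ℂ, ‖u‖ = 1 ∧
    ∀ m ≤ k, (starRingEnd ℂ) ((pz k h).coeff (k - m)) = u * (pz k h).coeff m := by
  obtain ⟨u, hu, hk⟩ := prod_pal (fun l => e1 (((l : ℝ) - ((k : ℝ) - 1) / 2) * h))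
    (fun l => e1_norm _) k
  refine ⟨u, hu, fun m hm => ?_⟩
  have h1 : ((pz k h).map (starRingEnd ℂ)).reflect k = Polynomial.C u * pz k h := hk
  have h2 : (((pz k h).map (starRingEnd ℂ)).reflect k).coeff m =
      (Polynomial.C u * pz k h).coeff m := by rw [h1]
  rw [Polynomial.coeff_reflect, Polynomial.revAt_le hm, Polynomial.coeff_map,
    Polynomial.coeff_C_mul] at h2
  exact h2

end Pool.Agent.Work.MP_7b186b_nt.CU
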