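import Mathlib
import Pool.Agent.Work.MP_7b186b_nt.CU.Defs2
import Pool.Agent.Work.MP_7b186b_nt.CU.PtJ
import Pool.Agent.Work.MP_7b186b_nt.CU.PzA

set_option autoImplicit false

namespace Pool.Agent.Work.MP_7b186b_nt.CU

open Finset MeasureTheory

/-
PROOF. u = t/h + (k-1)/2 lies in [R₀, k - 1 - R₀] (real numbers). l = ceiling of u, δ = l - u in [0, 1). The zero number j of pz is
at t_j = (j - (k-1)/2) h, so t_(l+m) = t + (δ + m) h with l + m <= l + R₀ - 1 < u + R₀ <= k - 1 (an integer < k), and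
t_(l-1-m) = t - (1 - δ + m) h with l - 1 - m >= l - R₀ >= u - R₀ >= 0. pz_zero and pt_bound.
-/

/-- pointwise bound inside the arc of zeros -/
theorem arc_bound (n k R₀ : ℕ) (hR : 1 ≤ R₀) (h t : ℝ) (hh : 0 < h)
    (F : Polynomial ℂ) (hF : F.natDegree < n)
    (hn : ∫ s in Set.Icc (0 : ℝ) 1, ‖F.eval (e1 s)‖ ^ 2 = 1) (hdiv : pz k h ∣ F)
    (ht : |t| + R₀ * h ≤ ((k : ℝ) - 1) / 2 * h) :
    ‖F.eval (e1 t)‖ ^ 2 ≤
      n * Real.exp (4 * n * R₀ * h) * ((R₀.factorial : ℝ) / (R₀ : ℝ) ^ R₀) ^ 4 := by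
  set u : ℝ := t / h + ((k : ℝ) - 1) / 2 with hu
  have htu : t = (u - ((k : ℝ) - 1) / 2) * h := by
    rw [hu]
    field_simp
    ring
  have hR0 : (1 : ℝ) ≤ R₀ := by exact_mod_cast hR
  have habs := abs_le.mp (show |t| ≤ (((k : ℝ) - 1) / 2 - R₀) * h by linarith)
  have hu1 : (R₀ : ℝ) ≤ u := by
    have h1 := habs.1
    rw [htu] at h1
    have h2 : (R₀ : ℝ) * h ≤ u * h := by linarith
    exact le_of_mul_le_mul_right h2 hh
  have hu2 : u ≤ k - 1 - R₀ := by
    have h1 := habs.2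
    rw [htu] at h1
    have h2 : u * h ≤ (k - 1 - R₀) * h := by linarith
    exact le_of_mul_le_mul_right h2 hh
  have hu0 : 0 ≤ u := by linarith
  set l : ℕ := ⌈u⌉₊ with hl
  have hl1 : u ≤ l := Nat.le_ceil u
  have hl2 : (l : ℝ) < u + 1 := Nat.ceil_lt_add_one hu0
  have hl3 : R₀ ≤ l := by
    have : (R₀ : ℝ) ≤ l := by linarith
    exact_mod_cast this
  have hl4 : l + R₀ ≤ k := by
    have h1 : ((l + R₀ : ℕ) : ℝ) < ((k + 1 : ℕ) : ℝ) := by
      push_cast
      linarith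
    have h2 : l + R₀ < k + 1 := by exact_mod_cast h1
    omega
  refine pt_bound n R₀ hR h t (l - u) hh (by linarith) (by linarith) F hF hn (fun m hm => ?_)
  constructor
  · have h1 := pz_zero k h F hdiv (l + m) (by omega)
    have h2 : (((l + m : ℕ) : ℝ) - ((k : ℝ) - 1) / 2) * h = t + ((l : ℝ) - u + m) * h := by
      rw [htu]
      push_cast
      ring
    rw [h2] at h1
    exact h1
  · have h1 := pz_zero k h F hdiv (l - 1 - m) (by omega)
    have h2 : (((l - 1 - m : ℕ) : ℝ) - ((k : ℝ) - 1) / 2) * h =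
        t - (1 - ((l : ℝ) - u) + m) * h := by
      rw [htu]
      have h3 : ((l - 1 - m : ℕ) : ℝ) = (l : ℝ) - 1 - m := by
        rw [Nat.cast_sub (by omega), Nat.cast_sub (by omega)]
        push_cast
        ring
      rw [h3]
      ring
    rw [h2] at h1
    exact h1

end Pool.Agent.Work.MP_7b186b_nt.CU
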