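import Mathlib
import Pool.Agent.Work.MP_7b186b_nt.CU.Defs2
import Pool.Agent.Work.MP_7b186b_nt.CU.Int
import Pool.Agent.Work.MP_7b186b_nt.CU.TwA
import Pool.Agent.Work.MP_7b186b_nt.CU.TrI

set_option autoImplicit false

namespace Pool.Agent.Work.MP_7b186b_nt.CU

open Finset MeasureTheory

/-
PROOF. The weights c_r sum to 1 (hφ at d = 0, φ 0 = 1, e1 0 = 1), so by tw_avg and convexity of the square of the norm
|ev (tw K φ G) θ|^2 <= sum_r c_r |ev G (θ + s_r)|^2. Multiply by cnt |vd|^2 >= 0 and integrate over the cube (everything is bounded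
and measurable: continuous functions times the indicator functions of cnt), then tr_inv.
-/

theorem avg_bound {N : ℕ} (K : ℕ) (φ : ℕ → ℝ) (G : MvPolynomial (Fin N) ℂ)
    (hK : G.totalDegree ≤ K) (M : ℕ) (s c : ℕ → ℝ) (hc : ∀ r, 0 ≤ c r) (h0 : φ 0 = 1)
    (hφ : ∀ d : ℕ, d ≤ K → ∑ r ∈ range M, (c r : ℂ) * e1 (d * s r) = ((φ d : ℝ) : ℂ))
    (a L : ℝ) (hL0 : 0 ≤ L) (hL1 : L ≤ 1) :
    cue N (fun θ => ‖ev (tw K φ G) θ‖ ^ 2 * cnt a L θ) ≤
      ∑ r ∈ range M, c r * cue N (fun θ => ‖ev G θ‖ ^ 2 * cnt (a + s r) L θ) := by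
  have hsum1 : ∑ r ∈ range M, c r = 1 := by
    have h1 := hφ 0 (Nat.zero_le _)
    have h2 : ∑ r ∈ range M, (c r : ℂ) = 1 := by
      have h3 : ∑ r ∈ range M, (c r : ℂ) * e1 (((0 : ℕ) : ℝ) * s r) = ∑ r ∈ range M, (c r : ℂ) := by
        refine Finset.sum_congr rfl (fun r _ => ?_)
        simp [e1]
      rw [← h3, h1, h0]
      simp
    exact_mod_cast h2
  have hpt : ∀ θ : Fin N → ℝ, ‖ev (tw K φ G) θ‖ ^ 2 ≤
      ∑ r ∈ range M, c r * ‖ev G (fun i => θ i + s r)‖ ^ 2 := by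
    intro θ
    rw [tw_avg K φ G hK M s c hφ θ]
    have h1 : ‖∑ r ∈ range M, (c r : ℂ) * ev G (fun i => θ i + s r)‖ ≤
        ∑ r ∈ range M, c r * ‖ev G (fun i => θ i + s r)‖ := by
      refine (norm_sum_le _ _).trans (Finset.sum_le_sum (fun r _ => ?_))
      rw [norm_mul, Complex.norm_real, Real.norm_eq_abs, abs_of_nonneg (hc r)]
    have h2 : (∑ r ∈ range M, c r * ‖ev G (fun i => θ i + s r)‖) ^ 2 ≤
        (∑ r ∈ range M, c r) * ∑ r ∈ range M, c r * ‖ev G (fun i => θ i + s r)‖ ^ 2 := by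
      refine Finset.sum_sq_le_sum_mul_sum_of_sq_eq_mul _ (fun r _ => hc r)
        (fun r _ => mul_nonneg (hc r) (by positivity)) (fun r _ => ?_)
      ring
    rw [hsum1, one_mul] at h2
    exact (pow_le_pow_left₀ (norm_nonneg _) h1 2).trans h2
  simp_rw [← tr_inv G a L _ hL0 hL1]
  unfold cue
  simp_rw [← integral_const_mul]
  have hrot : ∀ r, Continuous (fun θ : Fin N → ℝ =>
      ‖ev G (fun i => θ i + s r)‖ ^ 2 * ‖vd θ‖ ^ 2) := by
    intro r
    have h1 : Continuous (fun θ : Fin N → ℝ => ev G (fun i => θ i + s r)) :=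
      (ev_cont G).comp (continuous_pi (fun i => (continuous_apply i).add continuous_const))
    exact (h1.norm.pow 2).mul (vd_cont.norm.pow 2)
  have hint : ∀ r ∈ range M, Integrable (fun θ : Fin N → ℝ =>
      c r * (‖ev G (fun i => θ i + s r)‖ ^ 2 * cnt a L θ * ‖vd θ‖ ^ 2))
      (volume.restrict (Set.Icc (0 : Fin N → ℝ) 1)) := by
    intro r _
    refine Integrable.const_mul ?_ (c r)
    have h := int_cnt _ (hrot r) a L
    refine h.congr (Filter.Eventually.of_forall (fun θ => ?_))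
    simp only
    ring
  rw [← integral_finsetSum _ hint]
  refine integral_mono ?_ (integrable_finsetSum _ hint) (fun θ => ?_)
  · have hc1 : Continuous (fun θ : Fin N → ℝ => ‖ev (tw K φ G) θ‖ ^ 2 * ‖vd θ‖ ^ 2) :=
      ((ev_cont _).norm.pow 2).mul (vd_cont.norm.pow 2)
    have h := int_cnt _ hc1 a L
    refine h.congr (Filter.Eventually.of_forall (fun θ => ?_))
    simp only
    ring
  · simp only
    have h1 : 0 ≤ cnt a L θ * ‖vd θ‖ ^ 2 := by
      have := cnt_nonneg a L θ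
      positivity
    have h2 := mul_le_mul_of_nonneg_right (hpt θ) h1
    rw [Finset.sum_mul] at h2
    calc ‖ev (tw K φ G) θ‖ ^ 2 * cnt a L θ * ‖vd θ‖ ^ 2
        = ‖ev (tw K φ G) θ‖ ^ 2 * (cnt a L θ * ‖vd θ‖ ^ 2) := by ring
      _ ≤ _ := h2
      _ = _ := by
          refine Finset.sum_congr rfl (fun r _ => ?_)
          ring

end Pool.Agent.Work.MP_7b186b_nt.CU
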