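import Mathlib
import Pool.Agent.Work.MP_7b186b_nt.CU.Defs2

set_option autoImplicit false

namespace Pool.Agent.Work.MP_7b186b_nt.CU

open Finset MeasureTheory

/-
PROOF. Take m₀ >= K + b with m₀ >= 1/y, M = 2 m₀ + 1, s r = (r - m₀)/M in (-1/2, 1/2), c r = |sum_{m<b} e1 (m s_r)|^2/(b M) >= 0.
Expanding, sum_r c_r e^(2 pi i d s_r) = (1/(b M)) sum_{m,m'<b} sum_r e^(2 pi i (m - m' + d)(r - m₀)/M); the inner sum is M if M divides
m - m' + d, else 0; as |m - m' + d| < M this means m' - m = d, and the number of such pairs is max 0 (b - d).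
Tail: |sum_{m<b} e1(m s)| <= 1/|sin(pi s)| <= 1/(2|s|) for 0 < |s| <= 1/2 (geometric sum and Jordan), so c_r <= M/(4 b j^2) with j = r - m₀;
|s_r| > y means |j| > y M >= 1, and sum_{j > x} 1/j^2 <= 1/x^2 + 1/x <= 2/x for x >= 1; two sides: (M/(4b)) * 2 * 2/(y M) = 1/(b y).
-/

private theorem fej_add (s t : ℝ) : e1 (s + t) = e1 s * e1 t := by
  unfold e1
  rw [← Complex.exp_add]
  congr 1
  push_cast
  ring

private theorem fej_conj (t : ℝ) : (starRingEnd ℂ) (e1 t) = e1 (-t) := by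
  unfold e1
  rw [← Complex.exp_conj]
  congr 1
  simp only [map_mul, Complex.conj_ofReal, Complex.conj_I, map_ofNat]
  push_cast
  ring

private theorem fej_pow (t : ℝ) (n : ℕ) : e1 t ^ n = e1 (n * t) := by
  unfold e1
  rw [← Complex.exp_nat_mul]
  congr 1
  push_cast
  ring

private theorem fej_int (n : ℤ) : e1 n = 1 := by
  unfold e1
  rw [Complex.exp_eq_one_iff]
  exact ⟨n, by push_cast; ring⟩

private theorem fej_norm (t : ℝ) : ‖e1 t‖ = 1 := by
  unfold e1
  have h : 2 * Real.pi * t * Complex.I = ((2 * Real.pi * t : ℝ) : ℂ) * Complex.I := by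
    push_cast
    ring
  rw [h, Complex.norm_exp_ofReal_mul_I]

private theorem fej_root (M : ℕ) (hM : 1 ≤ M) (a : ℝ) (n : ℤ) (hn : |n| < M) :
    ∑ r ∈ range M, e1 (n * (((r : ℝ) - a) / M)) = if n = 0 then (M : ℂ) else 0 := by
  have hM0 : (M : ℝ) ≠ 0 := by
    have : (0 : ℝ) < M := by exact_mod_cast hM
    exact this.ne'
  split_ifs with h
  · subst h
    simp [e1]
  · have h1 : ∀ r : ℕ, e1 (n * (((r : ℝ) - a) / M)) = e1 (-(n * a / M)) * e1 (n / M) ^ r := by
      intro r
      rw [fej_pow, ← fej_add]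
      congr 1
      field_simp
      ring
    rw [Finset.sum_congr rfl fun r _ => h1 r, ← Finset.mul_sum]
    have h2 : e1 ((n : ℝ) / M) ^ M = 1 := by
      rw [fej_pow]
      have h3 : (M : ℝ) * (n / M) = n := by field_simp
      rw [h3, fej_int]
    have h3 : e1 ((n : ℝ) / M) ≠ 1 := by
      intro h4
      unfold e1 at h4
      rw [Complex.exp_eq_one_iff] at h4
      obtain ⟨k, hk⟩ := h4
      have h5 : (((n : ℝ) / M : ℝ) : ℂ) = k := by
        refine mul_right_cancel₀ Complex.two_pi_I_ne_zero ?_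
        linear_combination hk
      have h6 : (n : ℝ) / M = k := by exact_mod_cast h5
      rw [div_eq_iff hM0] at h6
      have h7 : n = k * M := by exact_mod_cast h6
      rcases eq_or_ne k 0 with h8 | h8
      · rw [h8, zero_mul] at h7
        exact h h7
      · have h9 : 1 ≤ |k| := Int.one_le_abs h8
        rw [h7, abs_mul, Nat.abs_cast] at hn
        have h10 : (1 : ℤ) * M ≤ |k| * M := mul_le_mul_of_nonneg_right h9 (by positivity)
        omega
    have h7 := geom_sum_mul (e1 ((n : ℝ) / M)) M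
    rw [h2, sub_self] at h7
    have h8 := (mul_eq_zero.1 h7).resolve_right (sub_ne_zero.2 h3)
    rw [h8, mul_zero]

private theorem fej_geo (b : ℕ) (s : ℝ) (hs0 : s ≠ 0) (hs : |s| ≤ 1 / 2) :
    ‖∑ m ∈ range b, e1 (m * s)‖ ≤ 1 / (2 * |s|) := by
  have hs' : 0 < |s| := abs_pos.2 hs0
  have h1 : ∑ m ∈ range b, e1 (m * s) = ∑ m ∈ range b, e1 s ^ m :=
    Finset.sum_congr rfl fun m _ => (fej_pow s m).symm
  rw [h1]
  have h2 := congrArg norm (geom_sum_mul (e1 s) b)
  rw [norm_mul] at h2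
  have h3 : ‖e1 s ^ b - 1‖ ≤ 2 := by
    refine (norm_sub_le _ _).trans ?_
    rw [norm_pow, fej_norm, one_pow, norm_one]
    norm_num
  have h4 : 4 * |s| ≤ ‖e1 s - 1‖ := by
    have h5 : e1 s = Complex.exp (Complex.I * ((2 * Real.pi * s : ℝ) : ℂ)) := by
      unfold e1
      congr 1
      push_cast
      ring
    rw [h5, Complex.norm_exp_I_mul_ofReal_sub_one]
    have h6 : 2 * Real.pi * s / 2 = Real.pi * s := by ring
    rw [h6, norm_mul, Real.norm_ofNat, Real.norm_eq_abs]
    have h7 : |Real.sin (Real.pi * s)| = |Real.sin (Real.pi * |s|)| := by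
      rcases abs_cases s with ⟨h8, _⟩ | ⟨h8, _⟩
      · rw [h8]
      · rw [h8, mul_neg, Real.sin_neg, abs_neg]
    rw [h7]
    have h8 := Real.mul_le_sin (x := Real.pi * |s|) (by positivity)
      (by nlinarith [Real.pi_pos])
    have h9 : 2 / Real.pi * (Real.pi * |s|) = 2 * |s| := by
      have := Real.pi_pos
      field_simp
    rw [h9] at h8
    have h10 := le_abs_self (Real.sin (Real.pi * |s|))
    linarith
  have h5 : 0 ≤ ‖∑ m ∈ range b, e1 s ^ m‖ := norm_nonneg _
  rw [le_div_iff₀ (by positivity)]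
  nlinarith

private theorem fej_tail (x : ℝ) (hx : 1 ≤ x) (n : ℕ) :
    ∑ j ∈ range n, (if x < (j : ℝ) + 1 then 1 / ((j : ℝ) + 1) ^ 2 else 0) ≤ 2 / x := by
  have hq1 : 1 ≤ ⌊x⌋₊ := Nat.one_le_floor_iff x |>.2 hx
  have hq0 : (0 : ℝ) < ⌊x⌋₊ := by exact_mod_cast hq1
  have key : ∀ n : ℕ, ∑ j ∈ range n, (if x < (j : ℝ) + 1 then 1 / ((j : ℝ) + 1) ^ 2 else 0) ≤
      1 / (⌊x⌋₊ : ℝ) - 1 / ((max n ⌊x⌋₊ : ℕ) : ℝ) := by
    intro n
    induction n with
    | zero => simp
    | succ n ih =>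
      rw [Finset.sum_range_succ]
      by_cases h : x < (n : ℝ) + 1
      · rw [if_pos h]
        have h1 : ⌊x⌋₊ ≤ n := by
          have h2 : ⌊x⌋₊ < n + 1 := (Nat.floor_lt (by linarith)).2 (by exact_mod_cast h)
          omega
        rw [max_eq_left h1] at ih
        rw [max_eq_left (by omega : ⌊x⌋₊ ≤ n + 1)]
        have hn0 : (0 : ℝ) < n := by
          have : 1 ≤ n := by omega
          exact_mod_cast this
        have h3 : 1 / ((n : ℝ) + 1) ^ 2 ≤ 1 / (n : ℝ) - 1 / ((n : ℝ) + 1) := by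
          have h4 : 1 / (n : ℝ) - 1 / ((n : ℝ) + 1) = 1 / ((n : ℝ) * (n + 1)) := by
            field_simp
            ring
          rw [h4]
          refine one_div_le_one_div_of_le (by positivity) ?_
          nlinarith
        push_cast
        linarith
      · rw [if_neg h, add_zero]
        refine ih.trans ?_
        have h1 : max n ⌊x⌋₊ ≤ max (n + 1) ⌊x⌋₊ := max_le_max (by omega) le_rfl
        have h2 : (0 : ℝ) < ((max n ⌊x⌋₊ : ℕ) : ℝ) := by
          have : 0 < max n ⌊x⌋₊ := lt_of_lt_of_le hq1 (le_max_right _ _)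
          exact_mod_cast this
        have h3 : ((max n ⌊x⌋₊ : ℕ) : ℝ) ≤ ((max (n + 1) ⌊x⌋₊ : ℕ) : ℝ) := by exact_mod_cast h1
        have := one_div_le_one_div_of_le h2 h3
        linarith
  have h1 := key n
  have h2 : (0 : ℝ) ≤ 1 / ((max n ⌊x⌋₊ : ℕ) : ℝ) := by positivity
  have h3 : 1 / (⌊x⌋₊ : ℝ) ≤ 2 / x := by
    rw [div_le_div_iff₀ hq0 (by linarith)]
    have h4 := Nat.lt_floor_add_one x
    have h5 : (1 : ℝ) ≤ ⌊x⌋₊ := by exact_mod_cast hq1
    linarith
  linarith

private theorem fej_split (G : ℕ → ℝ) (m₀ : ℕ) : ∑ r ∈ range (2 * m₀ + 1), G r =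
    ∑ j ∈ range m₀, G (m₀ - (j + 1)) + G m₀ + ∑ j ∈ range m₀, G (m₀ + (j + 1)) := by
  rw [show 2 * m₀ + 1 = m₀ + (m₀ + 1) by ring, Finset.sum_range_add, Finset.sum_range_succ',
    ← Finset.sum_range_reflect, add_zero]
  have h1 : ∑ j ∈ range m₀, G (m₀ - 1 - j) = ∑ j ∈ range m₀, G (m₀ - (j + 1)) := by
    refine Finset.sum_congr rfl fun j _ => ?_
    congr 1
    omega
  rw [h1]
  ring

/-- finite positive averages with Fejér multipliers -/
theorem fej (b K : ℕ) (hb : 1 ≤ b) (y : ℝ) (hy0 : 0 < y) (hy1 : y ≤ 1 / 2) :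
    ∃ (M : ℕ) (s c : ℕ → ℝ), (∀ r, 0 ≤ c r) ∧
      (∀ d : ℕ, d ≤ K → ∑ r ∈ range M, (c r : ℂ) * e1 (d * s r) =
        ((max 0 (1 - (d : ℝ) / b) : ℝ) : ℂ)) ∧
      ∑ r ∈ (range M).filter (fun r => y < |s r|), c r ≤ 1 / (b * y) := by
  obtain ⟨m₁, hm₁⟩ := exists_nat_ge (1 / y)
  obtain ⟨m₀, hm₀⟩ : ∃ m₀, m₀ = K + b + m₁ := ⟨_, rfl⟩
  obtain ⟨M, hM⟩ : ∃ M, M = 2 * m₀ + 1 := ⟨_, rfl⟩
  have hb0 : (0 : ℝ) < b := by exact_mod_cast hb
  have hM1 : 1 ≤ M := by omega
  have hM0 : (0 : ℝ) < M := by exact_mod_cast hM1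
  have hMy : 1 ≤ y * M := by
    have h1 : (m₁ : ℝ) ≤ M := by
      have : m₁ ≤ M := by omega
      exact_mod_cast this
    rw [div_le_iff₀ hy0] at hm₁
    nlinarith
  refine ⟨M, fun r => ((r : ℝ) - m₀) / M,
    fun r => ‖∑ m ∈ range b, e1 (m * (((r : ℝ) - m₀) / M))‖ ^ 2 / (b * M), fun r => by positivity,
    fun d hd => ?_, ?_⟩
  · -- the multipliers
    have h1 : ∀ r : ℕ, (((‖∑ m ∈ range b, e1 (m * (((r : ℝ) - m₀) / M))‖ ^ 2 / (b * M) : ℝ)) : ℂ) *
        e1 (d * (((r : ℝ) - m₀) / M)) =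
        ∑ m ∈ range b, ∑ m' ∈ range b, (1 / ((b : ℂ) * M)) *
          e1 (((m : ℤ) - m' + d : ℤ) * (((r : ℝ) - m₀) / M)) := by
      intro r
      have h2 : ((‖∑ m ∈ range b, e1 (m * (((r : ℝ) - m₀) / M))‖ ^ 2 : ℝ) : ℂ) =
          ∑ m ∈ range b, ∑ m' ∈ range b, e1 (m * (((r : ℝ) - m₀) / M)) *
            e1 (-(m' * (((r : ℝ) - m₀) / M))) := by
        push_cast
        rw [← Complex.mul_conj', map_sum, Finset.sum_mul_sum]
        refine Finset.sum_congr rfl fun m _ => Finset.sum_congr rfl fun m' _ => ?_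
        rw [fej_conj]
      rw [Complex.ofReal_div, h2, Finset.sum_div, Finset.sum_mul]
      refine Finset.sum_congr rfl fun m _ => ?_
      rw [Finset.sum_div, Finset.sum_mul]
      refine Finset.sum_congr rfl fun m' _ => ?_
      have h3 : (((m : ℤ) - m' + d : ℤ) : ℝ) * (((r : ℝ) - m₀) / M) =
          m * (((r : ℝ) - m₀) / M) + -(m' * (((r : ℝ) - m₀) / M)) + d * (((r : ℝ) - m₀) / M) := by
        push_cast
        ring
      rw [h3, fej_add, fej_add]
      push_cast
      ring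
    rw [Finset.sum_congr rfl fun r _ => h1 r, Finset.sum_comm]
    have h2 : ∀ m ∈ range b, ∑ r ∈ range M, ∑ m' ∈ range b, (1 / ((b : ℂ) * M)) *
          e1 (((m : ℤ) - m' + d : ℤ) * (((r : ℝ) - m₀) / M)) =
        if m + d < b then 1 / (b : ℂ) else 0 := by
      intro m hm
      rw [Finset.sum_comm]
      have h3 : ∀ m' ∈ range b, ∑ r ∈ range M, (1 / ((b : ℂ) * M)) *
          e1 (((m : ℤ) - m' + d : ℤ) * (((r : ℝ) - m₀) / M)) =
          if m + d = m' then 1 / (b : ℂ) else 0 := by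
        intro m' hm'
        rw [← Finset.mul_sum, fej_root M hM1 m₀ _ (by
          rw [Finset.mem_range] at hm hm'
          rw [abs_lt]
          omega)]
        by_cases h4 : m + d = m'
        · rw [if_pos (by omega), if_pos h4]
          have hMc : (M : ℂ) ≠ 0 := by exact_mod_cast hM0.ne'
          have hbc : (b : ℂ) ≠ 0 := by exact_mod_cast hb0.ne'
          field_simp
        · rw [if_neg (by omega), if_neg h4, mul_zero]
      rw [Finset.sum_congr rfl h3, Finset.sum_ite_eq]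
      simp only [Finset.mem_range]
    rw [Finset.sum_congr rfl h2, ← Finset.sum_filter, Finset.sum_const, nsmul_eq_mul]
    have h3 : ((range b).filter (fun m => m + d < b)).card = b - d := by
      have h4 : (range b).filter (fun m => m + d < b) = range (b - d) := by
        ext m
        rw [Finset.mem_filter, Finset.mem_range, Finset.mem_range]
        omega
      rw [h4, Finset.card_range]
    rw [h3]
    have h5 : max 0 (1 - (d : ℝ) / b) = ((b - d : ℕ) : ℝ) * (1 / b) := by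
      rcases le_total d b with h | h
      · rw [Nat.cast_sub h]
        have h6 : (d : ℝ) / b ≤ 1 := by
          rw [div_le_one hb0]
          exact_mod_cast h
        rw [max_eq_right (by linarith)]
        field_simp
      · rw [Nat.sub_eq_zero_of_le h]
        have h6 : 1 ≤ (d : ℝ) / b := by
          rw [le_div_iff₀ hb0, one_mul]
          exact_mod_cast h
        rw [max_eq_left (by linarith)]
        simp
    rw [h5]
    push_cast
    ring
  · -- the tail
    have hbd : ∀ r : ℕ, ∀ j : ℕ, |(r : ℝ) - m₀| = (j : ℝ) + 1 → (j : ℝ) + 1 ≤ m₀ →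
        (if y < |((r : ℝ) - m₀) / M| then
          ‖∑ m ∈ range b, e1 (m * (((r : ℝ) - m₀) / M))‖ ^ 2 / (b * M) else 0) ≤
        M / (4 * b) * (if y * M < (j : ℝ) + 1 then 1 / ((j : ℝ) + 1) ^ 2 else 0) := by
      intro r j hr hj
      have hj0 : (0 : ℝ) ≤ j := Nat.cast_nonneg j
      have habs : |((r : ℝ) - m₀) / M| = ((j : ℝ) + 1) / M := by
        rw [abs_div, hr, abs_of_pos hM0]
      have hiff : y < |((r : ℝ) - m₀) / M| ↔ y * M < (j : ℝ) + 1 := by
        rw [habs, lt_div_iff₀ hM0]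
      by_cases h : y * M < (j : ℝ) + 1
      · rw [if_pos h, if_pos (hiff.2 h)]
        have hs0 : ((r : ℝ) - m₀) / M ≠ 0 := by
          intro h1
          rw [h1, abs_zero] at habs
          have : (0 : ℝ) < ((j : ℝ) + 1) / M := by positivity
          linarith
        have hs1 : |((r : ℝ) - m₀) / M| ≤ 1 / 2 := by
          rw [habs, div_le_div_iff₀ hM0 (by norm_num)]
          have : (M : ℝ) = 2 * m₀ + 1 := by
            rw [hM]
            push_cast
            ring
          linarith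
        have h1 := fej_geo b _ hs0 hs1
        rw [habs] at h1
        have h2 : ‖∑ m ∈ range b, e1 (m * (((r : ℝ) - m₀) / M))‖ ^ 2 ≤
            (1 / (2 * (((j : ℝ) + 1) / M))) ^ 2 := pow_le_pow_left₀ (norm_nonneg _) h1 2
        calc _ ≤ (1 / (2 * (((j : ℝ) + 1) / M))) ^ 2 / (b * M) :=
              div_le_div_of_nonneg_right h2 (by positivity)
          _ = M / (4 * b) * (1 / ((j : ℝ) + 1) ^ 2) := by
              field_simp
              ring
      · rw [if_neg h, if_neg (fun h1 => h (hiff.1 h1)), mul_zero]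
    have hM2 : (M : ℝ) = 2 * m₀ + 1 := by
      rw [hM]
      push_cast
      ring
    rw [Finset.sum_filter]
    have hsplit := fej_split (fun r : ℕ => if y < |((r : ℝ) - m₀) / M| then
      ‖∑ m ∈ range b, e1 (m * (((r : ℝ) - m₀) / M))‖ ^ 2 / (b * M) else 0) m₀
    rw [← hM] at hsplit
    rw [hsplit]
    have h0 : (if y < |((m₀ : ℝ) - m₀) / M| then
      ‖∑ m ∈ range b, e1 (m * (((m₀ : ℝ) - m₀) / M))‖ ^ 2 / (b * M) else 0) = 0 := by
      rw [sub_self, zero_div, abs_zero, if_neg (by linarith)]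
    have hL : ∑ j ∈ range m₀, (if y < |(((m₀ - (j + 1) : ℕ) : ℝ) - m₀) / M| then
        ‖∑ m ∈ range b, e1 (m * ((((m₀ - (j + 1) : ℕ) : ℝ) - m₀) / M))‖ ^ 2 / (b * M) else 0) ≤
        M / (4 * b) * (2 / (y * M)) := by
      refine (Finset.sum_le_sum fun j hj => hbd (m₀ - (j + 1)) j ?_ ?_).trans ?_
      · rw [Finset.mem_range] at hj
        rw [Nat.cast_sub (by omega)]
        push_cast
        rw [show (m₀ : ℝ) - (j + 1) - m₀ = -((j : ℝ) + 1) by ring, abs_neg, abs_of_nonneg (by positivity)]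
      · rw [Finset.mem_range] at hj
        have : j + 1 ≤ m₀ := by omega
        exact_mod_cast this
      · rw [← Finset.mul_sum]
        exact mul_le_mul_of_nonneg_left (fej_tail _ hMy m₀) (by positivity)
    have hR : ∑ j ∈ range m₀, (if y < |(((m₀ + (j + 1) : ℕ) : ℝ) - m₀) / M| then
        ‖∑ m ∈ range b, e1 (m * ((((m₀ + (j + 1) : ℕ) : ℝ) - m₀) / M))‖ ^ 2 / (b * M) else 0) ≤
        M / (4 * b) * (2 / (y * M)) := by
      refine (Finset.sum_le_sum fun j hj => hbd (m₀ + (j + 1)) j ?_ ?_).trans ?_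
      · push_cast
        rw [show (m₀ : ℝ) + (j + 1) - m₀ = (j : ℝ) + 1 by ring, abs_of_nonneg (by positivity)]
      · rw [Finset.mem_range] at hj
        have : j + 1 ≤ m₀ := by omega
        exact_mod_cast this
      · rw [← Finset.mul_sum]
        exact mul_le_mul_of_nonneg_left (fej_tail _ hMy m₀) (by positivity)
    have hfin : M / (4 * b) * (2 / (y * M)) + 0 + M / (4 * b) * (2 / (y * M)) = 1 / (b * y) := by
      field_simp
      ring
    rw [← hfin]
    exact add_le_add (add_le_add hL h0.le) hR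

end Pool.Agent.Work.MP_7b186b_nt.CU
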