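import Mathlib
import Pool.Agent.Work.MP_7b186b_nt.CU.Defs2

set_option autoImplicit false

namespace Pool.Agent.Work.MP_7b186b_nt.CU

open Finset MeasureTheory

/-
PROOF. The coefficient of gp p at α is prod_i p.coeff (α i), zero unless α i <= k for all i. With z_i = zt θ i (conj z_i = 1/z_i):
conj(ev (component d) θ) * prod_i z_i^k = sum_{|α| = d, α <= k} prod_i conj(p_(α_i)) z_i^(k - α_i); put β = k - α (β_i = k - α_i, |β| = kN - d),
conj p_(k - β_i) = u p_(β_i): this equals u^N sum_{|β| = kN-d} prod p_(β_i) z^β = u^N ev (component (kN - d)) θ. Take norms.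
-/

/-- a function as an exponent -/
private noncomputable def ex {N : ℕ} (f : Fin N → ℕ) : Fin N →₀ ℕ := Finsupp.equivFunOnFinite.symm f

private theorem ex_apply {N : ℕ} (f : Fin N → ℕ) (i : Fin N) : ex f i = f i := rfl

private theorem gp_expand {N : ℕ} (k : ℕ) (p : Polynomial ℂ) (hk : p.natDegree ≤ k) :
    (gp p : MvPolynomial (Fin N) ℂ) =
      ∑ f ∈ Fintype.piFinset (fun _ : Fin N => range (k + 1)),
        MvPolynomial.monomial (ex f) (∏ i, p.coeff (f i)) := by
  unfold gp
  have h1 : ∀ i : Fin N, Polynomial.aeval (MvPolynomial.X i : MvPolynomial (Fin N) ℂ) p =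
      ∑ m ∈ range (k + 1), MvPolynomial.C (p.coeff m) * MvPolynomial.X i ^ m := by
    intro i
    rw [Polynomial.aeval_eq_sum_range' (Nat.lt_succ_of_le hk)]
    refine Finset.sum_congr rfl (fun m _ => ?_)
    rw [MvPolynomial.smul_eq_C_mul]
  simp_rw [h1]
  rw [Finset.prod_univ_sum]
  refine Finset.sum_congr rfl (fun f _ => ?_)
  rw [MvPolynomial.monomial_eq, Finset.prod_mul_distrib, map_prod]
  congr 1
  rw [Finsupp.prod_fintype _ _ (fun i => pow_zero _)]
  rfl

private theorem comp_ev {N : ℕ} (k : ℕ) (p : Polynomial ℂ) (hk : p.natDegree ≤ k) (d : ℕ)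
    (θ : Fin N → ℝ) :
    ev (MvPolynomial.homogeneousComponent d (gp p)) θ =
      ∑ f ∈ (Fintype.piFinset (fun _ : Fin N => range (k + 1))).filter (fun f => ∑ i, f i = d),
        ∏ i, (p.coeff (f i) * zt θ i ^ f i) := by
  rw [gp_expand k p hk, map_sum, Finset.sum_filter]
  unfold ev
  rw [map_sum]
  refine Finset.sum_congr rfl (fun f _ => ?_)
  have h1 : (ex f).degree = ∑ i, f i := by
    rw [Finsupp.degree_eq_sum]
    rfl
  have h2 : MvPolynomial.homogeneousComponent d
      (MvPolynomial.monomial (ex f) (∏ i, p.coeff (f i))) =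
      if ∑ i, f i = d then MvPolynomial.monomial (ex f) (∏ i, p.coeff (f i)) else 0 := by
    rw [MvPolynomial.homogeneousComponent_of_mem
      (MvPolynomial.isHomogeneous_monomial (∏ i, p.coeff (f i)) h1)]
    by_cases h3 : ∑ i, f i = d
    · rw [if_pos h3, if_pos h3.symm]
    · rw [if_neg h3, if_neg (fun h => h3 h.symm)]
  rw [h2]
  split_ifs
  · rw [MvPolynomial.eval_monomial, Finset.prod_mul_distrib,
      Finsupp.prod_fintype _ _ (fun i => pow_zero _)]
    rfl
  · rw [map_zero]

private theorem zt_conj {N : ℕ} (θ : Fin N → ℝ) (i : Fin N) :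
    zt θ i * (starRingEnd ℂ) (zt θ i) = 1 := by
  rw [Complex.mul_conj, Complex.normSq_eq_norm_sq]
  have h1 : ‖zt θ i‖ = 1 := by
    unfold zt
    have h2 : 2 * (Real.pi : ℂ) * θ i * Complex.I = ((2 * Real.pi * θ i : ℝ) : ℂ) * Complex.I := by
      push_cast
      ring
    rw [h2, Complex.norm_exp_ofReal_mul_I]
  rw [h1]
  simp

/-- symmetry of the homogeneous components of `∏ p(z_i)` for a self-reciprocal `p` -/
theorem comp_symm {N : ℕ} (k : ℕ) (p : Polynomial ℂ) (hk : p.natDegree ≤ k) (u : ℂ)
    (hu : ‖u‖ = 1) (hp : ∀ m ≤ k, (starRingEnd ℂ) (p.coeff (k - m)) = u * p.coeff m)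
    (d : ℕ) (hd : d ≤ k * N) (θ : Fin N → ℝ) :
    ‖ev (MvPolynomial.homogeneousComponent d (gp p)) θ‖ =
      ‖ev (MvPolynomial.homogeneousComponent (k * N - d) (gp p)) θ‖ := by
  have key : (starRingEnd ℂ) (ev (MvPolynomial.homogeneousComponent d (gp p)) θ) *
      ∏ i, zt θ i ^ k = u ^ N * ev (MvPolynomial.homogeneousComponent (k * N - d) (gp p)) θ := by
    rw [comp_ev k p hk, comp_ev k p hk, map_sum, Finset.sum_mul, Finset.mul_sum]
    have hmem : ∀ (d : ℕ), d ≤ k * N → ∀ f ∈ (Fintype.piFinset
        (fun _ : Fin N => range (k + 1))).filter (fun f => ∑ i, f i = d),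
        (fun i => k - f i) ∈ (Fintype.piFinset (fun _ : Fin N => range (k + 1))).filter
          (fun f => ∑ i, f i = k * N - d) := by
      intro d hd f hf
      rw [mem_filter, Fintype.mem_piFinset] at hf ⊢
      refine ⟨fun i => ?_, ?_⟩
      · rw [mem_range]
        omega
      · have h1 : ∑ i, (k - f i) + ∑ i, f i = k * N := by
          rw [← Finset.sum_add_distrib]
          have h2 : ∀ i ∈ (Finset.univ : Finset (Fin N)), k - f i + f i = k := by
            intro i _
            have := mem_range.mp (hf.1 i)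
            omega
          rw [Finset.sum_congr rfl h2, Finset.sum_const, Finset.card_univ, Fintype.card_fin,
            smul_eq_mul, mul_comm]
        rw [hf.2] at h1
        change ∑ i, (k - f i) = k * N - d
        omega
    have hinv : ∀ (d : ℕ), ∀ f ∈ (Fintype.piFinset
        (fun _ : Fin N => range (k + 1))).filter (fun f => ∑ i, f i = d),
        (fun i => k - (k - f i)) = f := by
      intro d f hf
      rw [mem_filter, Fintype.mem_piFinset] at hf
      funext i
      have := mem_range.mp (hf.1 i)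
      omega
    refine Finset.sum_bij' (fun f _ => fun i => k - f i) (fun f _ => fun i => k - f i)
      (hmem d hd) (fun f hf => ?_) (hinv d) (hinv (k * N - d)) (fun f hf => ?_)
    · have h1 := hmem (k * N - d) (Nat.sub_le _ _) f hf
      rw [Nat.sub_sub_self hd] at h1
      exact h1
    · rw [mem_filter, Fintype.mem_piFinset] at hf
      have h1 : u ^ N = ∏ _i : Fin N, u := by
        rw [Finset.prod_const, Finset.card_univ, Fintype.card_fin]
      rw [h1, map_prod, ← Finset.prod_mul_distrib, ← Finset.prod_mul_distrib]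
      refine Finset.prod_congr rfl (fun i _ => ?_)
      have h2 : f i ≤ k := by
        have := mem_range.mp (hf.1 i)
        omega
      have h3 := hp (k - f i) (Nat.sub_le _ _)
      rw [Nat.sub_sub_self h2] at h3
      rw [map_mul, map_pow, h3]
      have h4 : zt θ i ^ k = zt θ i ^ (k - f i) * zt θ i ^ f i := by
        rw [← pow_add]
        congr 1
        omega
      have h5 : (starRingEnd ℂ) (zt θ i) ^ f i * zt θ i ^ f i = 1 := by
        rw [← mul_pow, mul_comm, zt_conj, one_pow]
      rw [h4]
      linear_combination (u * p.coeff (k - f i) * zt θ i ^ (k - f i)) * h5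
  have h1 := congrArg norm key
  rw [norm_mul, norm_mul, RCLike.norm_conj, norm_prod, norm_pow, hu, one_pow, one_mul] at h1
  have h2 : ∀ i : Fin N, ‖zt θ i ^ k‖ = 1 := by
    intro i
    rw [norm_pow]
    have h3 : ‖zt θ i‖ = 1 := by
      have h4 := congrArg norm (zt_conj θ i)
      rw [norm_mul, RCLike.norm_conj, norm_one] at h4
      nlinarith [norm_nonneg (zt θ i)]
    rw [h3, one_pow]
  simp_rw [h2] at h1
  rw [Finset.prod_const_one, mul_one] at h1
  exact h1

end Pool.Agent.Work.MP_7b186b_nt.CU
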