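import Mathlib
import Pool.Agent.Work.MP_7b186b_nt.CU.Defs2
import Pool.Agent.Work.MP_7b186b_nt.CU.Int
import Pool.Agent.Work.MP_7b186b_nt.CU.TwA
import Pool.Agent.Work.MP_7b186b_nt.CU.TwB
import Pool.Agent.Work.MP_7b186b_nt.CU.TwC
import Pool.Agent.Work.MP_7b186b_nt.CU.Gp

set_option autoImplicit false

namespace Pool.Agent.Work.MP_7b186b_nt.CU

open Finset MeasureTheory

/-
PROOF. M d := cue(|ev (component d of gp p)|^2) >= 0, M d = M (kN - d) for d <= kN (comp_symm), sum_{d<=kN} M d = cue(|ev (gp p)|^2)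
(tw_one with gp_deg and tw_mass for φ = 1). By symmetry sum over 2 d <= kN of M d >= half of the total. For 2 d <= kN:
d/b <= (kN/2)/((1+ε) kN/2) = 1/(1+ε) (if kN = 0 then d = 0), so φ d = 1 - d/b >= ε/(1+ε) >= 0. tw_mass.
-/

/-- at least half of the mass sits in degrees at most `k N/2` -/
theorem half_mass {N : ℕ} (k b : ℕ) (p : Polynomial ℂ) (hk : p.natDegree ≤ k) (u : ℂ)
    (hu : ‖u‖ = 1) (hp : ∀ m ≤ k, (starRingEnd ℂ) (p.coeff (k - m)) = u * p.coeff m)
    (ε : ℝ) (hε : 0 < ε) (hb : 1 ≤ b) (hb' : (1 + ε) * k * N / 2 ≤ b) :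
    (ε / (1 + ε)) ^ 2 / 2 * cue N (fun θ => ‖ev (gp p : MvPolynomial (Fin N) ℂ) θ‖ ^ 2) ≤
      cue N (fun θ => ‖ev (tw (k * N) (fun d => max 0 (1 - (d : ℝ) / b)) (gp p)) θ‖ ^ 2) := by
  set G : MvPolynomial (Fin N) ℂ := gp p with hG
  set M : ℕ → ℝ := fun d => cue N (fun θ => ‖ev (MvPolynomial.homogeneousComponent d G) θ‖ ^ 2)
    with hM
  have hM0 : ∀ d, 0 ≤ M d := fun d => cue_nonneg _
  have hMs : ∀ d ≤ k * N, M d = M (k * N - d) := by
    intro d hd
    rw [hM]
    simp only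
    unfold cue
    refine integral_congr_ae (Filter.Eventually.of_forall (fun θ => ?_))
    simp only
    rw [comp_symm k p hk u hu hp d hd θ]
  have htot : cue N (fun θ => ‖ev G θ‖ ^ 2) = ∑ d ∈ range (k * N + 1), M d := by
    have h1 := tw_mass (k * N) (fun _ => 1) G
    rw [tw_one (k * N) G (gp_deg p k hk)] at h1
    rw [h1]
    refine Finset.sum_congr rfl (fun d _ => ?_)
    rw [one_pow, one_mul]
  have hmass := tw_mass (k * N) (fun d => max 0 (1 - (d : ℝ) / b)) G
  rw [hmass, htot]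
  have hb0 : (0 : ℝ) < b := by exact_mod_cast hb
  -- half of the mass
  have hhalf : ∑ d ∈ range (k * N + 1), M d ≤
      2 * ∑ d ∈ range (k * N + 1), if 2 * d ≤ k * N then M d else 0 := by
    have h2 : ∑ d ∈ range (k * N + 1), (if 2 * d ≤ k * N then M d else 0) =
        ∑ d ∈ range (k * N + 1), (if k * N ≤ 2 * d then M d else 0) := by
      rw [← Finset.sum_range_reflect]
      refine Finset.sum_congr rfl (fun d hd => ?_)
      rw [mem_range] at hd
      have h3 : k * N + 1 - 1 - d = k * N - d := by omega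
      rw [h3]
      have h4 : d ≤ k * N := by omega
      rw [← hMs d h4]
      by_cases h5 : k * N ≤ 2 * d
      · rw [if_pos h5, if_pos (by omega)]
      · rw [if_neg h5, if_neg (by omega)]
    rw [two_mul]
    nth_rewrite 2 [h2]
    rw [← Finset.sum_add_distrib]
    refine Finset.sum_le_sum (fun d _ => ?_)
    have h6 := hM0 d
    split_ifs with h7 h8 h8
    · linarith
    · linarith
    · linarith
    · omega
  have hlow : ∑ d ∈ range (k * N + 1), (if 2 * d ≤ k * N then M d else 0) * (ε / (1 + ε)) ^ 2 ≤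
      ∑ d ∈ range (k * N + 1), (max 0 (1 - (d : ℝ) / b)) ^ 2 * M d := by
    refine Finset.sum_le_sum (fun d _ => ?_)
    split_ifs with h1
    · rw [mul_comm]
      refine mul_le_mul_of_nonneg_right ?_ (hM0 d)
      have h2 : (d : ℝ) / b ≤ 1 / (1 + ε) := by
        rw [div_le_div_iff₀ hb0 (by positivity), one_mul]
        have h3 : 2 * (d : ℝ) ≤ k * N := by exact_mod_cast h1
        have h4 : (1 + ε) * (2 * (d : ℝ)) ≤ (1 + ε) * (k * N) :=
          mul_le_mul_of_nonneg_left h3 (by positivity)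
        linarith
      have h5 : ε / (1 + ε) = 1 - 1 / (1 + ε) := by
        field_simp
        ring
      have h6 : ε / (1 + ε) ≤ max 0 (1 - (d : ℝ) / b) := by
        rw [h5]
        exact le_max_of_le_right (by linarith)
      exact pow_le_pow_left₀ (by positivity) h6 2
    · rw [zero_mul]
      have := hM0 d
      positivity
  rw [← Finset.sum_mul] at hlow
  have h7 : 0 ≤ (ε / (1 + ε)) ^ 2 := by positivity
  have h8 := mul_le_mul_of_nonneg_left hhalf h7
  calc (ε / (1 + ε)) ^ 2 / 2 * ∑ d ∈ range (k * N + 1), M d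
      = ((ε / (1 + ε)) ^ 2 * ∑ d ∈ range (k * N + 1), M d) / 2 := by ring
    _ ≤ ((ε / (1 + ε)) ^ 2 *
        (2 * ∑ d ∈ range (k * N + 1), if 2 * d ≤ k * N then M d else 0)) / 2 := by linarith
    _ = (∑ d ∈ range (k * N + 1), if 2 * d ≤ k * N then M d else 0) * (ε / (1 + ε)) ^ 2 := by
        ring
    _ ≤ _ := hlow

end Pool.Agent.Work.MP_7b186b_nt.CU
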