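import Mathlib

set_option autoImplicit false

namespace Pool.Agent.Work.MP_7b186b_nt.CU

open Finset MeasureTheory

/-
PROOF. Expand both determinants (Matrix.det_apply): the integral over the cube of the product is a product of one variable
integrals, sum_{s,t} sgn s sgn t (int_A q_{s i} conj q_{t i}) prod_{b <> i} int_0^1 q_{s b} conj q_{t b}; orthonormality forces
s b = t b for all b <> i, hence s = t. The number of s with s i = x is (N-1)!. (A = [0,1] gives N!.)
-/

private theorem cubeM (N : ℕ) : (volume : Measure (Fin N → ℝ)).restrict (Set.Icc 0 1) =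
    Measure.pi (fun _ : Fin N => (volume : Measure ℝ).restrict (Set.Icc 0 1)) := by
  have h : Set.Icc (0 : Fin N → ℝ) 1 = Set.univ.pi (fun _ : Fin N => Set.Icc (0 : ℝ) 1) := by
    rw [← Set.pi_univ_Icc]
    rfl
  rw [h, volume_pi, Measure.restrict_pi_pi]

private theorem gen {N : ℕ} (q : Fin N → ℝ → ℂ) (w : Fin N → ℝ → ℂ)
    (hw : ∀ b x y, Integrable (fun t => q x t * (starRingEnd ℂ) (q y t) * w b t)
      (volume.restrict (Set.Icc (0 : ℝ) 1))) :
    ∫ θ in Set.Icc (0 : Fin N → ℝ) 1, ((‖(Matrix.of fun x y => q x (θ y)).det‖ ^ 2 : ℝ) : ℂ) *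
      ∏ b, w b (θ b) =
      ∑ σ : Equiv.Perm (Fin N), ∑ τ : Equiv.Perm (Fin N),
        (((Equiv.Perm.sign σ : ℤ) : ℂ) * ((Equiv.Perm.sign τ : ℤ) : ℂ)) *
        ∏ b, ∫ t in Set.Icc (0 : ℝ) 1, q (σ b) t * (starRingEnd ℂ) (q (τ b) t) * w b t := by
  rw [cubeM]
  have h1 : ∀ θ : Fin N → ℝ, ((‖(Matrix.of fun x y => q x (θ y)).det‖ ^ 2 : ℝ) : ℂ) *
      ∏ b, w b (θ b) = ∑ σ : Equiv.Perm (Fin N), ∑ τ : Equiv.Perm (Fin N),
        (((Equiv.Perm.sign σ : ℤ) : ℂ) * ((Equiv.Perm.sign τ : ℤ) : ℂ)) *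
        ∏ b, (q (σ b) (θ b) * (starRingEnd ℂ) (q (τ b) (θ b)) * w b (θ b)) := by
    intro θ
    rw [Complex.ofReal_pow, ← Complex.mul_conj', Matrix.det_apply', map_sum, Finset.sum_mul_sum,
      Finset.sum_mul]
    refine Finset.sum_congr rfl fun σ _ => ?_
    rw [Finset.sum_mul]
    refine Finset.sum_congr rfl fun τ _ => ?_
    rw [Finset.prod_mul_distrib, Finset.prod_mul_distrib, map_mul, map_prod, map_intCast]
    simp only [Matrix.of_apply]
    ring
  simp_rw [h1]
  have hi : ∀ σ τ : Equiv.Perm (Fin N), Integrable (fun θ : Fin N → ℝ =>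
      (((Equiv.Perm.sign σ : ℤ) : ℂ) * ((Equiv.Perm.sign τ : ℤ) : ℂ)) *
        ∏ b, (q (σ b) (θ b) * (starRingEnd ℂ) (q (τ b) (θ b)) * w b (θ b)))
      (Measure.pi (fun _ : Fin N => (volume : Measure ℝ).restrict (Set.Icc 0 1))) := by
    intro σ τ
    refine Integrable.const_mul ?_ _
    exact Integrable.fintype_prod (f := fun b t => q (σ b) t * (starRingEnd ℂ) (q (τ b) t) * w b t)
      fun b => hw b _ _
  rw [integral_finsetSum _ fun σ _ => integrable_finsetSum _ fun τ _ => hi σ τ]
  refine Finset.sum_congr rfl fun σ _ => ?_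
  rw [integral_finsetSum _ fun τ _ => hi σ τ]
  refine Finset.sum_congr rfl fun τ _ => ?_
  rw [integral_const_mul, integral_fintype_prod_eq_prod
    (f := fun b t => q (σ b) t * (starRingEnd ℂ) (q (τ b) t) * w b t)]

private theorem sumPerm {N : ℕ} (i : Fin N) (f : Fin N → ℂ) :
    ∑ σ : Equiv.Perm (Fin N), f (σ i) = ((N - 1).factorial : ℂ) * ∑ x, f x := by
  classical
  obtain ⟨c, hc⟩ : ∃ c : Fin N → ℕ, ∀ x, c x =
      (Finset.univ.filter fun σ : Equiv.Perm (Fin N) => σ i = x).card := ⟨_, fun _ => rfl⟩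
  have hcc : ∀ x y, c x = c y := by
    intro x y
    rw [hc, hc]
    refine Finset.card_bij' (fun σ _ => Equiv.swap x y * σ) (fun σ _ => Equiv.swap x y * σ) ?_ ?_ ?_ ?_
    · intro σ hσ
      simp only [Finset.mem_filter, Finset.mem_univ, true_and] at hσ ⊢
      rw [Equiv.Perm.mul_apply, hσ, Equiv.swap_apply_left]
    · intro σ hσ
      simp only [Finset.mem_filter, Finset.mem_univ, true_and] at hσ ⊢
      rw [Equiv.Perm.mul_apply, hσ, Equiv.swap_apply_right]
    · intro σ _
      rw [← mul_assoc, Equiv.swap_mul_self, one_mul]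
    · intro σ _
      rw [← mul_assoc, Equiv.swap_mul_self, one_mul]
  have hsum : ∑ x, c x = N.factorial := by
    have := Finset.card_eq_sum_card_fiberwise (f := fun σ : Equiv.Perm (Fin N) => σ i)
      (s := Finset.univ) (t := Finset.univ) (fun _ _ => by simp)
    rw [Finset.card_univ, Fintype.card_perm, Fintype.card_fin] at this
    rw [this]
    exact Finset.sum_congr rfl fun x _ => hc x
  have hN : 0 < N := i.pos
  have hci : ∀ x, c x = (N - 1).factorial := by
    intro x
    have h1 : ∑ y, c y = N * c x := by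
      rw [Finset.sum_congr rfl fun y _ => hcc y x, Finset.sum_const, Finset.card_univ,
        Fintype.card_fin, smul_eq_mul]
    rw [hsum, ← Nat.mul_factorial_pred hN.ne'] at h1
    exact (Nat.eq_of_mul_eq_mul_left hN h1).symm
  rw [← Finset.sum_fiberwise_of_maps_to (g := fun σ : Equiv.Perm (Fin N) => σ i)
    (t := Finset.univ) (fun _ _ => Finset.mem_univ _), Finset.mul_sum]
  refine Finset.sum_congr rfl fun x _ => ?_
  rw [Finset.sum_congr rfl (g := fun _ => f x) (fun σ hσ => by
    rw [(Finset.mem_filter.1 hσ).2]), Finset.sum_const, nsmul_eq_mul, ← hc, hci]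

private theorem sgn2 {N : ℕ} (σ : Equiv.Perm (Fin N)) :
    ((Equiv.Perm.sign σ : ℤ) : ℂ) * ((Equiv.Perm.sign σ : ℤ) : ℂ) = 1 := by
  rw [← Int.cast_mul, ← Units.val_mul, Int.units_mul_self]
  simp

/-- mean number of points of a determinantal configuration in a set -/
theorem andr {N : ℕ} (q : Fin N → ℝ → ℂ) (hq : ∀ x, Continuous (q x))
    (ho : ∀ x y, ∫ t in Set.Icc (0 : ℝ) 1, q x t * (starRingEnd ℂ) (q y t) =
      if x = y then 1 else 0) (A : Set ℝ) (hA : MeasurableSet A) (i : Fin N) :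
    ∫ θ in Set.Icc (0 : Fin N → ℝ) 1, ‖(Matrix.of fun x y => q x (θ y)).det‖ ^ 2 *
      A.indicator (fun _ => (1 : ℝ)) (θ i) =
      (N - 1).factorial * ∑ x, ∫ t in Set.Icc (0 : ℝ) 1 ∩ A, ‖q x t‖ ^ 2 := by
  classical
  have hc : ∀ x y, Integrable (fun t => q x t * (starRingEnd ℂ) (q y t))
      (volume.restrict (Set.Icc (0 : ℝ) 1)) := by
    intro x y
    apply ContinuousOn.integrableOn_Icc
    exact ((hq x).mul (Complex.continuous_conj.comp (hq y))).continuousOn
  obtain ⟨w, hwd⟩ : ∃ w : Fin N → ℝ → ℂ, w = fun b t => if b = i then A.indicator (fun _ => (1 : ℂ)) t else 1 :=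
    ⟨_, rfl⟩
  have hwi : ∀ t, w i t = A.indicator (fun _ => (1 : ℂ)) t := by
    intro t
    rw [hwd]
    simp
  have hwb : ∀ b t, b ≠ i → w b t = 1 := by
    intro b t hb
    rw [hwd]
    simp [hb]
  have hmul : ∀ x y t, q x t * (starRingEnd ℂ) (q y t) * w i t =
      A.indicator (fun t => q x t * (starRingEnd ℂ) (q y t)) t := by
    intro x y t
    rw [hwi]
    by_cases ht : t ∈ A
    · rw [Set.indicator_of_mem ht, Set.indicator_of_mem ht, mul_one]
    · rw [Set.indicator_of_notMem ht, Set.indicator_of_notMem ht, mul_zero]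
  have hw : ∀ b x y, Integrable (fun t => q x t * (starRingEnd ℂ) (q y t) * w b t)
      (volume.restrict (Set.Icc (0 : ℝ) 1)) := by
    intro b x y
    by_cases hb : b = i
    · subst hb
      simp_rw [hmul]
      exact (hc x y).indicator hA
    · simp_rw [hwb b _ hb, mul_one]
      exact hc x y
  have key := gen q w hw
  have hJi : ∀ x, ∫ t in Set.Icc (0 : ℝ) 1, q x t * (starRingEnd ℂ) (q x t) * w i t =
      ((∫ t in Set.Icc (0 : ℝ) 1 ∩ A, ‖q x t‖ ^ 2 : ℝ) : ℂ) := by
    intro x
    simp_rw [hmul]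
    rw [integral_indicator hA, Measure.restrict_restrict hA, Set.inter_comm, ← integral_complex_ofReal]
    refine integral_congr_ae (Filter.Eventually.of_forall fun t => ?_)
    simp only
    rw [Complex.mul_conj', Complex.ofReal_pow]
  have hJb : ∀ b x y, b ≠ i → ∫ t in Set.Icc (0 : ℝ) 1, q x t * (starRingEnd ℂ) (q y t) * w b t =
      if x = y then 1 else 0 := by
    intro b x y hb
    simp_rw [hwb b _ hb, mul_one]
    exact ho x y
  have h2 : ∀ σ : Equiv.Perm (Fin N), ∑ τ : Equiv.Perm (Fin N),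
        (((Equiv.Perm.sign σ : ℤ) : ℂ) * ((Equiv.Perm.sign τ : ℤ) : ℂ)) *
        ∏ b, ∫ t in Set.Icc (0 : ℝ) 1, q (σ b) t * (starRingEnd ℂ) (q (τ b) t) * w b t =
      ((∫ t in Set.Icc (0 : ℝ) 1 ∩ A, ‖q (σ i) t‖ ^ 2 : ℝ) : ℂ) := by
    intro σ
    rw [Finset.sum_eq_single σ]
    · rw [sgn2, one_mul, Finset.prod_eq_single i]
      · exact hJi _
      · intro b _ hb
        rw [hJb b _ _ hb, if_pos rfl]
      · intro h
        exact absurd (Finset.mem_univ i) h
    · intro τ _ hτ
      have : ∃ b, b ≠ i ∧ σ b ≠ τ b := by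
        by_contra hcon
        push Not at hcon
        apply hτ
        ext1 b
        by_cases hb : b = i
        · subst hb
          by_contra hne
          obtain ⟨d, hd⟩ := σ.surjective (τ b)
          by_cases hdb : d = b
          · subst hdb
            exact hne hd.symm
          · have := hcon d hdb
            rw [hd] at this
            exact hdb (τ.injective this).symm
        · exact (hcon b hb).symm
      obtain ⟨b, hb, hne⟩ := this
      rw [Finset.prod_eq_zero (Finset.mem_univ b), mul_zero]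
      rw [hJb b _ _ hb, if_neg hne]
    · intro h
      exact absurd (Finset.mem_univ σ) h
  simp_rw [h2] at key
  rw [sumPerm i (fun x => ((∫ t in Set.Icc (0 : ℝ) 1 ∩ A, ‖q x t‖ ^ 2 : ℝ) : ℂ))] at key
  apply Complex.ofReal_injective
  rw [← integral_complex_ofReal]
  push_cast
  push_cast at key
  rw [← key]
  refine integral_congr_ae (Filter.Eventually.of_forall fun θ => ?_)
  simp only
  congr 1
  rw [Finset.prod_eq_single i]
  · rw [hwi]
    by_cases ht : θ i ∈ A
    · rw [Set.indicator_of_mem ht, Set.indicator_of_mem ht, Complex.ofReal_one]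
    · rw [Set.indicator_of_notMem ht, Set.indicator_of_notMem ht, Complex.ofReal_zero]
  · intro b _ hb
    exact hwb b _ hb
  · intro h
    exact absurd (Finset.mem_univ i) h

theorem andr_one {N : ℕ} (q : Fin N → ℝ → ℂ) (hq : ∀ x, Continuous (q x))
    (ho : ∀ x y, ∫ t in Set.Icc (0 : ℝ) 1, q x t * (starRingEnd ℂ) (q y t) =
      if x = y then 1 else 0) :
    ∫ θ in Set.Icc (0 : Fin N → ℝ) 1, ‖(Matrix.of fun x y => q x (θ y)).det‖ ^ 2 =
      N.factorial := by
  classical
  have hc : ∀ (b : Fin N) (x y : Fin N), Integrable (fun t => q x t * (starRingEnd ℂ) (q y t) * (fun (_ : Fin N) (_ : ℝ) => (1 : ℂ)) b t)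
      (volume.restrict (Set.Icc (0 : ℝ) 1)) := by
    intro b x y
    simp only [mul_one]
    apply ContinuousOn.integrableOn_Icc
    exact ((hq x).mul (Complex.continuous_conj.comp (hq y))).continuousOn
  have key := gen q (fun _ _ => 1) hc
  simp only [mul_one, Finset.prod_const_one] at key
  have h2 : ∀ σ : Equiv.Perm (Fin N), ∑ τ : Equiv.Perm (Fin N),
        (((Equiv.Perm.sign σ : ℤ) : ℂ) * ((Equiv.Perm.sign τ : ℤ) : ℂ)) *
        ∏ b, ∫ t in Set.Icc (0 : ℝ) 1, q (σ b) t * (starRingEnd ℂ) (q (τ b) t) = 1 := by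
    intro σ
    rw [Finset.sum_eq_single σ]
    · rw [sgn2, one_mul]
      refine Finset.prod_eq_one fun b _ => ?_
      rw [ho, if_pos rfl]
    · intro τ _ hτ
      have : ∃ b, σ b ≠ τ b := by
        by_contra hcon
        push Not at hcon
        apply hτ
        ext1 b
        exact (hcon b).symm
      obtain ⟨b, hne⟩ := this
      rw [Finset.prod_eq_zero (Finset.mem_univ b), mul_zero]
      rw [ho, if_neg hne]
    · intro h
      exact absurd (Finset.mem_univ σ) h
  simp_rw [h2] at key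
  rw [Finset.sum_const, Finset.card_univ, Fintype.card_perm, Fintype.card_fin, nsmul_eq_mul, mul_one,
    integral_complex_ofReal] at key
  exact_mod_cast key

end Pool.Agent.Work.MP_7b186b_nt.CU
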