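import Mathlib
import Pool.Agent.Work.MP_7b186b_nt.CU.Defs2

set_option autoImplicit false

namespace Pool.Agent.Work.MP_7b186b_nt.CU

open Finset MeasureTheory

/-
PROOF. On the complex polynomials of degree < N use the inner product <P, Q> = int_0^1 |p(z)|^2 conj(P(z)) Q(z) dt, z = e1 t
(positive definite because p P has finitely many zeros), or the coefficient inner product of p P. Gram-Schmidt applied to
1, X, ..., X^(N-1) gives P_x, x < N, in the span of 1, ..., X^x with nonzero leading coefficient, orthonormal. The matrix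
(P_x(z_y)) is a triangular matrix T with nonzero diagonal times (z_y^x), so its determinant is det T times the Vandermonde
determinant. (Alternative: a positive definite Gram matrix A = (<X^x, X^y>) can be written B^* B, take T = inverse.)
-/

private theorem e1_cont : Continuous e1 := by
  unfold e1
  fun_prop

private theorem e1_inj {s t : ℝ} (hs : s ∈ Set.Ico (0 : ℝ) 1) (ht : t ∈ Set.Ico (0 : ℝ) 1)
    (h : e1 s = e1 t) : s = t := by
  unfold e1 at h
  rw [Complex.exp_eq_exp_iff_exists_int] at h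
  obtain ⟨n, hn⟩ := h
  have h1 : ((s : ℝ) : ℂ) = ((t + n : ℝ) : ℂ) := by
    have h2 : (2 * Real.pi * Complex.I : ℂ) ≠ 0 := Complex.two_pi_I_ne_zero
    apply mul_left_cancel₀ h2
    push_cast
    linear_combination hn
  have h3 : s = t + n := Complex.ofReal_injective h1
  have h4 : (n : ℝ) < 1 := by linarith [hs.2, ht.1]
  have h5 : (-1 : ℝ) < n := by linarith [hs.1, ht.2]
  have h6 : n < 1 := by exact_mod_cast h4
  have h7 : -1 < n := by exact_mod_cast h5
  have h8 : n = 0 := by omega
  rw [h3, h8]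
  simp

private theorem pos_int (F : Polynomial ℂ) (hF : F ≠ 0) :
    0 < ∫ t in Set.Icc (0 : ℝ) 1, ‖F.eval (e1 t)‖ ^ 2 := by
  rw [integral_Icc_eq_integral_Ioc, ← intervalIntegral.integral_of_le zero_le_one]
  have hc : Continuous fun t : ℝ => ‖F.eval (e1 t)‖ ^ 2 := (F.continuous.comp e1_cont).norm.pow 2
  refine intervalIntegral.integral_pos zero_lt_one hc.continuousOn (fun x _ => by positivity) ?_
  by_contra hcon
  push Not at hcon
  apply hF
  refine Polynomial.eq_zero_of_infinite_isRoot F ?_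
  have h1 : (e1 '' Set.Ico (0 : ℝ) 1).Infinite :=
    (Set.Ico_infinite zero_lt_one).image fun s hs t ht h => e1_inj hs ht h
  refine h1.mono ?_
  rintro _ ⟨t, ht, rfl⟩
  have h2 := hcon t ⟨ht.1, ht.2.le⟩
  have h3 : ‖F.eval (e1 t)‖ ^ 2 = 0 := le_antisymm h2 (by positivity)
  have h4 : ‖F.eval (e1 t)‖ = 0 := by
    rw [sq_eq_zero_iff] at h3
    exact h3
  exact norm_eq_zero.1 h4

private noncomputable def gg (p : Polynomial ℂ) (m : ℕ) (t : ℝ) : ℂ :=
  (p * Polynomial.X ^ m).eval (e1 t)

private theorem gg_cont (p : Polynomial ℂ) (m : ℕ) : Continuous (gg p m) :=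
  (p * Polynomial.X ^ m).continuous.comp e1_cont

private noncomputable def am (p : Polynomial ℂ) (N : ℕ) : Matrix (Fin N) (Fin N) ℂ :=
  Matrix.of fun m n => ∫ t in Set.Icc (0 : ℝ) 1, gg p m t * (starRingEnd ℂ) (gg p n t)

private noncomputable def pp {N : ℕ} (v : Fin N → ℂ) : Polynomial ℂ :=
  ∑ m : Fin N, Polynomial.C (v m) * Polynomial.X ^ (m : ℕ)

private theorem pp_eval (p : Polynomial ℂ) {N : ℕ} (v : Fin N → ℂ) (t : ℝ) :
    (p * pp v).eval (e1 t) = ∑ m, v m * gg p m t := by
  unfold pp gg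
  rw [Finset.mul_sum, Polynomial.eval_finsetSum]
  refine Finset.sum_congr rfl fun m _ => ?_
  simp only [Polynomial.eval_mul, Polynomial.eval_C, Polynomial.eval_pow, Polynomial.eval_X]
  ring

private theorem pp_int (p : Polynomial ℂ) {N : ℕ} (v w : Fin N → ℂ) :
    ∫ t in Set.Icc (0 : ℝ) 1, (p * pp v).eval (e1 t) * (starRingEnd ℂ) ((p * pp w).eval (e1 t)) =
      ∑ m, ∑ n, v m * (starRingEnd ℂ) (w n) * am p N m n := by
  have h1 : ∀ t : ℝ, (p * pp v).eval (e1 t) * (starRingEnd ℂ) ((p * pp w).eval (e1 t)) =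
      ∑ m, ∑ n, v m * (starRingEnd ℂ) (w n) * (gg p m t * (starRingEnd ℂ) (gg p n t)) := by
    intro t
    rw [pp_eval, pp_eval, map_sum, Finset.sum_mul_sum]
    refine Finset.sum_congr rfl fun m _ => Finset.sum_congr rfl fun n _ => ?_
    rw [map_mul]
    ring
  simp_rw [h1]
  have hi : ∀ m n : Fin N, Integrable (fun t => v m * (starRingEnd ℂ) (w n) *
      (gg p m t * (starRingEnd ℂ) (gg p n t))) (volume.restrict (Set.Icc (0 : ℝ) 1)) := by
    intro m n
    refine Integrable.const_mul ?_ _
    exact ((gg_cont p m).mul (Complex.continuous_conj.comp (gg_cont p n))).continuousOn.integrableOn_Icc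
  rw [integral_finsetSum _ fun m _ => integrable_finsetSum _ fun n _ => hi m n]
  refine Finset.sum_congr rfl fun m _ => ?_
  rw [integral_finsetSum _ fun n _ => hi m n]
  refine Finset.sum_congr rfl fun n _ => ?_
  rw [integral_const_mul]
  rfl

private theorem pp_ne {N : ℕ} (v : Fin N → ℂ) (hv : v ≠ 0) : pp v ≠ 0 := by
  intro h
  apply hv
  funext m
  have h1 := congrArg (fun q : Polynomial ℂ => q.coeff m) h
  simp only [pp, Polynomial.finsetSum_coeff, Polynomial.coeff_C_mul, Polynomial.coeff_X_pow,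
    Polynomial.coeff_zero] at h1
  rw [Finset.sum_eq_single m] at h1
  · simpa using h1
  · intro b _ hb
    rw [if_neg, mul_zero]
    intro h2
    exact hb (Fin.ext h2.symm)
  · intro h2
    exact absurd (Finset.mem_univ m) h2

open scoped ComplexOrder in
private theorem am_pos (p : Polynomial ℂ) (hp : p ≠ 0) (N : ℕ) : (am p N).PosDef := by
  refine Matrix.PosDef.of_dotProduct_mulVec_pos ?_ ?_
  · ext m n
    rw [Matrix.conjTranspose_apply]
    simp only [am, Matrix.of_apply]
    rw [← starRingEnd_apply, ← integral_conj]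
    refine integral_congr_ae (Filter.Eventually.of_forall fun t => ?_)
    simp only
    rw [map_mul, Complex.conj_conj]
    ring
  · intro x hx
    have h1 : star x ⬝ᵥ ((am p N).mulVec x) = ((∫ t in Set.Icc (0 : ℝ) 1,
        ‖(p * pp (star x)).eval (e1 t)‖ ^ 2 : ℝ) : ℂ) := by
      rw [← integral_complex_ofReal]
      have h2 := pp_int p (star x) (star x)
      have h3 : ∀ t : ℝ, ((‖(p * pp (star x)).eval (e1 t)‖ ^ 2 : ℝ) : ℂ) =
          (p * pp (star x)).eval (e1 t) * (starRingEnd ℂ) ((p * pp (star x)).eval (e1 t)) := by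
        intro t
        rw [Complex.mul_conj', Complex.ofReal_pow]
      simp_rw [h3]
      rw [h2]
      simp only [dotProduct, Matrix.mulVec]
      refine Finset.sum_congr rfl fun m _ => ?_
      rw [Finset.mul_sum]
      refine Finset.sum_congr rfl fun n _ => ?_
      rw [show (starRingEnd ℂ) (star x n) = x n from Complex.conj_conj (x n)]
      ring
    rw [h1]
    have h4 := pos_int (p * pp (star x)) (mul_ne_zero hp (pp_ne _ (star_ne_zero.2 hx)))
    exact_mod_cast h4

open scoped ComplexOrder MatrixOrder in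
private theorem am_dec (p : Polynomial ℂ) (hp : p ≠ 0) (N : ℕ) :
    ∃ T : Matrix (Fin N) (Fin N) ℂ, T.det ≠ 0 ∧ T * am p N * T.conjTranspose = 1 := by
  have hA := am_pos p hp N
  obtain ⟨B, hB⟩ := CStarAlgebra.nonneg_iff_eq_star_mul_self.mp hA.posSemidef.nonneg
  rw [Matrix.star_eq_conjTranspose] at hB
  have hdet : (am p N).det ≠ 0 := (Matrix.isUnit_iff_isUnit_det _).1 hA.isUnit |>.ne_zero
  have hBd : B.det ≠ 0 := by
    intro h
    apply hdet
    rw [hB, Matrix.det_mul, h, mul_zero]
  have hBu : IsUnit B.det := isUnit_iff_ne_zero.2 hBd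
  refine ⟨(B⁻¹).conjTranspose, ?_, ?_⟩
  · rw [Matrix.det_conjTranspose]
    intro h
    have h1 : (B⁻¹).det = 0 := star_eq_zero.1 h
    have h2 := congrArg Matrix.det (Matrix.mul_nonsing_inv B hBu)
    rw [Matrix.det_mul, h1, mul_zero, Matrix.det_one] at h2
    exact zero_ne_one h2
  · rw [hB, Matrix.conjTranspose_conjTranspose]
    have h1 : (B⁻¹).conjTranspose * (B.conjTranspose * B) * B⁻¹ =
        (B * B⁻¹).conjTranspose * (B * B⁻¹) := by
      rw [Matrix.conjTranspose_mul]
      simp only [Matrix.mul_assoc]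
    rw [h1, Matrix.mul_nonsing_inv B hBu, Matrix.conjTranspose_one, Matrix.one_mul]

/-- an orthonormal system adapted to the weight `|p|^2` -/
theorem basis (p : Polynomial ℂ) (hp : p ≠ 0) (N : ℕ) :
    ∃ (P : Fin N → Polynomial ℂ) (C : ℂ), C ≠ 0 ∧ (∀ x, (P x).natDegree < N) ∧
    (∀ x y, ∫ t in Set.Icc (0 : ℝ) 1,
      (p * P x).eval (e1 t) * (starRingEnd ℂ) ((p * P y).eval (e1 t)) = if x = y then 1 else 0) ∧
    ∀ z : Fin N → ℂ, (Matrix.of fun x y => (P x).eval (z y)).det =
      C * (Matrix.of fun x y : Fin N => z y ^ (x : ℕ)).det := by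
  obtain ⟨T, hT, hT1⟩ := am_dec p hp N
  refine ⟨fun x => pp (T x), T.det, hT, ?_, ?_, ?_⟩
  · intro x
    by_cases h : pp (T x) = 0
    · simp only [h, Polynomial.natDegree_zero]
      exact x.pos
    · rw [Polynomial.natDegree_lt_iff_degree_lt h]
      exact Polynomial.degree_sum_fin_lt (T x)
  · intro x y
    rw [pp_int]
    have h1 := congrFun (congrFun hT1 x) y
    rw [Matrix.one_apply] at h1
    rw [← h1, Matrix.mul_apply]
    simp only [Matrix.mul_apply, Matrix.conjTranspose_apply]
    rw [Finset.sum_comm]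
    refine Finset.sum_congr rfl fun n _ => ?_
    rw [Finset.sum_mul]
    refine Finset.sum_congr rfl fun m _ => ?_
    rw [starRingEnd_apply]
    ring
  · intro z
    rw [← Matrix.det_mul]
    congr 1
    ext x y
    simp only [Matrix.of_apply, Matrix.mul_apply, pp, Polynomial.eval_finsetSum, Polynomial.eval_mul,
      Polynomial.eval_C, Polynomial.eval_pow, Polynomial.eval_X]

end Pool.Agent.Work.MP_7b186b_nt.CU
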