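import Mathlib
import Pool.Agent.Work.MP_7b186b_nt.CU.Defs2

set_option autoImplicit false

namespace Pool.Agent.Work.MP_7b186b_nt.CU

open Finset MeasureTheory

/-
PROOF. Fix t, s^2 = sum_x |R_x(e1 t)|^2. If s = 0 the claim is 0 <= B. Otherwise F = sum_x conj(R_x(e1 t))/s * R_x is divisible by p,
has degree < n, int |F|^2 = sum_x |R_x(e1 t)|^2/s^2 = 1 by orthonormality, and F(e1 t) = s. Hence s^2 <= B.
-/

private theorem cont_ev (F : Polynomial ℂ) : Continuous (fun s : ℝ => F.eval (e1 s)) := by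
  have h1 : Continuous e1 := by
    unfold e1
    fun_prop
  exact F.continuous.comp h1

/-- from normalized polynomials to orthonormal systems -/
theorem pt_sum {N : ℕ} (n : ℕ) (R : Fin N → Polynomial ℂ) (p : Polynomial ℂ)
    (hR : ∀ x, (R x).natDegree < n) (hdiv : ∀ x, p ∣ R x)
    (ho : ∀ x y, ∫ t in Set.Icc (0 : ℝ) 1,
      (R x).eval (e1 t) * (starRingEnd ℂ) ((R y).eval (e1 t)) = if x = y then 1 else 0)
    (t B : ℝ) (hB0 : 0 ≤ B)
    (hB : ∀ F : Polynomial ℂ, F.natDegree < n → p ∣ F →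
      ∫ s in Set.Icc (0 : ℝ) 1, ‖F.eval (e1 s)‖ ^ 2 = 1 → ‖F.eval (e1 t)‖ ^ 2 ≤ B) :
    ∑ x, ‖(R x).eval (e1 t)‖ ^ 2 ≤ B := by
  classical
  set S : ℝ := ∑ x, ‖(R x).eval (e1 t)‖ ^ 2 with hS
  have hS0 : 0 ≤ S := Finset.sum_nonneg fun x _ => sq_nonneg _
  rcases hS0.eq_or_lt with h0 | hpos
  · rw [← h0]
    exact hB0
  set s : ℝ := √S with hs
  have hs0 : 0 < s := Real.sqrt_pos.mpr hpos
  have hss : s * s = S := Real.mul_self_sqrt hS0
  obtain ⟨x0, -, -⟩ : ∃ x ∈ (Finset.univ : Finset (Fin N)), ‖(R x).eval (e1 t)‖ ^ 2 ≠ 0 := by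
    refine Finset.exists_ne_zero_of_sum_ne_zero ?_
    exact hpos.ne'
  have hn : 0 < n := lt_of_le_of_lt (Nat.zero_le _) (hR x0)
  set c : Fin N → ℂ := fun x => (starRingEnd ℂ) ((R x).eval (e1 t)) / (s : ℂ) with hc
  set F : Polynomial ℂ := ∑ x, Polynomial.C (c x) * R x with hF
  have hFe : ∀ z : ℂ, F.eval z = ∑ x, c x * (R x).eval z := by
    intro z
    rw [hF, Polynomial.eval_finset_sum]
    refine Finset.sum_congr rfl fun x _ => ?_
    rw [Polynomial.eval_mul, Polynomial.eval_C]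
  have hcc : ∀ x, c x * (starRingEnd ℂ) (c x) = ((‖(R x).eval (e1 t)‖ ^ 2 / S : ℝ) : ℂ) := by
    intro x
    rw [Complex.mul_conj, Complex.normSq_eq_norm_sq]
    congr 1
    rw [hc, norm_div, RCLike.norm_conj, div_pow, Complex.norm_real, Real.norm_eq_abs, sq_abs, sq s,
      hss]
  have h1 : F.natDegree < n := by
    have h2 : F.natDegree ≤ n - 1 := by
      refine Polynomial.natDegree_sum_le_of_forall_le _ _ fun x _ => ?_
      refine (Polynomial.natDegree_C_mul_le _ _).trans ?_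
      have := hR x
      omega
    omega
  have h2 : p ∣ F := Finset.dvd_sum fun x _ => (hdiv x).mul_left _
  have h3 : ∫ u in Set.Icc (0 : ℝ) 1, ‖F.eval (e1 u)‖ ^ 2 = 1 := by
    have e1' : ((∫ u in Set.Icc (0 : ℝ) 1, ‖F.eval (e1 u)‖ ^ 2 : ℝ) : ℂ) =
        ∫ u in Set.Icc (0 : ℝ) 1, ∑ x, ∑ y, (c x * (starRingEnd ℂ) (c y)) *
          ((R x).eval (e1 u) * (starRingEnd ℂ) ((R y).eval (e1 u))) := by
      rw [← integral_complex_ofReal]
      refine integral_congr_ae (Filter.Eventually.of_forall fun u => ?_)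
      show ((‖F.eval (e1 u)‖ ^ 2 : ℝ) : ℂ) = _
      rw [← Complex.normSq_eq_norm_sq, ← Complex.mul_conj, hFe, map_sum, Finset.sum_mul_sum]
      refine Finset.sum_congr rfl fun x _ => Finset.sum_congr rfl fun y _ => ?_
      rw [map_mul]
      ring
    have hint : ∀ x y, IntegrableOn (fun u : ℝ => (c x * (starRingEnd ℂ) (c y)) *
          ((R x).eval (e1 u) * (starRingEnd ℂ) ((R y).eval (e1 u)))) (Set.Icc (0 : ℝ) 1) volume := by
      intro x y
      have hcont : Continuous (fun u : ℝ => (c x * (starRingEnd ℂ) (c y)) *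
          ((R x).eval (e1 u) * (starRingEnd ℂ) ((R y).eval (e1 u)))) := by
        refine continuous_const.mul ((cont_ev (R x)).mul ?_)
        exact Complex.continuous_conj.comp (cont_ev (R y))
      exact hcont.continuousOn.integrableOn_compact isCompact_Icc
    have e2 : (∫ u in Set.Icc (0 : ℝ) 1, ∑ x, ∑ y, (c x * (starRingEnd ℂ) (c y)) *
          ((R x).eval (e1 u) * (starRingEnd ℂ) ((R y).eval (e1 u)))) =
        ∑ x, ∑ y, (c x * (starRingEnd ℂ) (c y)) * (if x = y then 1 else 0) := by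
      rw [integral_finset_sum _ (fun x _ => integrable_finset_sum _ fun y _ => hint x y)]
      refine Finset.sum_congr rfl fun x _ => ?_
      rw [integral_finset_sum _ (fun y _ => hint x y)]
      refine Finset.sum_congr rfl fun y _ => ?_
      rw [integral_const_mul, ho]
    have e3 : ∑ x, ∑ y, (c x * (starRingEnd ℂ) (c y)) * (if x = y then (1 : ℂ) else 0) = 1 := by
      have e4 : ∀ x, ∑ y, (c x * (starRingEnd ℂ) (c y)) * (if x = y then (1 : ℂ) else 0) =
          ((‖(R x).eval (e1 t)‖ ^ 2 / S : ℝ) : ℂ) := by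
        intro x
        rw [← hcc x]
        simp only [mul_ite, mul_one, mul_zero, Finset.sum_ite_eq, Finset.mem_univ, if_true]
      rw [Finset.sum_congr rfl fun x _ => e4 x, ← Complex.ofReal_sum, ← Finset.sum_div, ← hS,
        div_self hpos.ne', Complex.ofReal_one]
    have e5 : ((∫ u in Set.Icc (0 : ℝ) 1, ‖F.eval (e1 u)‖ ^ 2 : ℝ) : ℂ) = ((1 : ℝ) : ℂ) := by
      rw [e1', e2, e3, Complex.ofReal_one]
    exact Complex.ofReal_injective e5
  have h4 := hB F h1 h2 h3
  have h5 : F.eval (e1 t) = (s : ℂ) := by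
    rw [hFe]
    have e6 : ∀ x, c x * (R x).eval (e1 t) = ((‖(R x).eval (e1 t)‖ ^ 2 / s : ℝ) : ℂ) := by
      intro x
      have e7 : (starRingEnd ℂ) ((R x).eval (e1 t)) * (R x).eval (e1 t) =
          ((‖(R x).eval (e1 t)‖ ^ 2 : ℝ) : ℂ) := by
        rw [mul_comm, Complex.mul_conj, Complex.normSq_eq_norm_sq]
      rw [Complex.ofReal_div, ← e7]
      show (starRingEnd ℂ) ((R x).eval (e1 t)) / (s : ℂ) * (R x).eval (e1 t) = _
      ring
    rw [Finset.sum_congr rfl fun x _ => e6 x, ← Complex.ofReal_sum, ← Finset.sum_div, ← hS]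
    congr 1
    rw [← hss, mul_div_assoc, div_self hs0.ne', mul_one]
  rw [h5, Complex.norm_real, Real.norm_eq_abs, sq_abs, sq, hss] at h4
  exact h4

end Pool.Agent.Work.MP_7b186b_nt.CU
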