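import Mathlib
import Pool.Agent.Work.MP_7b186b_nt.CU.Defs2
import Pool.Agent.Work.MP_7b186b_nt.CU.Int
import Pool.Agent.Work.MP_7b186b_nt.CU.Andr
import Pool.Agent.Work.MP_7b186b_nt.CU.Basis
import Pool.Agent.Work.MP_7b186b_nt.CU.PtS
import Pool.Agent.Work.MP_7b186b_nt.CU.Gp

set_option autoImplicit false

namespace Pool.Agent.Work.MP_7b186b_nt.CU

open Finset MeasureTheory

/-
PROOF. N = 0: cnt = 0 and the right side is >= 0. N >= 1: with P, C from basis and q_x(t) = (p P_x)(e1 t):
det(q_x(theta_y)) = prod_y p(z_y) det(P_x(z_y)) = C prod_y p(z_y) * det(z_y^x), and |det(z_y^x)| = |vd theta|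
(Matrix.det_vandermonde and transpose), so ||det||^2 = |C|^2 |ev (gp p)|^2 |vd|^2 (gp_ev). Hence |C|^2 cue(|ev (gp p)|^2) = N! (andr_one)
and |C|^2 cue(|ev (gp p)|^2 cnt) = sum_i (N-1)! sum_x int_(Icc 0 1 cap A) |q_x|^2 = N! int_(Icc 0 1 cap A) sum_x |q_x|^2 (andr), where
A = {t : fract (t - a) < L}. For t in A: t is congruent mod 1 to t' = a + fract (t - a) in [a, a + L), e1 t' = e1 t, so by pt_sum
(n = N + k, natDegree (p P_x) < N + k) sum_x |q_x(t)|^2 <= B on A; the measure of Icc 0 1 cap A is L. Total at most N! B L.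
-/

private theorem e1_int (t : ℝ) (n : ℤ) : e1 (t + n) = e1 t := by
  unfold e1
  have h1 : 2 * (Real.pi : ℂ) * ((t + n : ℝ) : ℂ) * Complex.I =
      2 * Real.pi * t * Complex.I + n * (2 * Real.pi * Complex.I) := by
    push_cast
    ring
  rw [h1, Complex.exp_add, Complex.exp_int_mul_two_pi_mul_I, mul_one]

private theorem e1_cont : Continuous e1 := by
  unfold e1
  fun_prop

/-- the measure of an arc -/
private theorem arc_vol (a L : ℝ) (hL0 : 0 ≤ L) (hL1 : L ≤ 1) :
    volume.real (Set.Icc (0 : ℝ) 1 ∩ {t | Int.fract (t - a) < L}) = L := by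
  have hmeas : MeasurableSet {t : ℝ | Int.fract (t - a) < L} := by
    have h1 : Measurable (fun t : ℝ => t - a) := by fun_prop
    exact measurableSet_lt (measurable_fract.comp h1) measurable_const
  set f : ℝ → ℝ := Set.indicator {t : ℝ | Int.fract (t - a) < L} (fun _ => 1) with hf
  have hper : Function.Periodic f 1 := by
    intro t
    rw [hf]
    have h1 : Int.fract (t + 1 - a) = Int.fract (t - a) := by
      have : t + 1 - a = (t - a) + 1 := by ring
      rw [this, Int.fract_add_one]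
    simp only [Set.indicator, Set.mem_ofPred_eq, h1]
  have h1 : volume.real (Set.Icc (0 : ℝ) 1 ∩ {t | Int.fract (t - a) < L}) =
      ∫ t in Set.Icc (0 : ℝ) 1, f t := by
    rw [hf, setIntegral_indicator hmeas, setIntegral_const, smul_eq_mul, mul_one]
  have h2 : ∫ t in Set.Icc (0 : ℝ) 1, f t = ∫ t in (0 : ℝ)..1, f t := by
    rw [integral_Icc_eq_integral_Ioc, intervalIntegral.integral_of_le zero_le_one]
  have h3 : ∫ t in (0 : ℝ)..1, f t = ∫ t in (a : ℝ)..(a + 1), f t := by
    have := hper.intervalIntegral_add_eq 0 a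
    rw [zero_add] at this
    exact this
  have h4 : ∫ t in (a : ℝ)..(a + 1), f t = ∫ t in (0 : ℝ)..1, f (t + a) := by
    rw [intervalIntegral.integral_comp_add_right (fun t => f t) a, zero_add, add_comm 1 a]
  have h5 : ∫ t in (0 : ℝ)..1, f (t + a) = ∫ t in (0 : ℝ)..1, Set.indicator (Set.Iio L) (fun _ => (1 : ℝ)) t := by
    rw [intervalIntegral.integral_of_le zero_le_one, intervalIntegral.integral_of_le zero_le_one,
      ← integral_Ico_eq_integral_Ioc, ← integral_Ico_eq_integral_Ioc]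
    refine setIntegral_congr_fun measurableSet_Ico (fun t ht => ?_)
    rw [hf]
    have h6 : Int.fract (t + a - a) = t := by
      rw [add_sub_cancel_right]
      exact Int.fract_eq_self.mpr ht
    simp only [Set.indicator, Set.mem_ofPred_eq, h6, Set.mem_Iio]
  rw [h1, h2, h3, h4, h5, intervalIntegral.integral_of_le zero_le_one,
    setIntegral_indicator measurableSet_Iio, setIntegral_const, smul_eq_mul, mul_one]
  have h7 : Set.Ioc (0 : ℝ) 1 ∩ Set.Iio L = Set.Ioo 0 L := by
    ext t
    simp only [Set.mem_inter_iff, Set.mem_Ioc, Set.mem_Iio, Set.mem_Ioo]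
    constructor
    · rintro ⟨⟨h8, _⟩, h9⟩
      exact ⟨h8, h9⟩
    · rintro ⟨h8, h9⟩
      exact ⟨⟨h8, by linarith⟩, h9⟩
  rw [h7, Real.volume_real_Ioo_of_le hL0, sub_zero]

/-- mean number of eigenvalues in an arc under the weight `|∏ p(z_i)|^2` -/
theorem low_count (N k : ℕ) (p : Polynomial ℂ) (hp : p ≠ 0) (hk : p.natDegree ≤ k) (a L B : ℝ)
    (hL0 : 0 ≤ L) (hL1 : L ≤ 1) (hB0 : 0 ≤ B)
    (hB : ∀ F : Polynomial ℂ, F.natDegree < N + k → p ∣ F →
      ∫ s in Set.Icc (0 : ℝ) 1, ‖F.eval (e1 s)‖ ^ 2 = 1 →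
      ∀ t, a ≤ t → t ≤ a + L → ‖F.eval (e1 t)‖ ^ 2 ≤ B) :
    cue N (fun θ => ‖ev (gp p : MvPolynomial (Fin N) ℂ) θ‖ ^ 2 * cnt a L θ) ≤
      L * B * cue N (fun θ => ‖ev (gp p : MvPolynomial (Fin N) ℂ) θ‖ ^ 2) := by
  rcases Nat.eq_zero_or_pos N with h0 | hN
  · subst h0
    have h1 : cue 0 (fun θ => ‖ev (gp p : MvPolynomial (Fin 0) ℂ) θ‖ ^ 2 * cnt a L θ) = 0 := by
      simp [cue, cnt]
    rw [h1]
    have := cue_nonneg (gp p : MvPolynomial (Fin 0) ℂ)
    positivity
  obtain ⟨P, C, hC, hPd, hPo, hPdet⟩ := basis p hp N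
  set q : Fin N → ℝ → ℂ := fun x t => (p * P x).eval (e1 t) with hq
  have hqc : ∀ x, Continuous (q x) := fun x => (p * P x).continuous.comp e1_cont
  have hdet : ∀ θ : Fin N → ℝ, ‖(Matrix.of fun x y => q x (θ y)).det‖ ^ 2 =
      ‖C‖ ^ 2 * (‖ev (gp p : MvPolynomial (Fin N) ℂ) θ‖ ^ 2 * ‖vd θ‖ ^ 2) := by
    intro θ
    have h1 : (Matrix.of fun x y => q x (θ y)) = Matrix.of (fun x y =>
        (fun y => p.eval (e1 (θ y))) y *
          (Matrix.of fun x y => (P x).eval ((fun y => e1 (θ y)) y)) x y) := by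
      ext x y
      simp [hq]
    have h2 : (Matrix.of fun x y : Fin N => (fun y => e1 (θ y)) y ^ (x : ℕ)).det = vd θ := by
      have h3 : (Matrix.of fun x y : Fin N => (fun y => e1 (θ y)) y ^ (x : ℕ)) =
          (Matrix.vandermonde (fun y => e1 (θ y))).transpose := by
        ext x y
        simp [Matrix.vandermonde_apply, Matrix.transpose_apply]
      rw [h3, Matrix.det_transpose, Matrix.det_vandermonde]
      rfl
    rw [h1, Matrix.det_mul_row, hPdet, h2, norm_mul, norm_mul, gp_ev]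
    ring
  have hone := andr_one q hqc hPo
  have hE : ‖C‖ ^ 2 * cue N (fun θ => ‖ev (gp p : MvPolynomial (Fin N) ℂ) θ‖ ^ 2) =
      N.factorial := by
    rw [← hone]
    unfold cue
    rw [← integral_const_mul]
    refine integral_congr_ae (Filter.Eventually.of_forall (fun θ => ?_))
    simp only
    rw [hdet]
  set A : Set ℝ := {t | Int.fract (t - a) < L} with hA
  have hAm : MeasurableSet A := by
    have h1 : Measurable (fun t : ℝ => t - a) := by fun_prop
    exact measurableSet_lt (measurable_fract.comp h1) measurable_const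
  have hF : ‖C‖ ^ 2 * cue N (fun θ => ‖ev (gp p : MvPolynomial (Fin N) ℂ) θ‖ ^ 2 * cnt a L θ) =
      N.factorial * ∑ x, ∫ t in Set.Icc (0 : ℝ) 1 ∩ A, ‖q x t‖ ^ 2 := by
    have h1 : ‖C‖ ^ 2 * cue N (fun θ => ‖ev (gp p : MvPolynomial (Fin N) ℂ) θ‖ ^ 2 * cnt a L θ) =
        ∑ i, ∫ θ in Set.Icc (0 : Fin N → ℝ) 1, ‖(Matrix.of fun x y => q x (θ y)).det‖ ^ 2 *
          A.indicator (fun _ => (1 : ℝ)) (θ i) := by
      rw [← integral_finsetSum]
      · unfold cue
        rw [← integral_const_mul]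
        refine integral_congr_ae (Filter.Eventually.of_forall (fun θ => ?_))
        simp only
        rw [← Finset.mul_sum, hdet]
        have h2 : cnt a L θ = ∑ i, A.indicator (fun _ => (1 : ℝ)) (θ i) := by
          unfold cnt
          refine Finset.sum_congr rfl (fun i _ => ?_)
          simp [Set.indicator, hA]
        rw [h2]
        ring
      · intro i _
        have hc : Continuous (fun θ : Fin N → ℝ => ‖(Matrix.of fun x y => q x (θ y)).det‖ ^ 2) := by
          simp_rw [hdet]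
          exact continuous_const.mul (((ev_cont _).norm.pow 2).mul (vd_cont.norm.pow 2))
        refine Integrable.mul_bdd (c := 1) (int_cont _ hc) ?_ ?_
        · exact ((measurable_const.indicator hAm).comp (measurable_pi_apply i)).aestronglyMeasurable
        · refine Filter.Eventually.of_forall (fun θ => ?_)
          unfold Set.indicator
          split_ifs <;> simp
    rw [h1]
    simp_rw [andr q hqc hPo A hAm]
    rw [Finset.sum_const, Finset.card_univ, Fintype.card_fin, nsmul_eq_mul, ← mul_assoc]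
    congr 1
    have h3 : N * (N - 1).factorial = N.factorial := Nat.mul_factorial_pred hN.ne'
    exact_mod_cast h3
  have hbound : ∑ x, ∫ t in Set.Icc (0 : ℝ) 1 ∩ A, ‖q x t‖ ^ 2 ≤ L * B := by
    have hfin : volume (Set.Icc (0 : ℝ) 1 ∩ A) ≠ ⊤ :=
      ne_top_of_le_ne_top (by simp) (measure_mono Set.inter_subset_left)
    have hint : ∀ x ∈ (Finset.univ : Finset (Fin N)), IntegrableOn (fun t => ‖q x t‖ ^ 2)
        (Set.Icc (0 : ℝ) 1 ∩ A) := by
      intro x _
      refine IntegrableOn.mono_set ?_ Set.inter_subset_left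
      exact ((hqc x).norm.pow 2).continuousOn.integrableOn_compact isCompact_Icc
    rw [← integral_finsetSum _ hint]
    have h1 : ∫ t in Set.Icc (0 : ℝ) 1 ∩ A, ∑ x, ‖q x t‖ ^ 2 ≤
        ∫ _t in Set.Icc (0 : ℝ) 1 ∩ A, B := by
      refine setIntegral_mono_on (integrable_finsetSum _ hint) (integrableOn_const hfin)
        (measurableSet_Icc.inter hAm) (fun t ht => ?_)
      have ht2 : Int.fract (t - a) < L := ht.2
      have ht3 : e1 t = e1 (a + Int.fract (t - a)) := by
        have h2 : t = a + Int.fract (t - a) + (⌊t - a⌋ : ℤ) := by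
          have := Int.fract_add_floor (t - a)
          linarith
        conv_lhs => rw [h2]
        exact e1_int _ _
      refine pt_sum (N + k) (fun x => p * P x) p (fun x => ?_) (fun x => dvd_mul_right _ _) hPo
        t B hB0 (fun F hF hdiv hn => ?_)
      · have h3 := Polynomial.natDegree_mul_le (p := p) (q := P x)
        have h4 := hPd x
        omega
      · rw [ht3]
        refine hB F hF hdiv hn _ ?_ ?_
        · have := Int.fract_nonneg (t - a)
          linarith
        · linarith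
    refine h1.trans (le_of_eq ?_)
    rw [setIntegral_const, arc_vol a L hL0 hL1, smul_eq_mul]
  have hC2 : 0 < ‖C‖ ^ 2 := by positivity
  have hfinal : ‖C‖ ^ 2 *
      cue N (fun θ => ‖ev (gp p : MvPolynomial (Fin N) ℂ) θ‖ ^ 2 * cnt a L θ) ≤
      ‖C‖ ^ 2 * (L * B * cue N (fun θ => ‖ev (gp p : MvPolynomial (Fin N) ℂ) θ‖ ^ 2)) := by
    rw [hF]
    have h1 : ‖C‖ ^ 2 * (L * B * cue N (fun θ => ‖ev (gp p : MvPolynomial (Fin N) ℂ) θ‖ ^ 2)) =
        N.factorial * (L * B) := by
      rw [← hE]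
      ring
    rw [h1]
    exact mul_le_mul_of_nonneg_left hbound (by positivity)
  exact le_of_mul_le_mul_left hfinal hC2

end Pool.Agent.Work.MP_7b186b_nt.CU
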