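import Mathlib

set_option autoImplicit false

namespace Pool.Agent.Work.MP_7b186b_nt.CU

open Finset

/-
PROOF. k^3 exp(-ε^2 k/20) tends to 0 and 96/(ε k) tends to 0 (tendsto_pow_mul_exp_neg_atTop_nhds_zero after scaling), the right side is
a positive constant. fac: Stirling.stirlingSeq is antitone on n >= 1 and stirlingSeq 1 = e/sqrt 2, so
n! <= (e/sqrt 2) sqrt(2 n) (n/e)^n = e sqrt n (n/e)^n (or by induction: (1+1/n)^(n+1/2) >= e).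
par: with R₀ = floor(ε k/16) >= 1, n = N + k, h = 1/((1+ε/2) N), k/N <= ε/4:
4 n R₀ h = 4 R₀ (1 + k/N)/(1 + ε/2) <= 4 R₀ (1 + ε/4)/(1 + ε/2) <= 4 R₀ (1 - ε/5) (because (ε/4)/(1+ε/2) >= ε/5 for ε <= 1/2), and by fac
(R₀!/R₀^R₀)^4 <= e^4 R₀^2 exp(-4 R₀). The product is at most n e^4 R₀^2 exp(-4 ε R₀/5) and R₀ >= ε k/16 - 1, R₀ <= k, n <= 2 N, so with
L = (1-ε) k/N: L * (...) <= 2 k e^4 k^2 exp(-ε^2 k/20 + 1) (4 ε/5 <= 1).
-/

theorem par_k (ε : ℝ) (hε0 : 0 < ε) (hε1 : ε ≤ 1 / 2) : ∃ k₀ : ℕ, ∀ k : ℕ, k₀ ≤ k →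
    16 / ε ≤ k ∧ 2 * Real.exp 5 * (k : ℝ) ^ 3 * Real.exp (-(ε ^ 2 * k / 20)) + 96 / (ε * k) <
      (ε / (1 + ε)) ^ 2 / 2 := by
  have hc : Filter.Tendsto (fun k : ℕ => (k : ℝ)) Filter.atTop Filter.atTop :=
    tendsto_natCast_atTop_atTop
  have h1 : ∀ᶠ k : ℕ in Filter.atTop, 16 / ε ≤ (k : ℝ) := hc.eventually_ge_atTop _
  have hpos : 0 < ε ^ 2 / 20 := by positivity
  have h2 : Filter.Tendsto (fun k : ℕ => ε ^ 2 / 20 * (k : ℝ)) Filter.atTop Filter.atTop :=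
    Filter.Tendsto.const_mul_atTop hpos hc
  have h3 := ((Real.tendsto_pow_mul_exp_neg_atTop_nhds_zero 3).comp h2).const_mul
    (2 * Real.exp 5 * (20 / ε ^ 2) ^ 3)
  have h4 : Filter.Tendsto (fun k : ℕ => 96 / ε * (k : ℝ)⁻¹) Filter.atTop (nhds (96 / ε * 0)) :=
    (tendsto_inv_atTop_zero.comp hc).const_mul _
  have h5 := h3.add h4
  rw [mul_zero, mul_zero, add_zero] at h5
  have h6 : 0 < (ε / (1 + ε)) ^ 2 / 2 := by positivity
  have h7 := h5.eventually_lt_const h6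
  obtain ⟨k₀, hk⟩ := Filter.eventually_atTop.1 (h1.and h7)
  refine ⟨k₀, fun k hk' => ⟨(hk k hk').1, ?_⟩⟩
  have h8 := (hk k hk').2
  simp only [Function.comp_apply] at h8
  have h9 : 2 * Real.exp 5 * (20 / ε ^ 2) ^ 3 *
      ((ε ^ 2 / 20 * (k : ℝ)) ^ 3 * Real.exp (-(ε ^ 2 / 20 * (k : ℝ)))) =
      2 * Real.exp 5 * (k : ℝ) ^ 3 * Real.exp (-(ε ^ 2 * k / 20)) := by
    have e1 : ε ^ 2 / 20 * (k : ℝ) = ε ^ 2 * k / 20 := by ring
    have e2 : (20 / ε ^ 2) ^ 3 * (ε ^ 2 / 20 * (k : ℝ)) ^ 3 = (k : ℝ) ^ 3 := by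
      rw [← mul_pow]
      congr 1
      field_simp
    rw [← e1]
    calc _ = 2 * Real.exp 5 * ((20 / ε ^ 2) ^ 3 * (ε ^ 2 / 20 * (k : ℝ)) ^ 3) *
          Real.exp (-(ε ^ 2 / 20 * (k : ℝ))) := by ring
      _ = _ := by rw [e2]
  have h10 : 96 / ε * (k : ℝ)⁻¹ = 96 / (ε * k) := by
    rw [div_mul_eq_div_div, div_eq_mul_inv (96 / ε)]
  rw [h9, h10] at h8
  exact h8

theorem fac (n : ℕ) (hn : 1 ≤ n) :
    (n.factorial : ℝ) / (n : ℝ) ^ n ≤ Real.exp 1 * Real.sqrt n * Real.exp (-(n : ℝ)) := by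
  obtain ⟨m, rfl⟩ : ∃ m, n = m + 1 := ⟨n - 1, by omega⟩
  have h1 : Stirling.stirlingSeq (m + 1) ≤ Stirling.stirlingSeq 1 :=
    Stirling.stirlingSeq'_antitone (Nat.zero_le m)
  rw [Stirling.stirlingSeq_one] at h1
  unfold Stirling.stirlingSeq at h1
  have hn0 : (0 : ℝ) < ((m + 1 : ℕ) : ℝ) := by positivity
  obtain ⟨x, hx⟩ : ∃ x : ℝ, x = ((m + 1 : ℕ) : ℝ) := ⟨_, rfl⟩
  rw [← hx] at h1 hn0 ⊢
  have hs2 : Real.sqrt (2 * x) = Real.sqrt 2 * Real.sqrt x := Real.sqrt_mul (by norm_num) x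
  have h2 : 0 < Real.sqrt 2 := Real.sqrt_pos.2 (by norm_num)
  have h3 : 0 < Real.sqrt x := Real.sqrt_pos.2 hn0
  have he : (x / Real.exp 1) ^ (m + 1) = x ^ (m + 1) * Real.exp (-x) := by
    rw [div_pow, ← Real.exp_nat_mul, mul_one, Real.exp_neg, ← hx, div_eq_mul_inv]
  have hp : 0 < x ^ (m + 1) := pow_pos hn0 _
  rw [hs2, he, div_le_div_iff₀ (by positivity) h2] at h1
  rw [div_le_iff₀ hp]
  have h4 : Real.sqrt 2 * ((m + 1).factorial : ℝ) ≤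
      Real.sqrt 2 * (Real.exp 1 * Real.sqrt x * Real.exp (-x) * x ^ (m + 1)) := by
    calc Real.sqrt 2 * ((m + 1).factorial : ℝ) = ((m + 1).factorial : ℝ) * Real.sqrt 2 := by ring
      _ ≤ _ := h1
      _ = _ := by ring
  exact le_of_mul_le_mul_left h4 h2

theorem par (ε : ℝ) (hε0 : 0 < ε) (hε1 : ε ≤ 1 / 2) (k N : ℕ) (hk : 16 / ε ≤ k)
    (hN : 4 * k / ε ≤ N) :
    (1 - ε) * k / N * (((N + k : ℕ) : ℝ) * Real.exp (4 * ((N + k : ℕ) : ℝ) * ⌊ε * k / 16⌋₊ *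
      (1 / ((1 + ε / 2) * N))) * (((⌊ε * k / 16⌋₊).factorial : ℝ) /
      (⌊ε * k / 16⌋₊ : ℝ) ^ ⌊ε * k / 16⌋₊) ^ 4) ≤
      2 * Real.exp 5 * (k : ℝ) ^ 3 * Real.exp (-(ε ^ 2 * k / 20)) := by
  have hk0 : (0 : ℝ) < k := lt_of_lt_of_le (by positivity) hk
  have hN0 : (0 : ℝ) < N := lt_of_lt_of_le (by positivity) hN
  have hx1 : 1 ≤ ε * k / 16 := by
    rw [div_le_iff₀ hε0] at hk
    linarith
  obtain ⟨R, hR⟩ : ∃ R : ℕ, R = ⌊ε * k / 16⌋₊ := ⟨_, rfl⟩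
  rw [← hR]
  have hR1 : 1 ≤ R := by
    rw [hR]
    exact Nat.le_floor (by exact_mod_cast hx1)
  have hRle : (R : ℝ) ≤ ε * k / 16 := by
    rw [hR]
    exact Nat.floor_le (by positivity)
  have hRge : ε * k / 16 - 1 ≤ R := by
    rw [hR]
    have := Nat.lt_floor_add_one (ε * k / 16)
    linarith
  have hR0 : (0 : ℝ) < R := by exact_mod_cast hR1
  have hRk : (R : ℝ) ≤ k := by
    have : ε * k / 16 ≤ k := by nlinarith
    linarith
  have hkN : (k : ℝ) / N ≤ ε / 4 := by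
    rw [div_le_iff₀ hε0] at hN
    rw [div_le_iff₀ hN0]
    linarith
  have hcast : ((N + k : ℕ) : ℝ) = N + k := by push_cast; ring
  rw [hcast]
  -- the factorial
  have hf : ((R.factorial : ℝ) / (R : ℝ) ^ R) ^ 4 ≤
      Real.exp 4 * (R : ℝ) ^ 2 * Real.exp (-(4 * R)) := by
    have h1 := fac R hR1
    have h2 : (Real.exp 1 * Real.sqrt R * Real.exp (-(R : ℝ))) ^ 4 =
        Real.exp 4 * (R : ℝ) ^ 2 * Real.exp (-(4 * R)) := by
      have e1 : Real.exp 1 ^ 4 = Real.exp 4 := by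
        rw [← Real.exp_nat_mul]
        norm_num
      have e2 : Real.exp (-(R : ℝ)) ^ 4 = Real.exp (-(4 * R)) := by
        rw [← Real.exp_nat_mul]
        congr 1
        push_cast
        ring
      have e3 : Real.sqrt R ^ 4 = (R : ℝ) ^ 2 := by
        have : Real.sqrt R ^ 4 = (Real.sqrt R ^ 2) ^ 2 := by ring
        rw [this, Real.sq_sqrt hR0.le]
      rw [mul_pow, mul_pow, e1, e2, e3]
    rw [← h2]
    exact pow_le_pow_left₀ (by positivity) h1 4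
  -- the exponent
  have hexp : 4 * ((N : ℝ) + k) * R * (1 / ((1 + ε / 2) * N)) ≤ 4 * R * (1 - ε / 5) := by
    have e1 : 4 * ((N : ℝ) + k) * R * (1 / ((1 + ε / 2) * N)) =
        4 * R * ((1 + k / N) / (1 + ε / 2)) := by
      field_simp
    rw [e1]
    refine mul_le_mul_of_nonneg_left ?_ (by positivity)
    rw [div_le_iff₀ (by positivity)]
    nlinarith
  have hE : Real.exp (4 * ((N : ℝ) + k) * R * (1 / ((1 + ε / 2) * N))) *
      (Real.exp 4 * (R : ℝ) ^ 2 * Real.exp (-(4 * R))) ≤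
      Real.exp 5 * (k : ℝ) ^ 2 * Real.exp (-(ε ^ 2 * k / 20)) := by
    have e1 : Real.exp (4 * ((N : ℝ) + k) * R * (1 / ((1 + ε / 2) * N))) *
        (Real.exp 4 * (R : ℝ) ^ 2 * Real.exp (-(4 * R))) =
        (R : ℝ) ^ 2 * Real.exp (4 * ((N : ℝ) + k) * R * (1 / ((1 + ε / 2) * N)) + 4 + -(4 * R)) := by
      rw [Real.exp_add, Real.exp_add]
      ring
    have e2 : Real.exp 5 * (k : ℝ) ^ 2 * Real.exp (-(ε ^ 2 * k / 20)) =
        (k : ℝ) ^ 2 * Real.exp (5 + -(ε ^ 2 * k / 20)) := by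
      rw [Real.exp_add]
      ring
    rw [e1, e2]
    refine mul_le_mul (pow_le_pow_left₀ hR0.le hRk 2) (Real.exp_le_exp.2 ?_) (Real.exp_pos _).le
      (by positivity)
    nlinarith
  have hL : (1 - ε) * k / N * ((N : ℝ) + k) ≤ k := by
    have e1 : (1 - ε) * k / N * ((N : ℝ) + k) = (1 - ε) * k * (1 + k / N) := by
      field_simp
    rw [e1]
    have e2 : (1 - ε) * (1 + k / N) ≤ 1 := by nlinarith [div_pos hk0 hN0]
    calc (1 - ε) * k * (1 + k / N) = k * ((1 - ε) * (1 + k / N)) := by ring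
      _ ≤ k * 1 := mul_le_mul_of_nonneg_left e2 hk0.le
      _ = k := mul_one _
  have hL0 : 0 ≤ (1 - ε) * k / N * ((N : ℝ) + k) := by
    have : 0 ≤ 1 - ε := by linarith
    positivity
  calc (1 - ε) * k / N * (((N : ℝ) + k) * Real.exp (4 * ((N : ℝ) + k) * R *
        (1 / ((1 + ε / 2) * N))) * ((R.factorial : ℝ) / (R : ℝ) ^ R) ^ 4)
      = (1 - ε) * k / N * ((N : ℝ) + k) * (Real.exp (4 * ((N : ℝ) + k) * R *
        (1 / ((1 + ε / 2) * N))) * ((R.factorial : ℝ) / (R : ℝ) ^ R) ^ 4) := by ring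
    _ ≤ (1 - ε) * k / N * ((N : ℝ) + k) * (Real.exp (4 * ((N : ℝ) + k) * R *
        (1 / ((1 + ε / 2) * N))) * (Real.exp 4 * (R : ℝ) ^ 2 * Real.exp (-(4 * R)))) :=
        mul_le_mul_of_nonneg_left (mul_le_mul_of_nonneg_left hf (Real.exp_pos _).le) hL0
    _ ≤ k * (Real.exp 5 * (k : ℝ) ^ 2 * Real.exp (-(ε ^ 2 * k / 20))) :=
        mul_le_mul hL hE (by positivity) hk0.le
    _ = Real.exp 5 * (k : ℝ) ^ 3 * Real.exp (-(ε ^ 2 * k / 20)) := by ring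
    _ ≤ 2 * Real.exp 5 * (k : ℝ) ^ 3 * Real.exp (-(ε ^ 2 * k / 20)) := by
        have : 0 ≤ Real.exp 5 * (k : ℝ) ^ 3 * Real.exp (-(ε ^ 2 * k / 20)) := by positivity
        linarith

end Pool.Agent.Work.MP_7b186b_nt.CU
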