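import Mathlib
import Pool.Agent.Work.MP_7b186b_nt.CU.Defs2
import Pool.Agent.Work.MP_7b186b_nt.CU.Int
import Pool.Agent.Work.MP_7b186b_nt.CU.Up
import Pool.Agent.Work.MP_7b186b_nt.CU.LowC
import Pool.Agent.Work.MP_7b186b_nt.CU.ArcB
import Pool.Agent.Work.MP_7b186b_nt.CU.Fej
import Pool.Agent.Work.MP_7b186b_nt.CU.Half
import Pool.Agent.Work.MP_7b186b_nt.CU.Avg
import Pool.Agent.Work.MP_7b186b_nt.CU.Par
import Pool.Agent.Work.MP_7b186b_nt.CU.Gp
import Pool.Agent.Work.MP_7b186b_nt.CU.PzA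
import Pool.Agent.Work.MP_7b186b_nt.CU.TwA

set_option autoImplicit false

namespace Pool.Agent.Work.MP_7b186b_nt.CU

open Finset MeasureTheory

/-
PROOF. k₀ from par_k. p = pz k h with h = 1/((1+ε/2) N), R₀ = floor(ε k/16) >= 1, L = (1-ε) k/N <= 1, y = ε k/(16 N) <= 1/2,
b = ceiling of (1+ε) k N/2 (>= 1), K = k N, φ d = max 0 (1 - d/b), G = tw K φ (gp p): symmetric (tw_sym, gp_sym), total degree < b, hence
<= (1+ε) k N/2 (as a real number, since b - 1 < (1+ε) k N/2). E = cue(|ev (gp p)|^2) > 0 (gp_pos). half_mass (pz_pal):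
cue(|ev G|^2) >= (ε/(1+ε))^2/2 * E > 0. fej gives s, c with multipliers φ for d <= K. avg_bound with a = -L/2:
cue(|ev G|^2 cnt) <= sum_r c_r cue(|ev (gp p)|^2 cnt(a + s_r, L)), sum_r c_r = 1.
(i) |s_r| <= y: for t in [a + s_r, a + s_r + L]: |t| <= L/2 + y and |t| + R₀ h <= (k-1)/2 h because (k-1)/2 h - R₀ h >=
(1-ε/2)(k/2 - 1/2 - R₀)/N >= ((1-ε/2) k/2 - 1/2 - ε k/16)/N >= ((1-ε) k/2 + ε k/16)/N iff ε k/4 >= ε k/8 + 1/2, true for k >= 4/ε. So by
low_count and arc_bound (n = N + k) the term is <= L B E, with L B <= 2 e^5 k^3 exp(-ε^2 k/20) (par).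
(ii) |s_r| > y: cue_bound for gp p with d = k N: the term is <= (N L + sqrt(2 k N L (1-L))) E <= (k + sqrt 2 k) E <= 3 k E, and the sum of
these c_r is at most 1/(b y) <= 2/(k N) * 16 N/(ε k) = 32/(ε k^2); total 96/(ε k) E.
(cue of a difference: cue(|ev|^2 (cnt - N L)) = cue(|ev|^2 cnt) - N L cue(|ev|^2), integrability: bounded measurable.)
Sum: < (ε/(1+ε))^2/2 * E <= cue(|ev G|^2) by par_k.
-/

/-- the crude bound for arbitrary arcs -/
private theorem crude (k N : ℕ) (p : Polynomial ℂ) (hk : p.natDegree ≤ k) (a L : ℝ)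
    (hL0 : 0 ≤ L) (hL1 : L ≤ 1) (hNL : N * L ≤ k) :
    cue N (fun θ => ‖ev (gp p : MvPolynomial (Fin N) ℂ) θ‖ ^ 2 * cnt a L θ) ≤
      3 * k * cue N (fun θ => ‖ev (gp p : MvPolynomial (Fin N) ℂ) θ‖ ^ 2) := by
  have h1 := cue_bound N (k * N) (gp p) (gp_sym p) (gp_deg p k hk) a L hL0 hL1
  rw [cue_sub] at h1
  have h2 := (abs_le.mp h1).2
  have hE := cue_nonneg (gp p : MvPolynomial (Fin N) ℂ)
  set E := cue N (fun θ => ‖ev (gp p : MvPolynomial (Fin N) ℂ) θ‖ ^ 2)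
  have hk0 : (0 : ℝ) ≤ k := Nat.cast_nonneg k
  have hs : Real.sqrt (2 * ((k * N : ℕ) : ℝ) * L * (1 - L)) ≤ 2 * k := by
    rw [Real.sqrt_le_left (by positivity)]
    push_cast
    have h3 : 2 * ((k : ℝ) * N) * L * (1 - L) ≤ 2 * ((k : ℝ) * N) * L := by
      have : 0 ≤ 2 * ((k : ℝ) * N) * L := by positivity
      nlinarith
    nlinarith
  have h4 : (N : ℝ) * L * E ≤ k * E := mul_le_mul_of_nonneg_right hNL hE
  have h5 : Real.sqrt (2 * ((k * N : ℕ) : ℝ) * L * (1 - L)) * E ≤ 2 * k * E :=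
    mul_le_mul_of_nonneg_right hs hE
  linarith

/-- weights of degree `(1 + ε) k N/2` which empty an arc of normalized length `(1 - ε) k` in the
mean -/
theorem low_final (ε : ℝ) (hε0 : 0 < ε) (hε1 : ε ≤ 1 / 2) : ∃ k₀ : ℕ, ∀ k : ℕ, k₀ ≤ k →
    ∀ N : ℕ, 4 * k / ε ≤ N → ∃ G : MvPolynomial (Fin N) ℂ, G.IsSymmetric ∧
      (G.totalDegree : ℝ) ≤ (1 + ε) * k * N / 2 ∧ 0 < cue N (fun θ => ‖ev G θ‖ ^ 2) ∧
      cue N (fun θ => ‖ev G θ‖ ^ 2 * cnt (-((1 - ε) * k / N / 2)) ((1 - ε) * k / N) θ) <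
        cue N (fun θ => ‖ev G θ‖ ^ 2) := by
  obtain ⟨k₀, hk₀⟩ := par_k ε hε0 hε1
  refine ⟨k₀, fun k hk N hN => ?_⟩
  obtain ⟨hkε, hlt⟩ := hk₀ k hk
  have hk1 : (0 : ℝ) < k := lt_of_lt_of_le (by positivity) hkε
  have hN1 : (0 : ℝ) < N := lt_of_lt_of_le (by positivity) hN
  have hNnat : 0 < N := by exact_mod_cast hN1
  have hknat : 0 < k := by exact_mod_cast hk1
  have hεk : 16 ≤ ε * k := by
    rw [div_le_iff₀ hε0] at hkε
    linarith
  have hNk : 4 * (k : ℝ) ≤ ε * N := by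
    rw [div_le_iff₀ hε0] at hN
    linarith
  have hpar := par ε hε0 hε1 k N hkε hN
  set R₀ := ⌊ε * k / 16⌋₊ with hR₀
  have hR1 : 1 ≤ R₀ := by
    rw [hR₀, Nat.one_le_floor_iff]
    linarith
  have hR2 : (R₀ : ℝ) ≤ ε * k / 16 := Nat.floor_le (by positivity)
  set h : ℝ := 1 / ((1 + ε / 2) * N) with hh
  have hhpos : 0 < h := by positivity
  set L : ℝ := (1 - ε) * k / N with hL
  have hL0 : 0 ≤ L := by
    have : 0 ≤ 1 - ε := by linarith
    positivity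
  have hNL : N * L = (1 - ε) * k := by
    rw [hL]
    field_simp
  have hNL' : N * L ≤ k := by
    rw [hNL]
    nlinarith
  have hkN : (k : ℝ) ≤ N / 8 := by nlinarith
  have hL1 : L ≤ 1 := by
    rw [hL, div_le_one hN1]
    nlinarith
  set y : ℝ := ε * k / (16 * N) with hy
  have hy0 : 0 < y := by positivity
  have hy1 : y ≤ 1 / 2 := by
    rw [hy, div_le_iff₀ (by positivity)]
    nlinarith
  have hNy : N * y = ε * k / 16 := by
    rw [hy]
    field_simp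
  set b : ℕ := ⌈(1 + ε) * k * N / 2⌉₊ with hb
  have hbpos : (0 : ℝ) < (1 + ε) * k * N / 2 := by positivity
  have hb1 : 1 ≤ b := Nat.one_le_iff_ne_zero.mpr (Nat.ceil_pos.mpr hbpos).ne'
  have hb2 : (1 + ε) * k * N / 2 ≤ b := Nat.le_ceil _
  have hb3 : (b : ℝ) < (1 + ε) * k * N / 2 + 1 := Nat.ceil_lt_add_one hbpos.le
  set φ : ℕ → ℝ := fun d => max 0 (1 - (d : ℝ) / b) with hφ
  have hb0 : (0 : ℝ) < b := by exact_mod_cast hb1
  have hφz : ∀ d, b ≤ d → φ d = 0 := by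
    intro d hd
    rw [hφ]
    simp only
    rw [max_eq_left]
    have : (1 : ℝ) ≤ (d : ℝ) / b := by
      rw [one_le_div hb0]
      exact_mod_cast hd
    linarith
  have hφ0 : φ 0 = 1 := by
    rw [hφ]
    simp
  set p := pz k h with hp
  have hpd : p.natDegree ≤ k := (pz_deg k h).le
  obtain ⟨u, hu, hpu⟩ := pz_pal k h
  set G₀ : MvPolynomial (Fin N) ℂ := gp p with hG₀
  have hG₀d : G₀.totalDegree ≤ k * N := gp_deg p k hpd
  have hE : 0 < cue N (fun θ => ‖ev G₀ θ‖ ^ 2) := gp_pos p (pz_ne k h)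
  set E := cue N (fun θ => ‖ev G₀ θ‖ ^ 2) with hEdef
  have hhalf : (ε / (1 + ε)) ^ 2 / 2 * E ≤ cue N (fun θ => ‖ev (tw (k * N) φ G₀) θ‖ ^ 2) :=
    half_mass k b p hpd u hu hpu ε hε0 hb1 hb2
  have hGd : (tw (k * N) φ G₀).totalDegree < b := tw_deg (k * N) b hb1 φ hφz G₀
  have hGpos : 0 < cue N (fun θ => ‖ev (tw (k * N) φ G₀) θ‖ ^ 2) :=
    lt_of_lt_of_le (by positivity) hhalf
  refine ⟨tw (k * N) φ G₀, tw_sym _ _ _ (gp_sym p), ?_, hGpos, ?_⟩
  · have h1 : ((tw (k * N) φ G₀).totalDegree : ℝ) + 1 ≤ b := by exact_mod_cast hGd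
    linarith
  obtain ⟨M, s, c, hc, hcφ, hcy⟩ := fej b (k * N) hb1 y hy0 hy1
  have hsum1 : ∑ r ∈ range M, c r = 1 := by
    have h1 := hcφ 0 (Nat.zero_le _)
    have h2 : ∑ r ∈ range M, (c r : ℂ) = 1 := by
      have h3 : ∑ r ∈ range M, (c r : ℂ) * e1 (((0 : ℕ) : ℝ) * s r) = ∑ r ∈ range M, (c r : ℂ) := by
        refine Finset.sum_congr rfl (fun r _ => ?_)
        simp [e1]
      rw [← h3, h1]
      simp
    exact_mod_cast h2
  have havg := avg_bound (k * N) φ G₀ hG₀d M s c hc hφ0 hcφ (-(L / 2)) L hL0 hL1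
  refine lt_of_le_of_lt havg ?_
  -- the two kinds of terms
  set B : ℝ := ((N + k : ℕ) : ℝ) * Real.exp (4 * ((N + k : ℕ) : ℝ) * R₀ * h) *
    (((R₀.factorial : ℕ) : ℝ) / (R₀ : ℝ) ^ R₀) ^ 4 with hB
  have hB0 : 0 ≤ B := by positivity
  have hLB : L * B ≤ 2 * Real.exp 5 * (k : ℝ) ^ 3 * Real.exp (-(ε ^ 2 * k / 20)) := hpar
  have hgood : ∀ r, ¬ (y < |s r|) → cue N (fun θ => ‖ev G₀ θ‖ ^ 2 * cnt (-(L / 2) + s r) L θ) ≤
      L * B * E := by
    intro r hr
    refine low_count N k p (pz_ne k h) hpd _ L B hL0 hL1 hB0 ?_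
    intro F hF hdiv hn t ht1 ht2
    refine arc_bound (N + k) k R₀ hR1 h t hhpos F hF hn hdiv ?_
    have hr' := abs_le.mp (not_lt.mp hr)
    have ht : |t| ≤ L / 2 + y := by
      rw [abs_le]
      constructor <;> linarith [hr'.1, hr'.2]
    have hkey : L / 2 + y + R₀ * h ≤ ((k : ℝ) - 1) / 2 * h := by
      have h1 : N * (L / 2 + y) ≤ N * ((((k : ℝ) - 1) / 2 - R₀) * h) := by
        have h2 : N * ((((k : ℝ) - 1) / 2 - R₀) * h) = (((k : ℝ) - 1) / 2 - R₀) / (1 + ε / 2) := by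
          rw [hh]
          field_simp
        rw [h2, mul_add, hNy, le_div_iff₀ (by positivity)]
        have h3 : (N : ℝ) * (L / 2) = (1 - ε) * k / 2 := by
          rw [← hNL]
          ring
        rw [h3]
        nlinarith
      have h4 := le_of_mul_le_mul_left h1 hN1
      linarith
    linarith
  have hbad : ∀ r, cue N (fun θ => ‖ev G₀ θ‖ ^ 2 * cnt (-(L / 2) + s r) L θ) ≤ 3 * k * E :=
    fun r => crude k N p hpd _ L hL0 hL1 hNL'
  have hsplit : ∑ r ∈ range M, c r * cue N (fun θ => ‖ev G₀ θ‖ ^ 2 * cnt (-(L / 2) + s r) L θ) ≤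
      L * B * E + (1 / (b * y)) * (3 * k * E) := by
    have h1 : ∀ r ∈ range M, c r * cue N (fun θ => ‖ev G₀ θ‖ ^ 2 * cnt (-(L / 2) + s r) L θ) ≤
        c r * (L * B * E) + (if y < |s r| then c r else 0) * (3 * k * E) := by
      intro r _
      by_cases hr : y < |s r|
      · rw [if_pos hr]
        have h2 : 0 ≤ c r * (L * B * E) := by
          have := hc r
          positivity
        have h3 := mul_le_mul_of_nonneg_left (hbad r) (hc r)
        linarith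
      · rw [if_neg hr, zero_mul, add_zero]
        exact mul_le_mul_of_nonneg_left (hgood r hr) (hc r)
    refine (Finset.sum_le_sum h1).trans ?_
    rw [Finset.sum_add_distrib, ← Finset.sum_mul, ← Finset.sum_mul, hsum1, one_mul,
      ← Finset.sum_filter]
    have h4 : 0 ≤ 3 * (k : ℝ) * E := by positivity
    have h5 := mul_le_mul_of_nonneg_right hcy h4
    linarith
  refine lt_of_le_of_lt hsplit (lt_of_lt_of_le ?_ hhalf)
  have hby : 1 / (b * y) * (3 * k) ≤ 96 / (ε * k) := by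
    have h1 : (k : ℝ) * N / 2 * y ≤ b * y := by
      refine mul_le_mul_of_nonneg_right ?_ hy0.le
      have : (k : ℝ) * N / 2 ≤ (1 + ε) * k * N / 2 := by
        have : 0 ≤ ε * k * N := by positivity
        nlinarith
      linarith
    have h2 : (k : ℝ) * N / 2 * y = ε * k ^ 2 / 32 := by
      rw [hy]
      field_simp
      ring
    rw [h2] at h1
    have h3 : 1 / (b * y) ≤ 1 / (ε * k ^ 2 / 32) := one_div_le_one_div_of_le (by positivity) h1
    calc 1 / (b * y) * (3 * k) ≤ 1 / (ε * k ^ 2 / 32) * (3 * k) :=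
          mul_le_mul_of_nonneg_right h3 (by positivity)
      _ = 96 / (ε * k) := by
          field_simp
          ring
  have h6 : L * B * E + 1 / (b * y) * (3 * k * E) =
      (L * B + 1 / (b * y) * (3 * k)) * E := by ring
  rw [h6]
  refine mul_lt_mul_of_pos_right ?_ hE
  linarith

end Pool.Agent.Work.MP_7b186b_nt.CU
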