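import Mathlib
import Pool.Agent.Work.MP_7b186b_nt.CU.Defs2
import Pool.Agent.Work.MP_7b186b_nt.CU.Int
import Pool.Agent.Work.MP_7b186b_nt.CU.Up
import Pool.Agent.Work.MP_7b186b_nt.CU.LowF
import Pool.Agent.Work.MP_7b186b_nt.CU.Gp

set_option autoImplicit false

namespace Pool.Agent.Work.MP_7b186b_nt.CU

open Finset MeasureTheory

/-
PROOF. cue_le: integrability (bounded measurable functions on the cube). upper: by cue_bound with d = G.totalDegree and
E = cue(|ev G|^2) > 0, cue(|ev G|^2 (cnt - N L)) = cue(|ev G|^2 cnt) - N L E. If cue(|ev G|^2 cnt) < E then (N L - 1) E < sqrt(2 d L (1-L)) E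
<= sqrt(2 D N L) E, so with λ = N L: λ - 1 < sqrt(2 D λ), (λ - 1 - D)^2 < D^2 + 2 D when λ > 1 (square: λ^2 - 2 λ + 1 < 2 D λ), so
λ < D + 1 + sqrt(D^2 + 2D). Same for the other inequality: 1 - λ < sqrt(2 D λ), so λ > D + 1 - sqrt(D^2+2D).
lower: put ε = δ/4 (δ <= 1, so ε <= 1/2) and k = floor(2D/(1+ε)) in low_final, then totalDegree <= (1+ε) k N/2 <= D N, and the arc of
length (2-δ) D/N about 0 is contained in the arc of length (1-ε) k/N about 0, since
(1-ε) k >= (1-ε)(2D/(1+ε) - 1) >= 2D(1-ε)^2 - 1 >= 2D - 4 ε D + 2 ε^2 D - 1 >= (2 - δ) D once 2 ε^2 D >= 1. cnt of the smaller arc is <= cnt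
of the bigger one (fract(t - a) < L means t is congruent mod 1 to a point of [a, a+L)). 4k/ε <= 32 D/δ: take C = 32/δ.
-/

theorem upper (N : ℕ) (D : ℝ) (hD : 0 ≤ D) (G : MvPolynomial (Fin N) ℂ) (hs : G.IsSymmetric)
    (hG : G ≠ 0) (hd : (G.totalDegree : ℝ) ≤ D * N) (a L : ℝ) (hL0 : 0 ≤ L) (hL1 : L ≤ 1) :
    (cue N (fun θ => ‖ev G θ‖ ^ 2 * cnt a L θ) < cue N (fun θ => ‖ev G θ‖ ^ 2) →
      N * L < D + 1 + Real.sqrt (D ^ 2 + 2 * D)) ∧
    (cue N (fun θ => ‖ev G θ‖ ^ 2) < cue N (fun θ => ‖ev G θ‖ ^ 2 * cnt a L θ) →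
      D + 1 - Real.sqrt (D ^ 2 + 2 * D) < N * L) := by
  have h1 := cue_bound N G.totalDegree G hs le_rfl a L hL0 hL1
  rw [cue_sub] at h1
  have hE : 0 < cue N (fun θ => ‖ev G θ‖ ^ 2) := cue_pos G hG
  set E := cue N (fun θ => ‖ev G θ‖ ^ 2) with hEd
  set F := cue N (fun θ => ‖ev G θ‖ ^ 2 * cnt a L θ) with hFd
  have hN0 : (0 : ℝ) ≤ N := Nat.cast_nonneg N
  set lam : ℝ := N * L with hlam
  have hlam0 : 0 ≤ lam := by positivity
  have hq : Real.sqrt (2 * (G.totalDegree : ℝ) * L * (1 - L)) ≤ Real.sqrt (2 * D * lam) := by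
    apply Real.sqrt_le_sqrt
    have h2 : (0 : ℝ) ≤ G.totalDegree := Nat.cast_nonneg _
    have h3 : 2 * (G.totalDegree : ℝ) * L * (1 - L) ≤ 2 * (G.totalDegree : ℝ) * L := by
      have : 0 ≤ 2 * (G.totalDegree : ℝ) * L := by positivity
      nlinarith
    have h4 : (G.totalDegree : ℝ) * L ≤ D * N * L := mul_le_mul_of_nonneg_right hd hL0
    rw [hlam]
    nlinarith
  have h5 : |F - lam * E| ≤ Real.sqrt (2 * D * lam) * E :=
    h1.trans (mul_le_mul_of_nonneg_right hq hE.le)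
  have hDs : 0 ≤ D ^ 2 + 2 * D := by positivity
  have hsq : Real.sqrt (2 * D * lam) ^ 2 = 2 * D * lam := Real.sq_sqrt (by positivity)
  have hs0 : 0 ≤ Real.sqrt (2 * D * lam) := Real.sqrt_nonneg _
  constructor
  · intro h6
    have h7 := (abs_le.mp h5).1
    have h8 : (lam - 1) * E < Real.sqrt (2 * D * lam) * E := by nlinarith
    have h9 : lam - 1 < Real.sqrt (2 * D * lam) := lt_of_mul_lt_mul_right h8 hE.le
    by_contra hcon
    rw [not_lt] at hcon
    have h10 : D + 1 ≤ lam := by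
      have := Real.sqrt_nonneg (D ^ 2 + 2 * D)
      linarith
    have h11 : D ^ 2 + 2 * D ≤ (lam - 1 - D) ^ 2 := by
      have h12 : Real.sqrt (D ^ 2 + 2 * D) ≤ lam - 1 - D := by linarith
      calc D ^ 2 + 2 * D = Real.sqrt (D ^ 2 + 2 * D) ^ 2 := (Real.sq_sqrt hDs).symm
        _ ≤ (lam - 1 - D) ^ 2 := pow_le_pow_left₀ (Real.sqrt_nonneg _) h12 2
    have h13 : (lam - 1) ^ 2 < 2 * D * lam := by
      rw [← hsq]
      exact pow_lt_pow_left₀ h9 (by linarith) (by norm_num)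
    nlinarith
  · intro h6
    have h7 := (abs_le.mp h5).2
    have h8 : (1 - lam) * E < Real.sqrt (2 * D * lam) * E := by nlinarith
    have h9 : 1 - lam < Real.sqrt (2 * D * lam) := lt_of_mul_lt_mul_right h8 hE.le
    by_contra hcon
    rw [not_lt] at hcon
    have h12 : Real.sqrt (D ^ 2 + 2 * D) ≤ D + 1 - lam := by linarith
    have h14 : D ≤ Real.sqrt (D ^ 2 + 2 * D) := by
      apply Real.le_sqrt_of_sq_le
      linarith
    have h11 : D ^ 2 + 2 * D ≤ (D + 1 - lam) ^ 2 := by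
      calc D ^ 2 + 2 * D = Real.sqrt (D ^ 2 + 2 * D) ^ 2 := (Real.sq_sqrt hDs).symm
        _ ≤ (D + 1 - lam) ^ 2 := pow_le_pow_left₀ (Real.sqrt_nonneg _) h12 2
    have h15 : 0 ≤ 1 - lam := by linarith
    have h13 : (1 - lam) ^ 2 < 2 * D * lam := by
      rw [← hsq]
      exact pow_lt_pow_left₀ h9 h15 (by norm_num)
    nlinarith

/-- smaller arcs about the origin contain fewer points -/
private theorem fract_mono (A B t : ℝ) (hAB : A ≤ B) (hB : B ≤ 1)
    (h : Int.fract (t - -(A / 2)) < A) : Int.fract (t - -(B / 2)) < B := by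
  set n := ⌊t - -(A / 2)⌋ with hn
  have h1 : Int.fract (t - -(A / 2)) = t - -(A / 2) - n := rfl
  rw [h1] at h
  have h2 : (0 : ℝ) ≤ t - -(A / 2) - n := by
    have := Int.floor_le (t - -(A / 2))
    linarith
  have h3 : Int.fract (t - -(B / 2)) = t - -(B / 2) - n := by
    rw [Int.fract_eq_iff]
    refine ⟨by linarith, by linarith, n, by ring⟩
  rw [h3]
  linarith

theorem lower (δ : ℝ) (hδ0 : 0 < δ) (hδ1 : δ ≤ 1) : ∃ D₀ C : ℝ, ∀ D : ℝ, D₀ ≤ D →
    ∀ N : ℕ, C * D ≤ N → ∃ G : MvPolynomial (Fin N) ℂ, G.IsSymmetric ∧ G ≠ 0 ∧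
      (G.totalDegree : ℝ) ≤ D * N ∧
      cue N (fun θ => ‖ev G θ‖ ^ 2 * cnt (-((2 - δ) * D / N / 2)) ((2 - δ) * D / N) θ) <
        cue N (fun θ => ‖ev G θ‖ ^ 2) := by
  set ε : ℝ := δ / 4 with hε
  have hε0 : 0 < ε := by positivity
  have hε1 : ε ≤ 1 / 2 := by
    rw [hε]
    linarith
  obtain ⟨k₀, hk₀⟩ := low_final ε hε0 hε1
  refine ⟨max (k₀ + 1) (1 / (2 * ε ^ 2)), 32 / δ, fun D hD N hN => ?_⟩
  have hD1 : (k₀ : ℝ) + 1 ≤ D := (le_max_left _ _).trans hD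
  have hD2 : 1 / (2 * ε ^ 2) ≤ D := (le_max_right _ _).trans hD
  have hk0 : (0 : ℝ) ≤ k₀ := Nat.cast_nonneg _
  have hDpos : 0 < D := by linarith
  have hNpos : (0 : ℝ) < N := lt_of_lt_of_le (by positivity) hN
  set k : ℕ := ⌊2 * D / (1 + ε)⌋₊ with hk
  have hk1 : (k : ℝ) ≤ 2 * D / (1 + ε) := Nat.floor_le (by positivity)
  have hk2 : 2 * D / (1 + ε) < k + 1 := Nat.lt_floor_add_one _
  have hk3 : (1 + ε) * k ≤ 2 * D := by
    rw [le_div_iff₀ (by positivity)] at hk1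
    linarith
  have hk5 : D ≤ 2 * D / (1 + ε) := by
    rw [le_div_iff₀ (by positivity)]
    nlinarith
  have hk4 : k₀ ≤ k := by
    have : (k₀ : ℝ) ≤ k := by linarith
    exact_mod_cast this
  have hkN : 4 * k / ε ≤ N := by
    refine le_trans ?_ hN
    have h1 : (k : ℝ) ≤ 2 * D := by
      have : 0 ≤ ε * (k : ℝ) := by positivity
      nlinarith
    rw [hε, div_le_iff₀ (by positivity)]
    have h2 : 32 / δ * D * (δ / 4) = 8 * D := by
      field_simp
      ring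
    rw [h2]
    linarith
  obtain ⟨G, hs, hd, hpos, hlt⟩ := hk₀ k hk4 N hkN
  have hGne : G ≠ 0 := by
    intro h0
    rw [h0] at hpos
    simp [ev, cue] at hpos
  refine ⟨G, hs, hGne, ?_, ?_⟩
  · refine hd.trans ?_
    have h1 : (1 + ε) * k * N ≤ 2 * D * N := mul_le_mul_of_nonneg_right hk3 hNpos.le
    linarith
  refine lt_of_le_of_lt (cue_cnt_mono G _ _ _ _ (fun t ht => ?_)) hlt
  refine fract_mono _ _ t ?_ ?_ ht
  · apply div_le_div_of_nonneg_right _ hNpos.le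
    have h1 : 2 * D * (1 - ε) ≤ 2 * D / (1 + ε) := by
      rw [le_div_iff₀ (by positivity)]
      have : 0 ≤ 2 * D * ε ^ 2 := by positivity
      nlinarith
    have h2 : 2 * D * (1 - ε) - 1 ≤ k := by linarith
    have h3 : 1 ≤ 2 * ε ^ 2 * D := by
      rw [div_le_iff₀ (by positivity)] at hD2
      linarith
    have h4 : (1 - ε) * (2 * D * (1 - ε) - 1) ≤ (1 - ε) * k :=
      mul_le_mul_of_nonneg_left h2 (by linarith)
    have h5 : δ = 4 * ε := by
      rw [hε]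
      ring
    rw [h5]
    nlinarith
  · rw [div_le_one hNpos]
    have h1 : 4 * (k : ℝ) ≤ ε * N := by
      rw [div_le_iff₀ hε0] at hkN
      linarith
    nlinarith [Nat.cast_nonneg (α := ℝ) k]

end Pool.Agent.Work.MP_7b186b_nt.CU
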